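import Mathlib

/-!
Basic definitions for the lower bound of the consecutive power residue constants.
-/

namespace Pool.Agent.Lib.MP_fed790_nt

open Finset

/-- the primes up to `P` -/
def PS (P : ℕ) : Finset ℕ := (range (P + 1)).filter Nat.Prime

/-- the number of prime factors `≤ P` of `n`, counted with multiplicity -/
def OmS (P n : ℕ) : ℕ := ∑ p ∈ PS P, n.factorization p

/-- the completely additive function with value `β p` at the prime `p` -/
def wt (β : ℕ → ℕ) (n : ℕ) : ℕ := n.factorization.sum fun p e => e * β p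

theorem mem_PS {P p : ℕ} : p ∈ PS P ↔ p ≤ P ∧ p.Prime := by
  simp [PS, Nat.lt_succ_iff]

theorem wt_one (β : ℕ → ℕ) : wt β 1 = 0 := by simp [wt]

theorem wt_mul (β : ℕ → ℕ) {a b : ℕ} (ha : a ≠ 0) (hb : b ≠ 0) :
    wt β (a * b) = wt β a + wt β b := by
  unfold wt
  rw [Nat.factorization_mul ha hb, Finsupp.sum_add_index']
  · intro p; simp
  · intro p x y; ring

theorem wt_prime (β : ℕ → ℕ) {p : ℕ} (hp : p.Prime) : wt β p = β p := by
  unfold wt
  rw [hp.factorization, Finsupp.sum_single_index] <;> simp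

theorem wt_pow (β : ℕ → ℕ) {a : ℕ} (ha : a ≠ 0) (j : ℕ) : wt β (a ^ j) = j * wt β a := by
  induction j with
  | zero => simp [wt_one]
  | succ j ih => rw [pow_succ, wt_mul β (pow_ne_zero _ ha) ha, ih]; ring

theorem wt_eq_sum (β : ℕ → ℕ) (n : ℕ) :
    wt β n = ∑ p ∈ n.primeFactors, n.factorization p * β p := by
  simp [wt, Finsupp.sum, Nat.support_factorization]

end Pool.Agent.Lib.MP_fed790_nt
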