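import Mathlib
import Pool.Agent.Lib.MP_176ace_nt.Zeta
import Pool.Agent.Lib.MP_fed790_nt.Basic

section

/-! Job K1a -/

namespace Pool.Agent.Lib.MP_fed790_nt

/-- (Job K1a) Cocycle argument.  Let `F/ℚ` be Galois with commutative Galois group and let
`τ₀ ∈ Gal(F/ℚ)` act by inversion on the `k`-th roots of unity.  If `γ ≠ 0` and `γ^k = b` is
rational, then `b^2` is the `k`-th power of a rational number.
Proof. For `τ ∈ Gal(F/ℚ)` put `ξ_τ = τ γ / γ`, so `ξ_τ ^ k = 1`.  Let `ξ₀ = ξ_{τ₀}`.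
From `τ₀ τ = τ τ₀`: `τ₀(τ γ) = τ₀(ξ_τ γ) = ξ_τ⁻¹ ξ₀ γ` and `τ(τ₀ γ) = τ(ξ₀ γ) = τ(ξ₀) ξ_τ γ`, so
`ξ_τ^2 τ(ξ₀) = ξ₀`.  Hence `τ(ξ₀ γ^2) = τ(ξ₀) ξ_τ^2 γ^2 = ξ₀ γ^2` for all `τ`, so `ξ₀ γ^2 = r ∈ ℚ`
(`IsGalois.mem_range_algebraMap_iff_fixed` or `IsGalois.tfae`), and
`r^k = ξ₀^k γ^{2k} = b^2`. -/
theorem exists_rat_pow {F : Type*} [Field F] [Algebra ℚ F] [FiniteDimensional ℚ F] [IsGalois ℚ F]
    (hab : ∀ σ τ : F ≃ₐ[ℚ] F, σ * τ = τ * σ) {k : ℕ} (hk : 0 < k) (τ₀ : F ≃ₐ[ℚ] F)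
    (hτ₀ : ∀ ξ : F, ξ ^ k = 1 → τ₀ ξ = ξ⁻¹) {γ : F} (hγ0 : γ ≠ 0) {b : ℚ}
    (hγ : γ ^ k = algebraMap ℚ F b) : ∃ r : ℚ, r ^ k = b ^ 2 := by
  have hroot : ∀ τ : F ≃ₐ[ℚ] F, (τ γ / γ) ^ k = 1 := by
    intro τ
    rw [div_pow, ← map_pow, hγ, AlgEquiv.commutes, ← hγ]
    exact div_self (pow_ne_zero k hγ0)
  set ξ₀ : F := τ₀ γ / γ with hξ₀
  have hξ₀γ : τ₀ γ = ξ₀ * γ := by
    rw [hξ₀]; field_simp
  have hfix : ∀ τ : F ≃ₐ[ℚ] F, τ (ξ₀ * γ ^ 2) = ξ₀ * γ ^ 2 := by
    intro τ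
    obtain ⟨ξ, hξdef⟩ : ∃ ξ : F, ξ = τ γ / γ := ⟨_, rfl⟩
    have hξγ : τ γ = ξ * γ := by
      rw [hξdef]; field_simp
    have hξk : ξ ^ k = 1 := by rw [hξdef]; exact hroot τ
    have hξ0 : ξ ≠ 0 := by
      intro h
      rw [h, zero_pow hk.ne'] at hξk
      exact zero_ne_one hξk
    have hcomm : τ₀ (τ γ) = τ (τ₀ γ) := by
      have := congrArg (fun f : F ≃ₐ[ℚ] F => f γ) (hab τ₀ τ)
      simpa using this
    rw [hξγ, map_mul, hτ₀ ξ hξk, hξ₀γ, map_mul, hξγ] at hcomm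
    have hkey : τ ξ₀ * ξ ^ 2 = ξ₀ := by
      have h1 : ξ * (ξ⁻¹ * (ξ₀ * γ)) = ξ * (τ ξ₀ * (ξ * γ)) := by rw [hcomm]
      have h2 : ξ₀ * γ = (τ ξ₀ * ξ ^ 2) * γ := by
        have h3 : ξ * (ξ⁻¹ * (ξ₀ * γ)) = ξ₀ * γ := by field_simp
        rw [h3] at h1
        rw [h1]; ring
      exact (mul_right_cancel₀ hγ0 h2).symm
    rw [map_mul, map_pow, hξγ, mul_pow, ← mul_assoc, hkey]
  obtain ⟨r, hr⟩ := (IsGalois.mem_range_algebraMap_iff_fixed (F := ℚ) (ξ₀ * γ ^ 2)).2 hfix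
  refine ⟨r, ?_⟩
  apply (algebraMap ℚ F).injective
  rw [map_pow, map_pow, hr, mul_pow, hroot τ₀, one_mul, ← hγ]
  ring

end Pool.Agent.Lib.MP_fed790_nt
end

section

/-! Job K1b -/

namespace Pool.Agent.Lib.MP_fed790_nt

/-- (Job K1b) The hypotheses hold for cyclotomic fields.
Proof. `IsCyclotomicExtension.isGalois`, the Galois group embeds into `(ZMod k)ˣ`
(`IsPrimitiveRoot.autToPow` / `IsCyclotomicExtension.autEquivPow`, with
`Polynomial.cyclotomic.irreducible_rat`), so it is commutative and contains the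
automorphism with `ζ ↦ ζ^{-1}` (the image of `-1`); every `ξ` with `ξ^k = 1` is a power of `ζ`. -/
theorem cyclotomic_facts (k : ℕ) [NeZero k] (F : Type*) [Field F] [Algebra ℚ F]
    [IsCyclotomicExtension {k} ℚ F] :
    IsGalois ℚ F ∧ FiniteDimensional ℚ F ∧ (∀ σ τ : F ≃ₐ[ℚ] F, σ * τ = τ * σ) ∧
    ∃ τ₀ : F ≃ₐ[ℚ] F, ∀ ξ : F, ξ ^ k = 1 → τ₀ ξ = ξ⁻¹ := by
  have hζ := IsCyclotomicExtension.zeta_spec k ℚ F
  have hirr : Irreducible (Polynomial.cyclotomic k ℚ) :=
    Polynomial.cyclotomic.irreducible_rat (NeZero.pos k)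
  refine ⟨IsCyclotomicExtension.isGalois {k} ℚ F, IsCyclotomicExtension.finiteDimensional {k} ℚ F, ?_, ?_⟩
  · intro σ τ
    apply hζ.autToPow_injective ℚ
    rw [map_mul, map_mul, mul_comm]
  · refine ⟨IsCyclotomicExtension.fromZetaAut hζ.inv hirr, fun ξ hξ => ?_⟩
    obtain ⟨i, _, rfl⟩ := hζ.eq_pow_of_pow_eq_one hξ
    rw [map_pow, IsCyclotomicExtension.fromZetaAut_spec, inv_pow]

end Pool.Agent.Lib.MP_fed790_nt
end

section

/-! Job K1c -/

namespace Pool.Agent.Lib.MP_fed790_nt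

/-- (Job K1c) If a product of powers of distinct primes, squared, is a `k`-th power of a rational
number, then `k` divides twice the exponents.
Proof. `padicValRat p` of both sides: `k * v_p(r) = 2 * c p` (`padicValRat.pow`, `padicValRat` of the
product; `r ≠ 0`).  Alternatively with `Nat.factorization` after showing that `r` is an integer up
to sign. -/
theorem dvd_of_rat_pow {k : ℕ} (hk : 0 < k) (Ps : Finset ℕ) (hPs : ∀ p ∈ Ps, p.Prime) (c : ℕ → ℕ)
    (r : ℚ) (hr : r ^ k = ((∏ p ∈ Ps, p ^ c p : ℕ) : ℚ) ^ 2) : ∀ p ∈ Ps, k ∣ 2 * c p := by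
  intro p hp
  have : Fact p.Prime := ⟨hPs p hp⟩
  have hN0 : (∏ q ∈ Ps, q ^ c q) ≠ 0 :=
    Finset.prod_ne_zero_iff.2 (fun q hq => pow_ne_zero _ (hPs q hq).ne_zero)
  have hv : (∏ q ∈ Ps, q ^ c q).factorization p = c p := by
    rw [Nat.factorization_prod (fun q hq => pow_ne_zero _ (hPs q hq).ne_zero)]
    rw [Finsupp.finsetSum_apply, Finset.sum_eq_single p]
    · rw [Nat.Prime.factorization_pow (hPs p hp)]
      simp
    · intro q hq hqp
      rw [Nat.Prime.factorization_pow (hPs q hq)]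
      simp [hqp]
    · intro h
      exact absurd hp h
  have hr0 : r ≠ 0 := by
    rintro rfl
    rw [zero_pow hk.ne'] at hr
    have : ((∏ q ∈ Ps, q ^ c q : ℕ) : ℚ) ≠ 0 := by exact_mod_cast hN0
    exact this (by
      have h2 := hr.symm
      exact pow_eq_zero_iff (two_ne_zero) |>.1 h2)
  have h1 := congrArg (padicValRat p) hr
  rw [padicValRat.pow, padicValRat.pow, padicValRat.of_nat,
    ← Nat.factorization_def _ (hPs p hp), hv] at h1
  have h2 : (k : ℤ) ∣ ((2 * c p : ℕ) : ℤ) := ⟨padicValRat p r, by push_cast at h1 ⊢; linarith⟩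
  exact_mod_cast h2

end Pool.Agent.Lib.MP_fed790_nt
end

section

/-! Job K2a -/

namespace Pool.Agent.Lib.MP_fed790_nt

private theorem exists_exp {E : Type*} [Field E] {k : ℕ} [NeZero k] {ζ : E}
    (hζ : IsPrimitiveRoot ζ k) (f : rootsOfUnity k E →* Eˣ) :
    ∃ c : ℕ, ∀ ξ : rootsOfUnity k E, f ξ = (ξ : Eˣ) ^ c := by
  have hz : IsPrimitiveRoot (hζ.toRootsOfUnity : Eˣ) k := by
    rw [← IsPrimitiveRoot.coe_units_iff]
    simpa using hζ
  have key : ∀ u : Eˣ, u ^ k = 1 → ∃ i : ℕ, (hζ.toRootsOfUnity : Eˣ) ^ i = u := by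
    intro u hu
    have h1 : (u : E) ^ k = 1 := by
      rw [← Units.val_pow_eq_pow_val, hu, Units.val_one]
    obtain ⟨i, -, hi⟩ := hζ.eq_pow_of_pow_eq_one h1
    refine ⟨i, ?_⟩
    ext
    simpa using hi
  obtain ⟨c, hc⟩ := key (f hζ.toRootsOfUnity) (by
    rw [← map_pow]
    have : (hζ.toRootsOfUnity : rootsOfUnity k E) ^ k = 1 := by
      ext
      simpa using hζ.pow_eq_one
    rw [this, map_one])
  refine ⟨c, fun ξ => ?_⟩
  obtain ⟨n, hn⟩ := key ξ (by
    have := ξ.2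
    rwa [mem_rootsOfUnity] at this)
  have h2 : ξ = hζ.toRootsOfUnity ^ n := by
    apply Subtype.ext
    rw [← hn]
    simp
  rw [h2, map_pow, ← hc, ← pow_mul, Subgroup.coe_pow, ← pow_mul, mul_comm]

/-- (Job K2a) Duality.  Let `ζ` be a primitive `k`-th root of unity of the field `E`, `ι` finite, and
let `H` be a subgroup of `ι → rootsOfUnity k E`.  If every exponent vector `c` that kills `H`
(i.e. `∏ i, h i ^ c i = 1` for all `h ∈ H`) also kills `g`, then `g ∈ H`.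
Proof. Suppose `g ∉ H`.  The quotient `(ι → rootsOfUnity k E) ⧸ H` is a finite commutative group
whose exponent divides `k`, so `E` has enough roots of unity for it
(`HasEnoughRootsOfUnity`), and `CommGroup.exists_apply_ne_one_of_hasEnoughRootsOfUnity` gives a
homomorphism `χ` from the quotient to `Eˣ` with `χ g ≠ 1`.  Composing with the projection and with
`Pi.mulSingle i` (`MonoidHom.mulSingle`) we get homomorphisms `χ_i : rootsOfUnity k E →* Eˣ`; as
`rootsOfUnity k E` is cyclic, generated by `ζ`, and `χ_i(ζ)^k = 1`, `χ_i(ζ) = ζ^{c i}` and so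
`χ_i(ξ) = ξ^{c i}` for all `ξ`.  So `χ(a) = ∏ i, a_i ^ c i` for all `a`; it kills `H`, so it kills
`g`, contradiction. -/
theorem mem_of_duality {E : Type*} [Field E] {k : ℕ} [NeZero k] {ζ : E}
    (hζ : IsPrimitiveRoot ζ k) {ι : Type*} [Fintype ι] (H : Subgroup (ι → rootsOfUnity k E))
    (g : ι → rootsOfUnity k E)
    (h : ∀ c : ι → ℕ, (∀ a ∈ H, ∏ i, a i ^ c i = 1) → ∏ i, g i ^ c i = 1) : g ∈ H := by
  classical
  by_contra hg
  have hne : (QuotientGroup.mk' H g) ≠ 1 := by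
    intro h0
    exact hg ((QuotientGroup.eq_one_iff g).1 h0)
  have hexp : Monoid.exponent ((ι → rootsOfUnity k E) ⧸ H) ∣ k := by
    apply Monoid.exponent_dvd_of_forall_pow_eq_one
    intro x
    obtain ⟨a, rfl⟩ := QuotientGroup.mk'_surjective H x
    rw [← map_pow]
    have : a ^ k = 1 := by
      funext i
      apply Subtype.ext
      have := (a i).2
      rw [mem_rootsOfUnity] at this
      simpa using this
    rw [this, map_one]
  have h1 : HasEnoughRootsOfUnity E k := ⟨⟨ζ, hζ⟩, rootsOfUnity.isCyclic E k⟩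
  have h2 : HasEnoughRootsOfUnity E (Monoid.exponent ((ι → rootsOfUnity k E) ⧸ H)) :=
    HasEnoughRootsOfUnity.of_dvd E hexp
  obtain ⟨φ, hφ⟩ := CommGroup.exists_apply_ne_one_of_hasEnoughRootsOfUnity _ E hne
  have h3 : ∀ i : ι, ∃ c : ℕ, ∀ ξ : rootsOfUnity k E,
      φ (QuotientGroup.mk' H (Pi.mulSingle i ξ)) = (ξ : Eˣ) ^ c := by
    intro i
    exact exists_exp hζ ((φ.comp (QuotientGroup.mk' H)).comp
      (MonoidHom.mulSingle (fun _ : ι => rootsOfUnity k E) i))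
  choose c hc using h3
  have h4 : ∀ a : ι → rootsOfUnity k E,
      φ (QuotientGroup.mk' H a) = ((∏ i, a i ^ c i : rootsOfUnity k E) : Eˣ) := by
    intro a
    have h5 : a = ∏ i, Pi.mulSingle i (a i) := (Finset.univ_prod_mulSingle a).symm
    conv_lhs => rw [h5]
    rw [map_prod, map_prod, Subgroup.val_finsetProd]
    refine Finset.prod_congr rfl fun i _ => ?_
    rw [hc i (a i)]
    simp
  apply hφ
  rw [h4 g, h c ?_]
  · simp
  · intro a ha
    have h6 := h4 a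
    have h7 : QuotientGroup.mk' H a = 1 := (QuotientGroup.eq_one_iff a).2 ha
    rw [h7, map_one] at h6
    apply Subtype.ext
    rw [← h6]
    simp

end Pool.Agent.Lib.MP_fed790_nt
end

section

/-! Job K3a -/

namespace Pool.Agent.Lib.MP_fed790_nt

open Polynomial

/-- (Job K3a) A finite Galois extension containing `k`-th roots of finitely many primes.
Proof. `E` is the splitting field over `F` of `∏ p ∈ Ps, (X ^ k - C (p : F))`
(`Polynomial.SplittingField`, which lives in `Type` as `F : Type`).  It is finite dimensional, and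
Galois because it is normal (`Normal.of_isSplittingField`) and separable (characteristic zero:
`Algebra.IsAlgebraic.isSeparable_of_perfectField` or an instance), `isGalois_iff`.  `θ p` is a root
of the factor `X ^ k - p`, which splits in `E` as a divisor of the product
(`Polynomial.SplittingField.splits`), of degree `k > 0`. -/
theorem exists_galois (F : Type) [Field F] [CharZero F] (k : ℕ) (hk : 0 < k) (Ps : Finset ℕ) :
    ∃ (E : Type) (_ : Field E) (_ : Algebra F E), FiniteDimensional F E ∧ IsGalois F E ∧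
      ∃ θ : ℕ → E, ∀ p ∈ Ps, θ p ^ k = (p : E) := by
  classical
  set f : F[X] := ∏ p ∈ Ps, (X ^ k - C (p : F)) with hf
  have hfac : ∀ p : ℕ, (X ^ k - C (p : F) : F[X]) ≠ 0 := fun p =>
    (monic_X_pow_sub_C (p : F) hk.ne').ne_zero
  have hf0 : f ≠ 0 := Finset.prod_ne_zero_iff.2 fun p _ => hfac p
  have hnorm : Normal F f.SplittingField := Normal.of_isSplittingField f
  refine ⟨f.SplittingField, inferInstance, inferInstance, inferInstance, isGalois_iff.2 ⟨inferInstance, hnorm⟩, ?_⟩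
  have hroot : ∀ p ∈ Ps, ∃ x : f.SplittingField, x ^ k = (p : f.SplittingField) := by
    intro p hp
    have hs : Splits ((X ^ k - C (p : F) : F[X]).map (algebraMap F f.SplittingField)) := by
      refine Splits.of_dvd (SplittingField.splits f) ?_ (Polynomial.map_dvd _ (Finset.dvd_prod_of_mem _ hp))
      exact (Polynomial.map_ne_zero_iff (algebraMap F f.SplittingField).injective).2 hf0
    have hdeg : degree ((X ^ k - C (p : F) : F[X]).map (algebraMap F f.SplittingField)) ≠ 0 := by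
      rw [degree_map, degree_X_pow_sub_C hk]
      exact_mod_cast hk.ne'
    obtain ⟨x, hx⟩ := hs.exists_eval_eq_zero hdeg
    refine ⟨x, ?_⟩
    simp only [Polynomial.map_sub, Polynomial.map_pow, map_X, map_natCast, eval_sub, eval_pow, eval_X,
      Polynomial.map_natCast, eval_natCast, sub_eq_zero] at hx
    exact hx
  choose! θ hθ using hroot
  exact ⟨θ, hθ⟩

end Pool.Agent.Lib.MP_fed790_nt
end

section

/-!
Densities of sets of prime ideals with bounded error: definitions and simple facts.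
-/

set_option linter.unusedVariables false

namespace Pool.Agent.Lib.MP_fed790_nt

open NumberField Filter Topology Ideal Pool.Agent.Lib.MP_176ace_nt

noncomputable section

variable {K : Type*} [Field K] [NumberField K]

/-- the sum of `N(P)^(-s)` over a set of ideals -/
def Asum (S : Set (Ideal (𝓞 K))) (s : ℝ) : ℝ := ∑' P, S.indicator (idTerm K s) P

/-- `∑_{P ∈ S} N(P)^(-s) = δ * log (1/(s-1)) + O(1)` as `s → 1+` -/
def HasDens (S : Set (Ideal (𝓞 K))) (δ : ℝ) : Prop :=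
  ∃ C : ℝ, ∀ᶠ s : ℝ in 𝓝[>] 1, |Asum S s + δ * Real.log (s - 1)| ≤ C

variable (K) in
/-- the prime ideals of prime norm -/
def P1 : Set (Ideal (𝓞 K)) := {P | Prime P ∧ (absNorm P).Prime}

/-- the prime ideals of prime norm modulo which `x` is no `q`-th power, for every `q ∈ R` -/
def Good (x : 𝓞 K) (R : Finset ℕ) : Set (Ideal (𝓞 K)) :=
  {P | P ∈ P1 K ∧ ∀ q ∈ R, ∀ t : 𝓞 K, t ^ q - x ∉ P}

theorem Asum_nonneg (S : Set (Ideal (𝓞 K))) (s : ℝ) : 0 ≤ Asum S s :=
  tsum_nonneg fun I => Set.indicator_nonneg (fun I _ => idTerm_nonneg s I) I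

theorem Asum_mono {s : ℝ} (hs : Summable (idTerm K s)) {S T : Set (Ideal (𝓞 K))} (h : S ⊆ T) :
    Asum S s ≤ Asum T s :=
  (hs.indicator S).tsum_le_tsum
    (fun I => Set.indicator_le_indicator_of_subset h (fun I => idTerm_nonneg s I) I)
    (hs.indicator T)

theorem Asum_union {s : ℝ} (hs : Summable (idTerm K s)) {S T : Set (Ideal (𝓞 K))}
    (h : Disjoint S T) : Asum (S ∪ T) s = Asum S s + Asum T s := by
  unfold Asum
  rw [← (hs.indicator S).tsum_add (hs.indicator T)]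
  refine tsum_congr fun I => ?_
  rw [Set.indicator_union_of_disjoint h]

theorem sum_le_Asum {s : ℝ} (hs : Summable (idTerm K s)) {S : Set (Ideal (𝓞 K))}
    (V : Finset (Ideal (𝓞 K))) (hV : ∀ P ∈ V, P ∈ S) : ∑ P ∈ V, idTerm K s P ≤ Asum S s := by
  have h1 : ∑ P ∈ V, idTerm K s P = ∑ P ∈ V, S.indicator (idTerm K s) P :=
    Finset.sum_congr rfl fun P hP => (Set.indicator_of_mem (hV P hP) _).symm
  rw [h1]
  exact (hs.indicator S).sum_le_tsum V
    (fun I _ => Set.indicator_nonneg (fun I _ => idTerm_nonneg s I) I)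

theorem Asum_le_of_sum_le {s : ℝ} (hs : Summable (idTerm K s)) {S : Set (Ideal (𝓞 K))} {C : ℝ}
    (h : ∀ V : Finset (Ideal (𝓞 K)), (∀ P ∈ V, P ∈ S) → ∑ P ∈ V, idTerm K s P ≤ C) :
    Asum S s ≤ C := by
  classical
  refine (hs.indicator S).tsum_le_of_sum_le fun U => ?_
  rw [Finset.sum_indicator_eq_sum_filter]
  exact h _ fun P hP => (Finset.mem_filter.mp hP).2

theorem idTerm_le_one {s : ℝ} (hs : 0 ≤ s) (P : Ideal (𝓞 K)) : idTerm K s P ≤ 1 := by
  unfold idTerm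
  rcases Nat.eq_zero_or_pos (absNorm P) with h | h
  · rw [h]
    rcases eq_or_ne s 0 with rfl | hs0
    · simp
    · rw [Nat.cast_zero, Real.zero_rpow (neg_ne_zero.mpr hs0)]; norm_num
  · have h1 : (1 : ℝ) ≤ absNorm P := by exact_mod_cast h
    exact Real.rpow_le_one_of_one_le_of_nonpos h1 (by linarith)

variable (K) in
theorem eventually_summable : ∀ᶠ s : ℝ in 𝓝[>] 1, Summable (idTerm K s) ∧ 1 < s := by
  filter_upwards [eventually_summable_idTerm K, self_mem_nhdsWithin] with s h1 h2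
  exact ⟨h1.1, h2⟩

end

end Pool.Agent.Lib.MP_fed790_nt
end

section

/-! Job K4 -/

namespace Pool.Agent.Lib.MP_fed790_nt

/-- (Job K4) Discrete logarithms.
Proof. Let `g` be a generator of `C` and `N = Nat.card C`; `x = g^a`, `z = g^t` (naturals or
integers).  `g^{e b a} = g^{k t}`, so `e b a ≡ k t` mod `N` (`orderOf g = N`), and `k ∣ N`, so
`k ∣ e b a`, hence `k/e ∣ a b` (`e ∣ k`, `e > 0` since `k > 0`).  `a` and `k/e` are coprime: if a
prime `q` divides both, `x = (g^{a/q})^q` contradicts `hx`.  So `k/e ∣ b`. -/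
theorem dvd_of_pow_eq {C : Type*} [CommGroup C] [Finite C] [IsCyclic C] {k e : ℕ} (hk : 0 < k)
    (hek : e ∣ k) (hkC : k ∣ Nat.card C) (x : C)
    (hx : ∀ q : ℕ, q.Prime → q ∣ k / e → ∀ t : C, t ^ q ≠ x) (b : ℕ) (z : C)
    (h : x ^ (e * b) = z ^ k) : k / e ∣ b := by
  obtain ⟨g, hg⟩ := IsCyclic.exists_generator (α := C)
  have hord : orderOf g = Nat.card C := orderOf_eq_card_of_forall_mem_zpowers hg
  have hpow : ∀ y : C, ∃ n : ℕ, g ^ n = y := by
    intro y
    have h1 := hg y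
    rw [← mem_powers_iff_mem_zpowers] at h1
    exact h1
  obtain ⟨a, rfl⟩ := hpow x
  obtain ⟨t, rfl⟩ := hpow z
  obtain ⟨f, rfl⟩ := hek
  have he : 0 < e := Nat.pos_of_mul_pos_right hk
  rw [Nat.mul_div_cancel_left _ he] at hx ⊢
  rw [← pow_mul, ← pow_mul, pow_eq_pow_iff_modEq, hord] at h
  have h2 : a * (e * b) ≡ t * (e * f) [MOD e * f] := h.of_dvd hkC
  have h3 : e * f ∣ a * (e * b) := by
    have h4 : t * (e * f) ≡ 0 [MOD e * f] := (Nat.modEq_zero_iff_dvd).2 (Dvd.intro_left _ rfl)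
    exact (Nat.modEq_zero_iff_dvd).1 (h2.trans h4)
  have h5 : f ∣ a * b := by
    rw [show a * (e * b) = e * (a * b) by ring] at h3
    exact Nat.dvd_of_mul_dvd_mul_left he h3
  have hcop : Nat.Coprime f a := by
    refine Nat.coprime_of_dvd fun q hq hqf hqa => ?_
    obtain ⟨a', rfl⟩ := hqa
    refine hx q hq hqf (g ^ a') ?_
    rw [← pow_mul, mul_comm]
  exact hcop.dvd_of_dvd_mul_left h5

end Pool.Agent.Lib.MP_fed790_nt
end

section

/-! Job K5a -/

namespace Pool.Agent.Lib.MP_fed790_nt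

/-- (Job K5a) The multiplicative relation.
Proof. Induction on `n` with `Nat.recOnMul` (or over the prime factors): `n = 1`: `y = 1`; `n = p`
prime: hypothesis and `wt_prime`; `n = a b`: multiply, `wt_mul`. -/
theorem exists_pow_eq {R : Type*} [CommRing R] (k : ℕ) (Ps : Finset ℕ) (β : ℕ → ℕ)
    (h : ∀ p ∈ Ps, ∃ y : R, y ^ k = (p : R) * 2 ^ ((k - 1) * β p)) (n : ℕ) (hn : n ≠ 0)
    (hnPs : ∀ p, p.Prime → p ∣ n → p ∈ Ps) :
    ∃ y : R, y ^ k = (n : R) * 2 ^ ((k - 1) * wt β n) := by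
  induction n using Nat.strong_induction_on with
  | _ n ih =>
    rcases Nat.lt_or_ge 1 n with h1 | h1
    · have hp : n.minFac.Prime := Nat.minFac_prime (by omega)
      obtain ⟨c, hc⟩ := Nat.minFac_dvd n
      have hc0 : c ≠ 0 := by
        rintro rfl
        rw [mul_zero] at hc
        exact hn hc
      have hp2 := hp.two_le
      have hcn : c < n := by
        have h3 : n = n.minFac * c := hc
        have h4 : 2 * c ≤ n.minFac * c := Nat.mul_le_mul_right c hp2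
        omega
      obtain ⟨y, hy⟩ := ih c hcn hc0 fun q hq hqc => hnPs q hq (hqc.trans ⟨n.minFac, by rw [mul_comm]; exact hc⟩)
      obtain ⟨x, hx⟩ := h n.minFac (hnPs _ hp (Nat.minFac_dvd n))
      refine ⟨x * y, ?_⟩
      have hw : wt β n = β n.minFac + wt β c := by
        conv_lhs => rw [hc]
        rw [wt_mul β hp.ne_zero hc0, wt_prime β hp]
      have hcast : (n : R) = (n.minFac : R) * (c : R) := by
        conv_lhs => rw [hc]
        push_cast
        rfl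
      rw [mul_pow, hx, hy, hw, hcast, Nat.mul_add, pow_add]
      ring
    · have h2 : n = 1 := by omega
      subst h2
      exact ⟨1, by simp [wt_one]⟩

end Pool.Agent.Lib.MP_fed790_nt
end

section

/-! Job D1 -/

namespace Pool.Agent.Lib.MP_fed790_nt

open NumberField Filter Topology Ideal Pool.Agent.Lib.MP_176ace_nt

/-- (Job D1) `log ζ_K(s) = - log (s-1) + O(1)`.
Proof. By `eventually_summable_idTerm` the real sum `Z(s) = ∑' I, idTerm K s I` is the Dedekind zeta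
function near `1+`, and `tendsto_sub_one_mul_dedekindZeta_nhdsGT K` says
`(s-1) ζ_K(s) → ρ = dedekindZeta_residue K > 0` (`dedekindZeta_residue_pos`, or `≠ 0` plus
nonnegativity).  So `(s-1) Z(s) → ρ` (real limit; take real parts/norms), hence
`log ((s-1) Z(s)) → log ρ` (`Filter.Tendsto.log`), which is eventually bounded, and
`log((s-1) Z(s)) = log(s-1) + log Z(s)` as `s > 1`, `Z(s) ≥ 1 > 0` (`one_le_sieved` with `S = ∅`
and `sieved_empty`, or since the limit is positive). -/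
theorem log_zeta (K : Type*) [Field K] [NumberField K] :
    ∃ C : ℝ, ∀ᶠ s : ℝ in 𝓝[>] 1, |Real.log (∑' I, idTerm K s I) + Real.log (s - 1)| ≤ C := by
  have h1 := (tendsto_sub_one_mul_dedekindZeta_nhdsGT K).norm
  have h3 : ‖((dedekindZeta_residue K : ℝ) : ℂ)‖ ≠ 0 := by
    rw [norm_ne_zero_iff]
    exact_mod_cast dedekindZeta_residue_ne_zero K
  have h4 := (h1.log h3).abs
  have h5 := h4.eventually_lt_const (lt_add_one _)
  refine ⟨|Real.log ‖((dedekindZeta_residue K : ℝ) : ℂ)‖| + 1, ?_⟩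
  filter_upwards [h5, eventually_summable_idTerm K, self_mem_nhdsWithin,
    h1.eventually_ne h3] with s hs hz hs1 hne
  have hs1' : (1 : ℝ) < s := hs1
  have hZ0 : 0 ≤ ∑' I, idTerm K s I := tsum_nonneg fun I => idTerm_nonneg s I
  have e : ‖((s : ℂ) - 1) * dedekindZeta K (s : ℂ)‖ = (s - 1) * ∑' I, idTerm K s I := by
    rw [norm_mul, hz.2, Complex.norm_real, Real.norm_of_nonneg hZ0]
    congr 1
    rw [← Complex.ofReal_one, ← Complex.ofReal_sub, Complex.norm_real,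
      Real.norm_of_nonneg (by linarith)]
  rw [e] at hs hne
  have hZ : (∑' I, idTerm K s I) ≠ 0 := fun h => hne (by rw [h, mul_zero])
  have hs0 : s - 1 ≠ 0 := by linarith
  rw [Real.log_mul hs0 hZ, add_comm] at hs
  exact hs.le

end Pool.Agent.Lib.MP_fed790_nt
end

section

/-! Job D2 -/

namespace Pool.Agent.Lib.MP_fed790_nt

open NumberField Filter Topology Ideal Pool.Agent.Lib.MP_176ace_nt

/-- (Job D2) `∑_{P ∈ P1} N(P)^(-s) ≤ log ζ_K(s)`.
Proof. By `Asum_le_of_sum_le` it is enough to bound finite sums over `V ⊆ P1 K`.  By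
`one_le_sieved` and `sieved_eq`, `1 ≤ (∏ P ∈ V, (1 - x_P)) * Z`, `x_P = idTerm K s P ∈ [0, 1/2]`
(`idTerm_le_half`).  Taking logarithms (`Real.log_prod`): `0 ≤ ∑ log (1 - x_P) + log Z`, and
`log (1 - x_P) ≤ - x_P` (`Real.log_le_sub_one_of_pos`). -/
theorem Asum_P1_le {K : Type*} [Field K] [NumberField K] {s : ℝ} (hs1 : 1 < s)
    (hs : Summable (idTerm K s)) : Asum (P1 K) s ≤ Real.log (∑' I, idTerm K s I) := by
  have hs0 : s ≠ 0 := by linarith
  apply Asum_le_of_sum_le hs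
  intro V hV
  have hVp : ∀ P ∈ V, Prime P := fun P hP => (hV P hP).1
  have h1 := one_le_sieved hs V hVp
  rw [sieved_eq hs0 hs V hVp] at h1
  set Z := ∑' I, idTerm K s I with hZ
  have hpos : ∀ P ∈ V, 0 < 1 - idTerm K s P := by
    intro P hP
    have := idTerm_le_half hs1.le (hVp P hP)
    linarith
  have hprod : 0 < ∏ P ∈ V, (1 - idTerm K s P) := Finset.prod_pos hpos
  have hZpos : 0 < Z := by
    by_contra hcon
    have h2 : (∏ P ∈ V, (1 - idTerm K s P)) * Z ≤ 0 :=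
      mul_nonpos_of_nonneg_of_nonpos hprod.le (not_lt.1 hcon)
    linarith
  have h2 : 0 ≤ Real.log ((∏ P ∈ V, (1 - idTerm K s P)) * Z) := Real.log_nonneg h1
  rw [Real.log_mul hprod.ne' hZpos.ne', Real.log_prod (fun P hP => (hpos P hP).ne')] at h2
  have h3 : ∑ P ∈ V, Real.log (1 - idTerm K s P) ≤ ∑ P ∈ V, (-idTerm K s P) := by
    refine Finset.sum_le_sum fun P hP => ?_
    have := Real.log_le_sub_one_of_pos (hpos P hP)
    linarith
  rw [Finset.sum_neg_distrib] at h3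
  linarith

end Pool.Agent.Lib.MP_fed790_nt
end

section

/-! Job D3a -/

namespace Pool.Agent.Lib.MP_fed790_nt

open NumberField Filter Topology Ideal Pool.Agent.Lib.MP_176ace_nt

/-- (Job D3a) `∑ N(P)^(-2)` is bounded.
Proof. Same as `sum_inv_bad_le` (in `Pool/Agent/Lib/MP_176ace_nt/Zeta.lean`; copy its proof): group
the primes `P ∈ S` by `q = (absNorm P).minFac`; for each prime `q` there are at most
`finrank ℤ (𝓞 K)` of them (`card_le_of_dvd`), and each has `(absNorm P)^2 ≥ q^2`. -/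
theorem sum_inv_sq_le {K : Type*} [Field K] [NumberField K] (S : Finset (Ideal (𝓞 K)))
    (hS : ∀ P ∈ S, Prime P) :
    ∑ P ∈ S, ((absNorm P : ℝ) ^ 2)⁻¹ ≤
      Module.finrank ℤ (𝓞 K) * ∑' k : ℕ, 1 / (k : ℝ) ^ 2 := by
  classical
  have hsum : Summable (fun k : ℕ => 1 / (k : ℝ) ^ 2) :=
    Real.summable_one_div_nat_pow.mpr (by norm_num)
  set U := S.image (fun P => (absNorm P).minFac) with hU
  have h1 : ∑ P ∈ S, ((absNorm P : ℝ) ^ 2)⁻¹ =
      ∑ q ∈ U, ∑ P ∈ S.filter (fun P => (absNorm P).minFac = q), ((absNorm P : ℝ) ^ 2)⁻¹ := by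
    rw [Finset.sum_fiberwise_of_maps_to]
    intro P hP
    exact Finset.mem_image_of_mem _ hP
  rw [h1]
  have h2 : ∀ q ∈ U, ∑ P ∈ S.filter (fun P => (absNorm P).minFac = q), ((absNorm P : ℝ) ^ 2)⁻¹ ≤
      Module.finrank ℤ (𝓞 K) * (1 / (q : ℝ) ^ 2) := by
    intro q hqU
    obtain ⟨P0, hP0, hq0⟩ := Finset.mem_image.mp hqU
    have hqprime : q.Prime := by
      rw [← hq0]; exact Nat.minFac_prime (by have := two_le_absNorm (hS P0 hP0); omega)
    have h3 : ∀ P ∈ S.filter (fun P => (absNorm P).minFac = q),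
        P ∣ span {(q : 𝓞 K)} ∧ ((absNorm P : ℝ) ^ 2)⁻¹ ≤ 1 / (q : ℝ) ^ 2 := by
      intro P hP
      obtain ⟨hPS, hPq⟩ := Finset.mem_filter.mp hP
      obtain ⟨r, f, hr, hf, h, hd⟩ := exists_prime_norm (hS P hPS)
      have hrq : r = q := by
        rw [← hPq, h, Nat.Prime.pow_minFac hr (by omega)]
      subst hrq
      refine ⟨hd, ?_⟩
      have h2N := two_le_absNorm (hS P hPS)
      have hle : r ≤ absNorm P := by
        rw [← hPq]
        exact Nat.minFac_le (by omega)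
      rw [← one_div]
      have hr0 : (0 : ℝ) < r := by exact_mod_cast hr.pos
      have hle' : (r : ℝ) ≤ absNorm P := by exact_mod_cast hle
      exact one_div_le_one_div_of_le (by positivity) (pow_le_pow_left₀ hr0.le hle' 2)
    calc ∑ P ∈ S.filter (fun P => (absNorm P).minFac = q), ((absNorm P : ℝ) ^ 2)⁻¹
        ≤ ∑ P ∈ S.filter (fun P => (absNorm P).minFac = q), 1 / (q : ℝ) ^ 2 :=
          Finset.sum_le_sum fun P hP => (h3 P hP).2
      _ = (S.filter (fun P => (absNorm P).minFac = q)).card * (1 / (q : ℝ) ^ 2) := by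
          rw [Finset.sum_const, nsmul_eq_mul]
      _ ≤ Module.finrank ℤ (𝓞 K) * (1 / (q : ℝ) ^ 2) := by
          refine mul_le_mul_of_nonneg_right ?_ (by positivity)
          exact_mod_cast card_le_of_dvd _ (fun P hP => hS P (Finset.mem_filter.mp hP).1) hqprime
            (fun P hP => (h3 P hP).1)
  calc ∑ q ∈ U, ∑ P ∈ S.filter (fun P => (absNorm P).minFac = q), ((absNorm P : ℝ) ^ 2)⁻¹
      ≤ ∑ q ∈ U, Module.finrank ℤ (𝓞 K) * (1 / (q : ℝ) ^ 2) := Finset.sum_le_sum h2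
    _ = Module.finrank ℤ (𝓞 K) * ∑ q ∈ U, (1 / (q : ℝ) ^ 2) := by rw [Finset.mul_sum]
    _ ≤ _ := by
      refine mul_le_mul_of_nonneg_left ?_ (by positivity)
      exact hsum.sum_le_tsum U (fun k _ => by positivity)

end Pool.Agent.Lib.MP_fed790_nt
end

section

/-! Job D5 -/

namespace Pool.Agent.Lib.MP_fed790_nt

open NumberField Filter Topology Ideal Pool.Agent.Lib.MP_176ace_nt

private theorem Asum_le_card {K : Type*} [Field K] [NumberField K] {s : ℝ}
    (hs : Summable (idTerm K s)) (h1 : 1 < s) {S : Set (Ideal (𝓞 K))} (B : Finset (Ideal (𝓞 K)))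
    (hSB : S ⊆ B) : Asum S s ≤ B.card := by
  refine Asum_le_of_sum_le hs fun V hV => ?_
  have h2 : V ⊆ B := fun P hP => hSB (hV P hP)
  calc ∑ P ∈ V, idTerm K s P ≤ ∑ P ∈ V, (1 : ℝ) :=
        Finset.sum_le_sum fun P _ => idTerm_le_one (by linarith) P
    _ = V.card := by simp
    _ ≤ B.card := by exact_mod_cast Finset.card_le_card h2

private theorem Asum_le_add {K : Type*} [Field K] [NumberField K] {s : ℝ}
    (hs : Summable (idTerm K s)) (h1 : 1 < s) {S S' : Set (Ideal (𝓞 K))}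
    (h2 : (S' \ S).Finite) : Asum S' s ≤ Asum S s + h2.toFinset.card := by
  have h3 : S' ⊆ S ∪ (S' \ S) := by
    rw [Set.union_sdiff_self]
    exact Set.subset_union_right
  have h4 := Asum_mono hs h3
  rw [Asum_union hs Set.disjoint_sdiff_right] at h4
  have h5 : Asum (S' \ S) s ≤ h2.toFinset.card :=
    Asum_le_card hs h1 h2.toFinset (by rw [Set.Finite.coe_toFinset])
  linarith

/-- (Job D5a) Densities subtract.
Proof. `Asum T = Asum S + Asum (T \ S)` (`Asum_union`, `Set.union_diff_cancel`) for all `s` near `1+`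
(`eventually_summable`); triangle inequality, constant `C_S + C_T`. -/
theorem HasDens.sdiff {K : Type*} [Field K] [NumberField K] {S T : Set (Ideal (𝓞 K))} {a b : ℝ}
    (hST : S ⊆ T) (hS : HasDens S a) (hT : HasDens T b) : HasDens (T \ S) (b - a) := by
  obtain ⟨C1, hC1⟩ := hS
  obtain ⟨C2, hC2⟩ := hT
  refine ⟨C1 + C2, ?_⟩
  filter_upwards [hC1, hC2, eventually_summable K] with s h1 h2 h3
  have h4 : Asum T s = Asum S s + Asum (T \ S) s := by
    rw [← Asum_union h3.1 Set.disjoint_sdiff_right, Set.union_sdiff_cancel hST]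
  rw [abs_le] at h1 h2 ⊢
  constructor <;> nlinarith [h1.1, h1.2, h2.1, h2.2]

/-- (Job D5b) Densities do not see finite sets.
Proof. For `s` near `1+`: `Asum S' ≤ Asum (S ∪ (S' \ S)) = Asum S + Asum (S' \ S)` and
`Asum (S' \ S) ≤ card` (each term is `≤ 1`, `idTerm_le_one`, `Asum_le_of_sum_le`), and symmetrically.
So `|Asum S' - Asum S| ≤ card (S \ S') + card (S' \ S)`. -/
theorem HasDens.congr_finite {K : Type*} [Field K] [NumberField K] {S S' : Set (Ideal (𝓞 K))}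
    {a : ℝ} (h1 : (S \ S').Finite) (h2 : (S' \ S).Finite) (hS : HasDens S a) : HasDens S' a := by
  obtain ⟨C, hC⟩ := hS
  refine ⟨C + h1.toFinset.card + h2.toFinset.card, ?_⟩
  filter_upwards [hC, eventually_summable K] with s h3 h4
  have h5 := Asum_le_add h4.1 h4.2 h2
  have h6 := Asum_le_add h4.1 h4.2 h1
  have h7 : (0 : ℝ) ≤ h1.toFinset.card := Nat.cast_nonneg _
  have h8 : (0 : ℝ) ≤ h2.toFinset.card := Nat.cast_nonneg _
  rw [abs_le] at h3 ⊢
  constructor <;> linarith [h3.1, h3.2]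

/-- (Job D5c) A set of positive density is not contained in a finite set.
Proof. Otherwise `Asum S s ≤ B.card` for all `s` near `1+` (`idTerm_le_one`), while
`Asum S s ≥ - a log (s-1) - C → ∞` as `s → 1+` (`Real.tendsto_log_nhdsGT_zero`). -/
theorem HasDens.exists_notMem {K : Type*} [Field K] [NumberField K] {S : Set (Ideal (𝓞 K))}
    {a : ℝ} (ha : 0 < a) (hS : HasDens S a) (B : Finset (Ideal (𝓞 K))) : ∃ P ∈ S, P ∉ B := by
  by_contra hcon
  push Not at hcon
  obtain ⟨C, hC⟩ := hS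
  have h1 : Tendsto (fun s : ℝ => s - 1) (𝓝[>] 1) (𝓝[>] 0) := by
    refine tendsto_nhdsWithin_iff.2 ⟨?_, ?_⟩
    · have : Tendsto (fun s : ℝ => s - 1) (𝓝 1) (𝓝 (1 - 1)) := tendsto_id.sub_const 1
      rw [sub_self] at this
      exact this.mono_left nhdsWithin_le_nhds
    · filter_upwards [self_mem_nhdsWithin] with s hs
      have : (1 : ℝ) < s := hs
      show (0 : ℝ) < s - 1
      linarith
  have h2 : Tendsto (fun s : ℝ => Real.log (s - 1)) (𝓝[>] 1) atBot :=
    Real.tendsto_log_nhdsGT_zero.comp h1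
  have h3 := h2.eventually_lt_atBot (-((B.card + C) / a))
  obtain ⟨s, h4, h5, h6, h7⟩ := (h3.and (hC.and (eventually_summable K))).exists
  have h8 := Asum_le_card h6 h7 B (fun P hP => hcon P hP)
  rw [abs_le] at h5
  have h9 : a * Real.log (s - 1) < -(B.card + C) := by
    have := mul_lt_mul_of_pos_left h4 ha
    have e : a * -((B.card + C) / a) = -(B.card + C) := by field_simp
    rwa [e] at this
  linarith [h5.1]

end Pool.Agent.Lib.MP_fed790_nt
end

section

/-! Job D7 -/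

namespace Pool.Agent.Lib.MP_fed790_nt

open NumberField Filter Topology Ideal Pool.Agent.Lib.MP_176ace_nt

/-- (Job D7) Transfer of densities.  Every `P ∈ S` has exactly `q` companions `Q ∈ T P` in the field
`L`, of the same norm, disjoint for different `P`, and `S'` is the set of all companions.  Then the
density of `S` is `1/q` times that of `S'`.
Proof. It is enough that `Asum S' s = q * Asum S s` whenever `idTerm F s` and `idTerm L s` are
summable (both hold near `1+`: `eventually_summable`).  `≤`: by `Asum_le_of_sum_le` let `V ⊆ S'` be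
finite; choose for every `Q ∈ V` some `P_Q ∈ S` with `Q ∈ T P_Q`, let `U` be the image; then
`V ⊆ U.biUnion T`, and `∑_{Q ∈ U.biUnion T} idTerm = ∑_{P ∈ U} q * idTerm F s P ≤ q * Asum S s`
(`Finset.sum_biUnion`, `sum_le_Asum`).  `≥`: `Asum S s ≤ (Asum S' s)/q`, by `Asum_le_of_sum_le`:
for finite `U ⊆ S`, `q * ∑_{P∈U} idTerm F s P = ∑_{Q ∈ U.biUnion T} idTerm L s Q ≤ Asum S' s`. -/
theorem HasDens.of_lift {F L : Type*} [Field F] [NumberField F] [Field L] [NumberField L] {q : ℕ}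
    (hq : 0 < q) (S : Set (Ideal (𝓞 F))) (S' : Set (Ideal (𝓞 L)))
    (T : Ideal (𝓞 F) → Finset (Ideal (𝓞 L)))
    (hT : ∀ P ∈ S, (T P).card = q ∧ ∀ Q ∈ T P, absNorm Q = absNorm P)
    (hdisj : ∀ P ∈ S, ∀ P' ∈ S, P ≠ P' → Disjoint (T P) (T P'))
    (hS' : ∀ Q, Q ∈ S' ↔ ∃ P ∈ S, Q ∈ T P) (a : ℝ) (h : HasDens S' a) : HasDens S (a / q) := by
  classical
  have hq' : (0 : ℝ) < q := by exact_mod_cast hq
  -- sums over the companions
  have hsum : ∀ (s : ℝ) (U : Finset (Ideal (𝓞 F))), (∀ P ∈ U, P ∈ S) →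
      ∑ Q ∈ U.biUnion T, idTerm L s Q = q * ∑ P ∈ U, idTerm F s P := by
    intro s U hU
    rw [Finset.sum_biUnion, Finset.mul_sum]
    · refine Finset.sum_congr rfl fun P hP => ?_
      have h1 : ∀ Q ∈ T P, idTerm L s Q = idTerm F s P := by
        intro Q hQ
        unfold idTerm
        rw [(hT P (hU P hP)).2 Q hQ]
      rw [Finset.sum_congr rfl h1, Finset.sum_const, (hT P (hU P hP)).1, nsmul_eq_mul]
    · intro P hP P' hP' hne
      exact hdisj P (hU P hP) P' (hU P' hP') hne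
  have key : ∀ s : ℝ, Summable (idTerm F s) → Summable (idTerm L s) →
      Asum S' s = q * Asum S s := by
    intro s hF hL
    apply le_antisymm
    · apply Asum_le_of_sum_le hL
      intro V hV
      have hex : ∀ Q : Ideal (𝓞 L), ∃ P : Ideal (𝓞 F), Q ∈ V → P ∈ S ∧ Q ∈ T P := by
        intro Q
        by_cases hQ : Q ∈ V
        · obtain ⟨P, hP, hQP⟩ := (hS' Q).1 (hV Q hQ)
          exact ⟨P, fun _ => ⟨hP, hQP⟩⟩
        · exact ⟨⊤, fun h => absurd h hQ⟩
      choose g hg using hex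
      have hU : ∀ P ∈ V.image g, P ∈ S := by
        intro P hP
        obtain ⟨Q, hQ, rfl⟩ := Finset.mem_image.1 hP
        exact (hg Q hQ).1
      have hsub : V ⊆ (V.image g).biUnion T := by
        intro Q hQ
        exact Finset.mem_biUnion.2 ⟨g Q, Finset.mem_image_of_mem g hQ, (hg Q hQ).2⟩
      calc ∑ Q ∈ V, idTerm L s Q ≤ ∑ Q ∈ (V.image g).biUnion T, idTerm L s Q :=
            Finset.sum_le_sum_of_subset_of_nonneg hsub fun Q _ _ => idTerm_nonneg s Q
        _ = q * ∑ P ∈ V.image g, idTerm F s P := hsum s _ hU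
        _ ≤ q * Asum S s := mul_le_mul_of_nonneg_left (sum_le_Asum hF _ hU) hq'.le
    · rw [← le_div_iff₀' hq']
      apply Asum_le_of_sum_le hF
      intro U hU
      rw [le_div_iff₀' hq', ← hsum s U hU]
      apply sum_le_Asum hL
      intro Q hQ
      obtain ⟨P, hP, hQP⟩ := Finset.mem_biUnion.1 hQ
      exact (hS' Q).2 ⟨P, hU P hP, hQP⟩
  obtain ⟨C, hC⟩ := h
  refine ⟨C / q, ?_⟩
  filter_upwards [hC, eventually_summable F, eventually_summable L] with s hs h1 h2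
  rw [key s h1.1 h2.1] at hs
  have h3 : Asum S s + a / q * Real.log (s - 1) =
      (q * Asum S s + a * Real.log (s - 1)) / q := by
    field_simp
  rw [h3, abs_div, abs_of_pos hq']
  exact div_le_div_of_nonneg_right hs hq'.le

end Pool.Agent.Lib.MP_fed790_nt
end

section

/-! Job D8 -/

namespace Pool.Agent.Lib.MP_fed790_nt

open NumberField Filter Topology Ideal Pool.Agent.Lib.MP_176ace_nt

/-- (Job D8a) Modulo a prime ideal of prime norm every algebraic integer is congruent to a natural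
number.
Proof. `𝓞 L ⧸ Q` is a finite ring of prime cardinality `p = absNorm Q` (`Submodule.cardQuot_apply`,
`Ideal.absNorm_apply`, `Nat.card`), so the additive subgroup generated by `1` is everything
(`1 ≠ 0`, a group of prime order: `ZMod.ringEquivOfPrime` gives `ZMod p ≃+* 𝓞 L ⧸ Q`, or
`isAddCyclic_of_prime_card`), so the class of `y` is the class of a natural number. -/
theorem exists_nat_sub_mem {L : Type*} [Field L] [NumberField L] {Q : Ideal (𝓞 L)}
    (hQ : Q ∈ P1 L) (y : 𝓞 L) : ∃ a : ℕ, y - (a : 𝓞 L) ∈ Q := by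
  obtain ⟨hp, hn⟩ := hQ
  have hprime : Q.IsPrime := Ideal.isPrime_of_prime hp
  have : Fact (absNorm Q).Prime := ⟨hn⟩
  have hcard : Nat.card (𝓞 L ⧸ Q) = absNorm Q := by
    rw [Ideal.absNorm_apply, Submodule.cardQuot_apply]
  have h1 : (1 : 𝓞 L ⧸ Q) ≠ 0 := one_ne_zero
  have h2 : (Ideal.Quotient.mk Q y) ∈ AddSubmonoid.multiples (1 : 𝓞 L ⧸ Q) :=
    mem_multiples_of_prime_card hcard h1
  obtain ⟨a, ha⟩ := h2
  refine ⟨a, ?_⟩
  have ha' : a • (1 : 𝓞 L ⧸ Q) = Ideal.Quotient.mk Q y := ha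
  rw [← Ideal.Quotient.eq, ← ha', map_natCast, nsmul_eq_mul, mul_one]

/-- (Job D8b) A prime of prime norm lies over a prime of the same norm.
Proof. `P = Q.comap (algebraMap (𝓞 F) (𝓞 L))` is a prime ideal, nonzero as it contains the prime
number `p = absNorm Q` (`Ideal.absNorm_mem`) hmm, `P ≠ ⊥` since `(p : 𝓞 F) ∈ P`.  And
`absNorm Q = (absNorm P) ^ f` (`Ideal.absNorm_eq_pow_inertiaDeg'_of_liesOver Q P`) with
`absNorm P ≠ 1`, so `absNorm P = absNorm Q` as `absNorm Q` is a prime number. -/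
theorem comap_mem_P1 {F L : Type*} [Field F] [NumberField F] [Field L] [NumberField L]
    [Algebra F L] {Q : Ideal (𝓞 L)} (hQ : Q ∈ P1 L) :
    Q.comap (algebraMap (𝓞 F) (𝓞 L)) ∈ P1 F ∧
      absNorm (Q.comap (algebraMap (𝓞 F) (𝓞 L))) = absNorm Q := by
  obtain ⟨hp, hn⟩ := hQ
  have hprime : Q.IsPrime := Ideal.isPrime_of_prime hp
  set P : Ideal (𝓞 F) := Q.comap (algebraMap (𝓞 F) (𝓞 L)) with hP
  have hPprime : P.IsPrime := Ideal.comap_isPrime _ Q
  have hmem : ((absNorm Q : ℕ) : 𝓞 F) ∈ P := by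
    rw [hP, Ideal.mem_comap, map_natCast]
    exact Ideal.absNorm_mem Q
  have hPne : P ≠ ⊥ := by
    intro h
    rw [h, Ideal.mem_bot, Nat.cast_eq_zero] at hmem
    exact hn.ne_zero hmem
  have : Q.LiesOver P := ⟨rfl⟩
  have hpow := Ideal.absNorm_eq_pow_inertiaDeg'_of_liesOver Q P hPprime hPne
  have hP1 : absNorm P ≠ 1 := fun h => hPprime.ne_top (Ideal.absNorm_eq_one_iff.mp h)
  have heq : absNorm P = absNorm Q := by
    have hdvd : absNorm Q ∣ absNorm P := by
      rw [hpow] at hn ⊢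
      have h3 := hn.dvd_of_dvd_pow (dvd_refl _)
      exact h3
    have hdvd2 : absNorm P ∣ absNorm Q := by
      rw [hpow]
      refine dvd_pow_self _ ?_
      intro h0
      rw [h0, pow_zero] at hpow
      exact hn.ne_one hpow
    exact Nat.dvd_antisymm hdvd2 hdvd
  refine ⟨⟨Ideal.prime_of_isPrime hPne hPprime, ?_⟩, heq⟩
  rw [heq]; exact hn

end Pool.Agent.Lib.MP_fed790_nt
end

section

/-! Job D9 -/

namespace Pool.Agent.Lib.MP_fed790_nt

/-- (Job D9) If `x` is no `r`-th power in `F` it is no `r`-th power in an extension of degree `q`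
prime to `r`.
Proof. If `c ^ r = x` in `L`, take norms (`Algebra.norm F`, `Algebra.norm_algebraMap`):
`N(c) ^ r = x ^ q`.  `x ≠ 0` (`0 = 0 ^ r` would contradict `hx 0`, as `0 < r`).  With integers
`u, v`, `u q + v r = 1` (`Nat.gcd_eq_gcd_ab`): `x = x^{uq} x^{vr} = (N(c)^u x^v)^r` (zpow),
contradiction. -/
theorem not_pow_of_finrank {F L : Type*} [Field F] [Field L] [Algebra F L] {q r : ℕ}
    (hr : 0 < r) (hcop : Nat.Coprime q r) (hrank : Module.finrank F L = q) (x : F)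
    (hx : ∀ c : F, c ^ r ≠ x) (c : L) : c ^ r ≠ algebraMap F L x := by
  intro h
  have h1 := congrArg (Algebra.norm F) h
  rw [map_pow, Algebra.norm_algebraMap, hrank] at h1
  have hx0 : x ≠ 0 := by
    rintro rfl
    exact hx 0 (zero_pow hr.ne')
  have hb : (q : ℤ) * Nat.gcdA q r + (r : ℤ) * Nat.gcdB q r = 1 := by
    rw [← Nat.gcd_eq_gcd_ab, Nat.Coprime.gcd_eq_one hcop]
    rfl
  apply hx (Algebra.norm F c ^ (Nat.gcdA q r) * x ^ (Nat.gcdB q r))
  have e1 : (Algebra.norm F c ^ (Nat.gcdA q r)) ^ r = x ^ ((q : ℤ) * Nat.gcdA q r) := by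
    rw [zpow_mul, zpow_natCast, ← h1, ← zpow_natCast, ← zpow_natCast, ← zpow_mul, ← zpow_mul,
      mul_comm]
  have e2 : (x ^ (Nat.gcdB q r)) ^ r = x ^ ((r : ℤ) * Nat.gcdB q r) := by
    rw [← zpow_natCast, ← zpow_mul, mul_comm]
  rw [mul_pow, e1, e2, ← zpow_add₀ hx0, hb, zpow_one]

end Pool.Agent.Lib.MP_fed790_nt
end

section

/-! Job K5b -/

namespace Pool.Agent.Lib.MP_fed790_nt

/-- (Job K5b) The computation in the residue field.  `κ` is a finite field containing a primitive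
`k`-th root of unity, `x^e = 2`, `x` is not a `q`-th power for the primes `q ∣ k/e`, `2 ≠ 0`,
`y^k = n 2^{(k-1) b}` and `n = a^k`, `n ≠ 0`.  Then `k/e ∣ b`.
Proof. `k ∣ card κˣ`: the primitive root of unity has order `k` in `κˣ`
(`IsPrimitiveRoot.eq_orderOf`/`orderOf_dvd_natCard`).  `κˣ` is cyclic.  `x ≠ 0` as `x^e = 2 ≠ 0` and
`y ≠ 0`, `a ≠ 0`.  From
`y^k = a^k 2^{(k-1) b}`, multiplying by `2^b`: `y^k 2^b = a^k 2^{k b}`, so
`x^{e b} = 2^b = (a 2^b / y)^k`.  Apply `dvd_of_pow_eq` in `κˣ` (`Units.mk0`). -/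
theorem dvd_of_residue {κ : Type*} [Field κ] [Finite κ] {k e : ℕ} (hk : 2 ≤ k)
    (he : e = 1 ∧ Odd k ∨ e = 2 ∧ Even k) {ζ x : κ} (hζ : IsPrimitiveRoot ζ k) (hx : x ^ e = 2)
    (h2 : (2 : κ) ≠ 0) (hxq : ∀ q : ℕ, q.Prime → q ∣ k / e → ∀ t : κ, t ^ q ≠ x) (b : ℕ)
    (y a n : κ) (hy : y ^ k = n * 2 ^ ((k - 1) * b)) (ha : a ^ k = n) (hn : n ≠ 0) :
    k / e ∣ b := by
  have hk0 : k ≠ 0 := by omega
  have he0 : e ≠ 0 := by
    rcases he with ⟨h, -⟩ | ⟨h, -⟩ <;> omega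
  have hek : e ∣ k := by
    rcases he with ⟨h, -⟩ | ⟨h, h'⟩
    · rw [h]
      exact one_dvd k
    · rw [h]
      exact h'.two_dvd
  have hζ0 : ζ ≠ 0 := hζ.ne_zero hk0
  have hζ' : IsPrimitiveRoot (Units.mk0 ζ hζ0) k := by
    rw [← IsPrimitiveRoot.coe_units_iff]
    exact hζ
  have hkC : k ∣ Nat.card κˣ := by
    have h1 := orderOf_dvd_natCard (Units.mk0 ζ hζ0)
    rwa [← hζ'.eq_orderOf] at h1
  have hx0 : x ≠ 0 := by
    rintro rfl
    rw [zero_pow he0] at hx
    exact h2 hx.symm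
  have hy0 : y ≠ 0 := by
    rintro rfl
    rw [zero_pow hk0] at hy
    exact mul_ne_zero hn (pow_ne_zero _ h2) hy.symm
  have ha0 : a ≠ 0 := by
    rintro rfl
    rw [zero_pow hk0] at ha
    exact hn ha.symm
  have hz0 : a * 2 ^ b / y ≠ 0 := div_ne_zero (mul_ne_zero ha0 (pow_ne_zero _ h2)) hy0
  have hzk : (a * 2 ^ b / y) ^ k = 2 ^ b := by
    rw [div_pow, mul_pow, ha, hy, ← pow_mul]
    have h3 : b * k = (k - 1) * b + b := by
      obtain ⟨m, rfl⟩ : ∃ m, k = m + 1 := ⟨k - 1, by omega⟩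
      rw [Nat.add_sub_cancel]
      ring
    rw [h3, pow_add]
    have h4 : (2 : κ) ^ ((k - 1) * b) ≠ 0 := pow_ne_zero _ h2
    field_simp
  refine dvd_of_pow_eq (C := κˣ) (by omega) hek hkC (Units.mk0 x hx0) ?_ b
    (Units.mk0 (a * 2 ^ b / y) hz0) ?_
  · intro q hq hqk t ht
    apply hxq q hq hqk (t : κ)
    have h5 := congrArg (fun w : κˣ => (w : κ)) ht
    simpa using h5
  · apply Units.ext
    rw [Units.val_pow_eq_pow_val, Units.val_pow_eq_pow_val, Units.val_mk0, Units.val_mk0, hzk,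
      pow_mul, hx]

end Pool.Agent.Lib.MP_fed790_nt
end

section

/-! Job D3b -/

namespace Pool.Agent.Lib.MP_fed790_nt

open NumberField Filter Topology Ideal Pool.Agent.Lib.MP_176ace_nt

private theorem one_sub_ge {x : ℝ} (h0 : 0 ≤ x) (h : x ≤ 1 / 2) :
    Real.exp (-(x + x ^ 2)) ≤ 1 - x := by
  rw [Real.exp_neg, inv_le_comm₀ (Real.exp_pos _) (by linarith)]
  have h1 : (1 - x)⁻¹ ≤ 1 + (x + x ^ 2) + (x + x ^ 2) ^ 2 / 2 := by
    rw [inv_le_iff_one_le_mul₀ (by linarith)]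
    nlinarith [mul_nonneg (mul_nonneg h0 h0) (sq_nonneg (1 - x)), pow_nonneg h0 3, pow_nonneg h0 4,
      mul_nonneg (pow_nonneg h0 2) (sub_nonneg.2 h), mul_nonneg (pow_nonneg h0 3) (sub_nonneg.2 h),
      mul_nonneg (pow_nonneg h0 4) (sub_nonneg.2 h)]
  have h2 := Real.quadratic_le_exp_of_nonneg (x := x + x ^ 2) (by positivity)
  linarith

/-- (Job D3b) `log ζ_K(s) ≤ ∑_{P ∈ P1} N(P)^(-s) + C`.
Proof. Let `c = finrank * ∑' 1/k^2` and `C = log 2 + 2 c`.  By `exists_sieved_le_two` there is a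
finite set `S` of primes with `(∏ P ∈ S, (1 - x_P)) * Z ≤ 2` (`sieved_eq`), `x_P = idTerm K s P`,
`0 ≤ x_P ≤ 1/2`.  So `log Z ≤ log 2 + ∑_{P ∈ S} - log (1 - x_P)` and
`- log (1 - x) ≤ x + x^2` for `0 ≤ x ≤ 1/2` (e.g. from
`1/(1-x) ≤ 1 + x + x^2 + ... `; one proof: `-log(1-x) = log(1 + x/(1-x))`; or use
`Real.abs_log_sub_add_sum_range_le`; or show `exp(-(x+x^2)) ≤ 1 - x` via
`Real.exp_bound'`/convexity).  Split `∑_{P∈S} x_P` into
the `P` of prime norm (at most `Asum (P1 K) s` by `sum_le_Asum`) and the others (at most `c` by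
`sum_inv_bad_le` and `idTerm_le_inv`), and `∑ x_P^2 ≤ ∑ ((absNorm P)^2)⁻¹ ≤ c`
(`idTerm_le_inv`, `sum_inv_sq_le`).  `Z > 0` since `Z ≥ 1`
(`one_le_sieved` and `sieved_eq` for `S = ∅`). -/
theorem log_zeta_le (K : Type*) [Field K] [NumberField K] :
    ∃ C : ℝ, ∀ s : ℝ, 1 < s → Summable (idTerm K s) →
      Real.log (∑' I, idTerm K s I) ≤ Asum (P1 K) s + C := by
  classical
  set c : ℝ := Module.finrank ℤ (𝓞 K) * ∑' k : ℕ, 1 / (k : ℝ) ^ 2 with hc
  refine ⟨Real.log 2 + 2 * c, fun s hs hsum => ?_⟩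
  have hs0 : s ≠ 0 := by linarith
  obtain ⟨S, hS, hle⟩ := exists_sieved_le_two hsum
  set Z := ∑' I, idTerm K s I with hZ
  have hZ1 : 1 ≤ Z := by
    have h1 := one_le_sieved hsum ∅ (by simp)
    rwa [sieved_empty hs0] at h1
  rw [sieved_eq hs0 hsum S hS] at hle
  have hprod : Real.exp (-(∑ P ∈ S, (idTerm K s P + idTerm K s P ^ 2))) ≤
      ∏ P ∈ S, (1 - idTerm K s P) := by
    rw [← Finset.sum_neg_distrib, Real.exp_sum]
    refine Finset.prod_le_prod (fun _ _ => (Real.exp_pos _).le) fun P hP => ?_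
    exact one_sub_ge (idTerm_nonneg _ _) (idTerm_le_half hs.le (hS P hP))
  have h2 : Real.exp (-(∑ P ∈ S, (idTerm K s P + idTerm K s P ^ 2))) * Z ≤ 2 :=
    (mul_le_mul_of_nonneg_right hprod (by linarith)).trans hle
  have hZ0 : 0 < Z := by linarith
  have h3 : Real.log Z ≤ Real.log 2 + ∑ P ∈ S, (idTerm K s P + idTerm K s P ^ 2) := by
    have h4 := Real.log_le_log (by positivity) h2
    rw [Real.log_mul (Real.exp_pos _).ne' hZ0.ne', Real.log_exp] at h4
    linarith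
  have h5 : ∑ P ∈ S, idTerm K s P ^ 2 ≤ c := by
    refine le_trans (Finset.sum_le_sum fun P hP => ?_) (sum_inv_sq_le S hS)
    have h6 := idTerm_le_inv hs.le (hS P hP)
    have h7 := idTerm_nonneg (K := K) s P
    calc idTerm K s P ^ 2 ≤ ((absNorm P : ℝ)⁻¹) ^ 2 := pow_le_pow_left₀ h7 h6 2
      _ = ((absNorm P : ℝ) ^ 2)⁻¹ := by rw [inv_pow]
  have h8 : ∑ P ∈ S, idTerm K s P ≤ Asum (P1 K) s + c := by
    rw [← Finset.sum_filter_add_sum_filter_not S (fun P => (absNorm P).Prime)]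
    refine add_le_add ?_ ?_
    · refine sum_le_Asum hsum _ fun P hP => ?_
      obtain ⟨h9, h10⟩ := Finset.mem_filter.1 hP
      exact ⟨hS P h9, h10⟩
    · refine le_trans (Finset.sum_le_sum fun P hP => ?_)
        (sum_inv_bad_le (S.filter fun P => ¬ (absNorm P).Prime)
          (fun P hP => hS P (Finset.mem_filter.1 hP).1) (fun P hP => (Finset.mem_filter.1 hP).2))
      exact idTerm_le_inv hs.le (hS P (Finset.mem_filter.1 hP).1)
  rw [Finset.sum_add_distrib] at h3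
  linarith

end Pool.Agent.Lib.MP_fed790_nt
end

section

/-! K1 -/

namespace Pool.Agent.Lib.MP_fed790_nt

/-- independence of the primes modulo `k`-th powers in the cyclotomic field, up to a factor `2` -/
theorem two_mul_dvd (k : ℕ) [NeZero k] (F : Type*) [Field F] [Algebra ℚ F]
    [IsCyclotomicExtension {k} ℚ F] (Ps : Finset ℕ) (hPs : ∀ p ∈ Ps, p.Prime) (c : ℕ → ℕ)
    (γ : F) (hγ : γ ^ k = ((∏ p ∈ Ps, p ^ c p : ℕ) : F)) : ∀ p ∈ Ps, k ∣ 2 * c p := by
  have hk : 0 < k := Nat.pos_of_ne_zero (NeZero.ne k)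
  obtain ⟨h1, h1', h2, τ₀, h3⟩ := cyclotomic_facts k F
  have hprod : (∏ p ∈ Ps, p ^ c p : ℕ) ≠ 0 :=
    Finset.prod_ne_zero_iff.mpr fun p hp => pow_ne_zero _ (hPs p hp).ne_zero
  have hchar : CharZero F := charZero_of_injective_algebraMap (algebraMap ℚ F).injective
  have hγ0 : γ ≠ 0 := by
    rintro rfl
    rw [zero_pow hk.ne'] at hγ
    exact hprod (by exact_mod_cast hγ.symm)
  obtain ⟨r, hr⟩ := exists_rat_pow (F := F) h2 hk τ₀ h3 hγ0
    (b := ((∏ p ∈ Ps, p ^ c p : ℕ) : ℚ)) (by rw [hγ]; simp)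
  exact dvd_of_rat_pow hk Ps hPs c r hr

end Pool.Agent.Lib.MP_fed790_nt
end

section

/-! Job K2b -/

namespace Pool.Agent.Lib.MP_fed790_nt

/-- roots of unity of the base field are fixed -/
private theorem fixed_root {k : ℕ} [NeZero k] {F : Type*} [Field F] {E : Type*} [Field E]
    [Algebra F E] {ζ : F} (hζ : IsPrimitiveRoot ζ k) (σ : E ≃ₐ[F] E) {x : E} (hx : x ^ k = 1) :
    σ x = x := by
  have hζ' : IsPrimitiveRoot (algebraMap F E ζ) k :=
    hζ.map_of_injective (algebraMap F E).injective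
  obtain ⟨i, -, hi⟩ := hζ'.eq_pow_of_pow_eq_one hx
  rw [← hi, map_pow, AlgEquiv.commutes]

private theorem ratio_pow {k : ℕ} [NeZero k] {F : Type*} [Field F] {E : Type*} [Field E]
    [Algebra F E] (σ : E ≃ₐ[F] E) {p : ℕ} {x : E} (hx : x ^ k = (p : E)) (hx0 : x ≠ 0) :
    (σ x / x) ^ k = 1 := by
  rw [div_pow, ← map_pow, hx, map_natCast, div_self]
  rw [← hx]
  exact pow_ne_zero _ hx0

/-- (Job K2b) There is an automorphism with prescribed action on the `k`-th roots of the primes.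
Here `e = 1` if `k` is odd and `e = 2` if `k` is even.
Proof. Let `ζ' = algebraMap F E ζ`, `F` the cyclotomic field.  For `σ ∈ Gal(E/F)` and `p ∈ Ps`,
`(σ (θ p) / θ p)^k = 1` (`θ p ≠ 0`, `σ (p : E) = p`), and `σ` fixes all `k`-th roots of unity (they are
the powers of `ζ'`).  So `ψ : σ ↦ (p ↦ σ (θ p) / θ p)` is a group homomorphism from `E ≃ₐ[F] E` to
`Ps → rootsOfUnity k E`.  Let `H` be its range and `g p = ζ'^(e * β p)`.  Apply `mem_of_duality`:
let `c` kill `H`; then `γ = ∏ p ∈ Ps, θ p ^ c p` is fixed by all `σ`, so `γ = algebraMap F E γ'`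
(`IsGalois.mem_range_algebraMap_iff_fixed`), `γ'^k = ∏ p^{c p}` (injectivity of `algebraMap F E`), so
`k ∣ 2 * c p` for all `p ∈ Ps` by `two_mul_dvd`, hence `k ∣ e * c p` and `g p ^ c p = 1`. -/
theorem exists_sigma (k e : ℕ) [NeZero k] (he : e = 1 ∧ Odd k ∨ e = 2 ∧ Even k)
    {F : Type*} [Field F] [Algebra ℚ F] [IsCyclotomicExtension {k} ℚ F]
    {E : Type*} [Field E] [Algebra F E] [FiniteDimensional F E] [IsGalois F E]
    (ζ : F) (hζ : IsPrimitiveRoot ζ k) (Ps : Finset ℕ) (hPs : ∀ p ∈ Ps, p.Prime)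
    (θ : ℕ → E) (hθ : ∀ p ∈ Ps, θ p ^ k = (p : E)) (β : ℕ → ℕ) :
    ∃ σ : E ≃ₐ[F] E, ∀ p ∈ Ps, σ (θ p) = algebraMap F E (ζ ^ (e * β p)) * θ p := by
  classical
  have hk : 0 < k := Nat.pos_of_ne_zero (NeZero.ne k)
  have hF0 : CharZero F := charZero_of_injective_algebraMap (algebraMap ℚ F).injective
  have hE0 : CharZero E := charZero_of_injective_algebraMap (algebraMap F E).injective
  have hζ' : IsPrimitiveRoot (algebraMap F E ζ) k :=
    hζ.map_of_injective (algebraMap F E).injective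
  have hθ0 : ∀ p : Ps, θ p ≠ 0 := by
    intro p h0
    have h1 := hθ p p.2
    rw [h0, zero_pow hk.ne'] at h1
    exact (hPs p p.2).ne_zero (by exact_mod_cast h1.symm)
  let ψ : (E ≃ₐ[F] E) →* (Ps → rootsOfUnity k E) :=
    { toFun := fun σ p => rootsOfUnity.mkOfPowEq (σ (θ p) / θ p) (ratio_pow σ (hθ p p.2) (hθ0 p))
      map_one' := by
        funext p
        apply Subtype.ext
        apply Units.ext
        rw [rootsOfUnity.val_mkOfPowEq_coe]
        simp [hθ0 p]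
      map_mul' := by
        intro σ τ
        funext p
        apply Subtype.ext
        apply Units.ext
        rw [Pi.mul_apply, Subgroup.coe_mul, Units.val_mul, rootsOfUnity.val_mkOfPowEq_coe,
          rootsOfUnity.val_mkOfPowEq_coe, rootsOfUnity.val_mkOfPowEq_coe]
        have h1 : σ (τ (θ p) / θ p) = τ (θ p) / θ p :=
          fixed_root hζ σ (ratio_pow τ (hθ p p.2) (hθ0 p))
        rw [map_div₀] at h1
        have h2 : σ (θ p) ≠ 0 := by
          rw [Ne, map_eq_zero]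
          exact hθ0 p
        have h3 : σ (τ (θ p)) = τ (θ p) / θ p * σ (θ p) := by
          rw [← h1, div_mul_cancel₀ _ h2]
        rw [AlgEquiv.mul_apply, h3]
        ring }
  have hψ : ∀ (σ : E ≃ₐ[F] E) (p : Ps), (((ψ σ p : rootsOfUnity k E) : Eˣ) : E) = σ (θ p) / θ p := by
    intro σ p
    exact rootsOfUnity.val_mkOfPowEq_coe _ _
  let g : Ps → rootsOfUnity k E := fun p => hζ'.toRootsOfUnity ^ (e * β p)
  have hg : ∀ p : Ps, (((g p : rootsOfUnity k E) : Eˣ) : E) = algebraMap F E ζ ^ (e * β p) := by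
    intro p
    simp [g]
  have hmem : g ∈ ψ.range := by
    refine mem_of_duality hζ' ψ.range g ?_
    intro c hc
    have hdvd : ∀ p : Ps, k ∣ 2 * c p := by
      set c' : ℕ → ℕ := fun p => if hp : p ∈ Ps then c ⟨p, hp⟩ else 0 with hc'
      have hc'p : ∀ p : Ps, c' p = c p := by
        intro p
        rw [hc']
        simp only [p.2, dif_pos]
      set γ : E := ∏ p : Ps, θ p ^ c p with hγ
      have hfix : ∀ σ : E ≃ₐ[F] E, σ γ = γ := by
        intro σ
        have h1 : ∏ p : Ps, ψ σ p ^ c p = 1 := hc _ ⟨σ, rfl⟩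
        have h2 : ∏ p : Ps, (σ (θ p) / θ p) ^ c p = 1 := by
          have h3 := congrArg (fun u : rootsOfUnity k E => ((u : Eˣ) : E)) h1
          simp only [Subgroup.val_finsetProd, Units.coe_prod, SubmonoidClass.coe_pow,
            Units.val_pow_eq_pow_val, OneMemClass.coe_one, Units.val_one, hψ] at h3
          exact h3
        calc σ γ = ∏ p : Ps, (σ (θ p)) ^ c p := by
              rw [hγ, map_prod]
              simp only [map_pow]
          _ = ∏ p : Ps, ((σ (θ p) / θ p) ^ c p * θ p ^ c p) := by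
              refine Finset.prod_congr rfl fun p _ => ?_
              rw [← mul_pow, div_mul_cancel₀ _ (hθ0 p)]
          _ = γ := by
              rw [Finset.prod_mul_distrib, h2, one_mul]
      obtain ⟨γ', hγ'⟩ := (IsGalois.mem_range_algebraMap_iff_fixed γ).2 hfix
      have hpow : γ' ^ k = ((∏ p ∈ Ps, p ^ c' p : ℕ) : F) := by
        apply (algebraMap F E).injective
        have h7 : (∏ p ∈ Ps, p ^ c' p : ℕ) = ∏ p : Ps, (p : ℕ) ^ c' p :=
          (Finset.prod_coe_sort Ps fun p => p ^ c' p).symm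
        rw [map_pow, hγ', map_natCast, hγ, ← Finset.prod_pow, h7, Nat.cast_prod]
        refine Finset.prod_congr rfl fun p _ => ?_
        rw [hc'p, Nat.cast_pow, ← hθ p p.2]
        ring
      intro p
      have := two_mul_dvd k F Ps hPs c' γ' hpow p p.2
      rwa [hc'p] at this
    refine Finset.prod_eq_one fun p _ => ?_
    apply Subtype.ext
    apply Units.ext
    have h5 : k ∣ e * c p := by
      rcases he with ⟨he1, hodd⟩ | ⟨he2, -⟩
      · rw [he1, one_mul]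
        exact (Nat.Coprime.symm (Nat.coprime_two_left.2 hodd)).dvd_of_dvd_mul_left (hdvd p)
      · rw [he2]
        exact hdvd p
    obtain ⟨r, hr⟩ := h5
    have h6 : (algebraMap F E ζ ^ (e * β p)) ^ c p = 1 := by
      rw [← pow_mul, show e * β p * c p = (e * c p) * β p by ring, hr, mul_assoc, pow_mul,
        hζ'.pow_eq_one, one_pow]
    rw [SubmonoidClass.coe_pow, Units.val_pow_eq_pow_val, hg, h6]
    simp
  obtain ⟨σ, hσ⟩ := hmem
  refine ⟨σ, fun p hp => ?_⟩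
  have h1 := hψ σ ⟨p, hp⟩
  rw [hσ, hg] at h1
  have h2 : θ p ≠ 0 := hθ0 ⟨p, hp⟩
  rw [map_pow, h1]
  field_simp

end Pool.Agent.Lib.MP_fed790_nt
end

section

/-! Job D10 -/

namespace Pool.Agent.Lib.MP_fed790_nt

open NumberField Filter Topology Ideal Pool.Agent.Lib.MP_176ace_nt

/-- (Job D10) The inductive step.
Proof. Follow the proof of `exists_prime_not_pow` in `Pool/Agent/Lib/MP_176ace_nt/Zeta.lean`.  Take
`L, δ, φ` from `exists_kummer hq hζ hx` and `x0 = x * ∏_{i<q} ∏_{j<q, j≠i} (ζ^i - ζ^j) ≠ 0`, and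
let `xL = algebraMap (𝓞 F) (𝓞 L) x`.  Let
`S = {P | P ∈ Good x R ∧ (∃ t, t ^ q - x ∈ P) ∧ x0 ∉ P}`,
`S' = {Q | Q ∈ Good xL R ∧ algebraMap x0 ∉ Q}`, `T P = IsDedekindDomain.primesOverFinset P (𝓞 L)`.
`HasDens (Good xL R) a` is `hind L xL`: the roots of unity are mapped from `F`, and
`not_pow_of_finrank` shows that `xL` is no `r`-th power in `L` for `r ∈ R` (`r ≠ q` are different
primes, `Module.finrank F L = q`).  `HasDens S' a` by `HasDens.congr_finite` and
`finite_primes_mem (algebraMap x0)`.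
`HasDens.of_lift` applies to `S, S', T`:
* `hT`: `kummer_split` (`x0 ∉ P` gives `x ∉ P` and `ζ^i - ζ^j ∉ P`), as in `exists_prime_not_pow`;
* `hdisj`: as in `exists_prime_not_pow`;
* `hS'`, `→`: for `Q ∈ S'` let `P = Q.comap (algebraMap (𝓞 F) (𝓞 L))`, `P ∈ P1 F` by
  `comap_mem_P1`; `P ∈ Good x R` since `t ^ r - x ∈ P` gives `(algebraMap t)^r - xL ∈ Q`;
  by `exists_nat_sub_mem`, `δ - a ∈ Q` for some natural `a`, so `a ^ q - x ∈ P`
  (`δ ^ q = xL`, `a^q - δ^q ∈ Q`); `x0 ∉ P`.  `Q ∈ T P` by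
  `IsDedekindDomain.mem_primesOverFinset_iff`.
* `hS'`, `←`: for `P ∈ S`, `Q ∈ T P`: `Q` is prime with `absNorm Q = absNorm P` by `kummer_split`, and
  `Q ∈ Good xL R`: if `y ^ r - xL ∈ Q`, then `y - a ∈ Q` for a natural `a`
  (`exists_nat_sub_mem`), so `a ^ r - x ∈ P`, contradiction.
So `HasDens S (a / q)`, and by `HasDens.congr_finite` (primes containing `x0` are finitely many)
`HasDens {P | P ∈ Good x R ∧ ∃ t, t ^ q - x ∈ P} (a / q)`.  Finally
`Good x (insert q R) = Good x R \ {P | P ∈ Good x R ∧ ∃ t, t ^ q - x ∈ P}` and `HasDens.sdiff`. -/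
theorem hasDens_Good_insert {F : Type} [Field F] [NumberField F] {q : ℕ} (hq : q.Prime)
    {R : Finset ℕ} (hR : ∀ r ∈ R, r.Prime) (hqR : q ∉ R) {ζ : 𝓞 F} (hζ : IsPrimitiveRoot ζ q)
    (x : 𝓞 F) (hx : ∀ c : F, c ^ q ≠ (x : F)) (hxR : ∀ r ∈ R, ∀ c : F, c ^ r ≠ (x : F))
    (hζR : ∀ r ∈ R, ∃ ξ : 𝓞 F, IsPrimitiveRoot ξ r) (a : ℝ)
    (hind : ∀ (L : Type) [Field L] [NumberField L] (y : 𝓞 L),
      (∀ r ∈ R, ∃ ξ : 𝓞 L, IsPrimitiveRoot ξ r) → (∀ r ∈ R, ∀ c : L, c ^ r ≠ (y : L)) →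
      HasDens (Good y R) a) :
    HasDens (Good x (insert q R)) (a * (1 - 1 / q)) := by
  classical
  obtain ⟨L, iL, iN, iA, δ, φ, hrank, hδ, hφF, hφδ⟩ := exists_kummer hq hζ hx
  set xL : 𝓞 L := algebraMap (𝓞 F) (𝓞 L) x with hxL
  have hx0' : x ≠ 0 := by
    intro h
    exact hx 0 (by rw [h]; simp [hq.ne_zero])
  set x0 : 𝓞 F := x * ∏ i ∈ Finset.range q, ∏ j ∈ (Finset.range q).erase i, (ζ ^ i - ζ ^ j) with hx0
  have hx0ne : x0 ≠ 0 := by
    refine mul_ne_zero hx0' (Finset.prod_ne_zero_iff.mpr fun i hi => Finset.prod_ne_zero_iff.mpr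
      fun j hj => ?_)
    intro h
    have h2 := hζ.pow_inj (Finset.mem_range.mp hi)
      (Finset.mem_range.mp (Finset.mem_of_mem_erase hj)) (sub_eq_zero.mp h)
    exact Finset.ne_of_mem_erase hj h2.symm
  have hinj : Function.Injective (algebraMap (𝓞 F) (𝓞 L)) :=
    FaithfulSMul.algebraMap_injective (𝓞 F) (𝓞 L)
  have hx0L : algebraMap (𝓞 F) (𝓞 L) x0 ≠ 0 := by
    intro h
    exact hx0ne (hinj (by rw [h, map_zero]))
  -- the density in `L`
  have hdL : HasDens (Good xL R) a := by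
    refine hind L xL (fun r hr => ?_) (fun r hr c => ?_)
    · obtain ⟨ξ, hξ⟩ := hζR r hr
      exact ⟨algebraMap (𝓞 F) (𝓞 L) ξ, hξ.map_of_injective hinj⟩
    · have hne : q ≠ r := fun h => hqR (h ▸ hr)
      have h1 := not_pow_of_finrank (hR r hr).pos ((Nat.coprime_primes hq (hR r hr)).2 hne) hrank
        (x : F) (hxR r hr) c
      exact h1
  set S : Set (Ideal (𝓞 F)) := {P | P ∈ Good x R ∧ (∃ t : 𝓞 F, t ^ q - x ∈ P) ∧ x0 ∉ P} with hS
  set S' : Set (Ideal (𝓞 L)) := {Q | Q ∈ Good xL R ∧ algebraMap (𝓞 F) (𝓞 L) x0 ∉ Q} with hS'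
  have hdS' : HasDens S' a := by
    refine HasDens.congr_finite ?_ ?_ hdL
    · refine (finite_primes_mem (algebraMap (𝓞 F) (𝓞 L) x0) hx0L).subset ?_
      rintro Q ⟨hQ1, hQ2⟩
      refine ⟨hQ1.1.1, ?_⟩
      by_contra h
      exact hQ2 ⟨hQ1, h⟩
    · have : S' \ Good xL R = ∅ := by
        ext Q
        simp only [Set.mem_sdiff, Set.mem_empty_iff_false, iff_false, not_and, not_not]
        intro h
        exact h.1
      rw [this]
      exact Set.finite_empty
  have hkum : ∀ P ∈ S, (IsDedekindDomain.primesOverFinset P (𝓞 L)).card = q ∧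
      ∀ Q ∈ IsDedekindDomain.primesOverFinset P (𝓞 L), Prime Q ∧ absNorm Q = absNorm P := by
    rintro P ⟨hP1, ⟨t, ht⟩, hx0P⟩
    have hγP : x ∉ P := fun h => hx0P (P.mul_mem_right _ h)
    have hζP : ∀ i < q, ∀ j < q, i ≠ j → ζ ^ i - ζ ^ j ∉ P := by
      intro i hi j hj hij h
      apply hx0P
      refine P.mul_mem_left _ ?_
      refine P.mem_of_dvd ((Finset.dvd_prod_of_mem _ (Finset.mem_erase.mpr
        ⟨hij.symm, Finset.mem_range.mpr hj⟩)).trans (Finset.dvd_prod_of_mem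
        (fun i => ∏ j ∈ (Finset.range q).erase i, (ζ ^ i - ζ ^ j)) (Finset.mem_range.mpr hi))) h
    exact kummer_split hq hrank hδ hζ φ hφF hφδ hP1.1.1 ht hγP hζP
  have hover : ∀ P ∈ S, ∀ Q ∈ IsDedekindDomain.primesOverFinset P (𝓞 L),
      ∀ z : 𝓞 F, algebraMap (𝓞 F) (𝓞 L) z ∈ Q ↔ z ∈ P := by
    intro P hP Q hQ z
    have hPm : P.IsMaximal :=
      ((Ideal.prime_iff_isPrime hP.1.1.1.ne_zero).mp hP.1.1.1).isMaximal hP.1.1.1.ne_zero
    rw [IsDedekindDomain.mem_primesOverFinset_iff hP.1.1.1.ne_zero] at hQ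
    rw [hQ.2.over, Ideal.under_def, Ideal.mem_comap]
  have hdS : HasDens S (a / q) := by
    refine HasDens.of_lift hq.pos S S' (fun P => IsDedekindDomain.primesOverFinset P (𝓞 L))
      (fun P hP => ⟨(hkum P hP).1, fun Q hQ => ((hkum P hP).2 Q hQ).2⟩) ?_ ?_ a hdS'
    · intro P hP P' hP' hne
      rw [Finset.disjoint_left]
      intro Q hQ hQ'
      have hPm : P.IsMaximal :=
        ((Ideal.prime_iff_isPrime hP.1.1.1.ne_zero).mp hP.1.1.1).isMaximal hP.1.1.1.ne_zero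
      have hPm' : P'.IsMaximal :=
        ((Ideal.prime_iff_isPrime hP'.1.1.1.ne_zero).mp hP'.1.1.1).isMaximal hP'.1.1.1.ne_zero
      rw [IsDedekindDomain.mem_primesOverFinset_iff hP.1.1.1.ne_zero] at hQ
      rw [IsDedekindDomain.mem_primesOverFinset_iff hP'.1.1.1.ne_zero] at hQ'
      exact hne (hQ.2.over.trans hQ'.2.over.symm)
    · intro Q
      constructor
      · rintro ⟨hQ1, hQ2⟩
        obtain ⟨hP1, hPn⟩ := comap_mem_P1 (F := F) hQ1.1
        refine ⟨Q.comap (algebraMap (𝓞 F) (𝓞 L)), ⟨⟨hP1, ?_⟩, ?_, ?_⟩, ?_⟩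
        · intro r hr t ht
          rw [Ideal.mem_comap, map_sub, map_pow] at ht
          exact hQ1.2 r hr _ ht
        · obtain ⟨b, hb⟩ := exists_nat_sub_mem hQ1.1 δ
          refine ⟨(b : 𝓞 F), ?_⟩
          rw [Ideal.mem_comap, map_sub, map_pow, map_natCast, ← hxL, ← hδ]
          have h1 : δ - (b : 𝓞 L) ∣ δ ^ q - (b : 𝓞 L) ^ q := sub_dvd_pow_sub_pow _ _ _
          have h2 := Q.mem_of_dvd h1 hb
          have h3 := Q.neg_mem h2
          rwa [neg_sub] at h3
        · rw [Ideal.mem_comap]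
          exact hQ2
        · have hPm : (Q.comap (algebraMap (𝓞 F) (𝓞 L))).IsMaximal :=
            ((Ideal.prime_iff_isPrime hP1.1.ne_zero).mp hP1.1).isMaximal hP1.1.ne_zero
          rw [IsDedekindDomain.mem_primesOverFinset_iff hP1.1.ne_zero]
          exact ⟨(Ideal.prime_iff_isPrime hQ1.1.1.ne_zero).mp hQ1.1.1, ⟨rfl⟩⟩
      · rintro ⟨P, hP, hQ⟩
        obtain ⟨hQp, hQn⟩ := (hkum P hP).2 Q hQ
        have hov := hover P hP Q hQ
        have hQ1 : Q ∈ P1 L := ⟨hQp, by rw [hQn]; exact hP.1.1.2⟩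
        refine ⟨⟨hQ1, ?_⟩, ?_⟩
        · intro r hr y hy
          obtain ⟨b, hb⟩ := exists_nat_sub_mem hQ1 y
          refine hP.1.2 r hr (b : 𝓞 F) ?_
          rw [← hov, map_sub, map_pow, map_natCast, ← hxL]
          have h1 : y - (b : 𝓞 L) ∣ y ^ r - (b : 𝓞 L) ^ r := sub_dvd_pow_sub_pow _ _ _
          have h2 := Q.mem_of_dvd h1 hb
          have h3 := Q.sub_mem hy h2
          have h4 : y ^ r - xL - (y ^ r - (b : 𝓞 L) ^ r) = (b : 𝓞 L) ^ r - xL := by ring
          rwa [h4] at h3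
        · rw [hov]
          exact hP.2.2
  -- removing the finitely many primes containing `x0`
  set S2 : Set (Ideal (𝓞 F)) := {P | P ∈ Good x R ∧ ∃ t : 𝓞 F, t ^ q - x ∈ P} with hS2
  have hdS2 : HasDens S2 (a / q) := by
    refine HasDens.congr_finite ?_ ?_ hdS
    · have : S \ S2 = ∅ := by
        ext P
        simp only [Set.mem_sdiff, Set.mem_empty_iff_false, iff_false, not_and, not_not]
        intro h
        exact ⟨h.1, h.2.1⟩
      rw [this]
      exact Set.finite_empty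
    · refine (finite_primes_mem x0 hx0ne).subset ?_
      rintro P ⟨hP1, hP2⟩
      refine ⟨hP1.1.1.1, ?_⟩
      by_contra h
      exact hP2 ⟨hP1.1, hP1.2, h⟩
  have hdF : HasDens (Good x R) a := hind F x hζR hxR
  have hfin := HasDens.sdiff (S := S2) (T := Good x R) (fun P hP => hP.1) hdS2 hdF
  have heq : Good x R \ S2 = Good x (insert q R) := by
    ext P
    constructor
    · rintro ⟨h1, h2⟩
      refine ⟨h1.1, fun r hr t ht => ?_⟩
      rcases Finset.mem_insert.1 hr with h3 | h3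
      · subst h3
        exact h2 ⟨h1, t, ht⟩
      · exact h1.2 r h3 t ht
    · rintro ⟨h1, h2⟩
      refine ⟨⟨h1, fun r hr => h2 r (Finset.mem_insert_of_mem hr)⟩, ?_⟩
      rintro ⟨_, t, ht⟩
      exact h2 q (Finset.mem_insert_self _ _) t ht
  rw [heq] at hfin
  have e : a * (1 - 1 / (q : ℝ)) = a - a / q := by ring
  rw [e]
  exact hfin

end Pool.Agent.Lib.MP_fed790_nt
end

section

/-! D4 -/

namespace Pool.Agent.Lib.MP_fed790_nt

open NumberField Filter Topology Ideal Pool.Agent.Lib.MP_176ace_nt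

/-- the primes of prime norm have density `1` -/
theorem hasDens_P1 (K : Type*) [Field K] [NumberField K] : HasDens (P1 K) 1 := by
  obtain ⟨C1, h1⟩ := log_zeta K
  obtain ⟨C2, h2⟩ := log_zeta_le K
  refine ⟨C1 + |C2|, ?_⟩
  filter_upwards [h1, eventually_summable K] with s hs hs2
  have h3 := h2 s hs2.2 hs2.1
  have h4 := Asum_P1_le hs2.2 hs2.1
  have h5 := abs_le.mp hs
  have h6 := le_abs_self C2
  have h7 := abs_nonneg C2
  rw [abs_le]
  constructor <;> linarith [h5.1, h5.2]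

end Pool.Agent.Lib.MP_fed790_nt
end

section

/-! Job K3b -/

namespace Pool.Agent.Lib.MP_fed790_nt

open NumberField

/-- (Job K3b) The fixed field of `σ`.
Proof. `M = IntermediateField.fixedField (Subgroup.zpowers σ)`, as a subfield of `E`; it is a number
field (characteristic zero, finite over `F`, which is finite over `ℚ`:
`Module.Finite.trans`/`FiniteDimensional.trans`).  An element of `E` lies in `M` iff it is fixed by
`σ`.  Write `w = θ 2`; `w ≠ 0` and `σ w = ζ^e w` (`β 2 = 1`; we identify `ζ` with its image in `E`,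
which is fixed by `σ`, lies in `M` and is a primitive `k`-th root of unity).
* `x = w ^ (k/e)`: `σ x = ζ^{e (k/e)} x = x`, so `x ∈ M`; `x^e = w^k = 2` (`e ∣ k`); `x` is integral
  (`IsIntegral.of_pow`).
* if `c ∈ M`, `q` prime, `q ∣ k/e` and `c^q = x = (w^{k/e/q})^q`, then `c = ω w^{k/e/q}` with
  `ω^q = 1`, so `ω^k = 1` and `σ ω = ω` (`ω` is a power of `ζ`); applying `σ`:
  `c = ω ζ^{e * (k/e/q)} w^{k/e/q}`, so `ζ^{k/q} = 1`, which contradicts that `ζ` is primitive and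
  `0 < k/q < k`.
* for `p ∈ Ps`: `y = θ p * w^{(k-1) β p}` satisfies
  `σ y = ζ^{e β p + e (k-1) β p} y = ζ^{e k β p} y = y`, `y^k = p * 2^{(k-1) β p}`; integral. -/
theorem exists_field_of_sigma (k e : ℕ) (hk : 2 ≤ k) (he : e = 1 ∧ Odd k ∨ e = 2 ∧ Even k)
    {F : Type} [Field F] [NumberField F] {E : Type} [Field E] [Algebra F E] [FiniteDimensional F E]
    (ζ : F) (hζ : IsPrimitiveRoot ζ k) (Ps : Finset ℕ) (h2 : 2 ∈ Ps)
    (θ : ℕ → E) (hθ : ∀ p ∈ Ps, θ p ^ k = (p : E)) (β : ℕ → ℕ) (hβ : β 2 = 1)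
    (σ : E ≃ₐ[F] E) (hσ : ∀ p ∈ Ps, σ (θ p) = algebraMap F E (ζ ^ (e * β p)) * θ p) :
    ∃ (M : Type) (_ : Field M) (_ : NumberField M) (ζ x : 𝓞 M), IsPrimitiveRoot ζ k ∧
      x ^ e = 2 ∧ (∀ q : ℕ, q.Prime → q ∣ k / e → ∀ c : M, c ^ q ≠ (x : M)) ∧
      ∀ p ∈ Ps, ∃ y : 𝓞 M, y ^ k = (p : 𝓞 M) * 2 ^ ((k - 1) * β p) := by
  classical
  have hk0 : k ≠ 0 := by omega
  have : NeZero k := ⟨hk0⟩
  have hcharF : CharZero F := inferInstance
  have hcharE : CharZero E := charZero_of_injective_algebraMap (algebraMap F E).injective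
  have he0 : 0 < e := by rcases he with ⟨h, -⟩ | ⟨h, -⟩ <;> omega
  have hek : e ∣ k := by
    rcases he with ⟨h, -⟩ | ⟨h, h'⟩
    · rw [h]; exact one_dvd k
    · rw [h]; exact h'.two_dvd
  set M : IntermediateField F E := IntermediateField.fixedField (Subgroup.zpowers σ) with hM
  have hmem : ∀ z : E, σ z = z → z ∈ M := by
    intro z hz
    rw [hM, IntermediateField.mem_fixedField_iff]
    intro τ hτ
    have h1 : Subgroup.zpowers σ ≤ MulAction.stabilizer (E ≃ₐ[F] E) z := by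
      rw [Subgroup.zpowers_le]
      exact hz
    exact h1 hτ
  have hfix : ∀ z ∈ M, σ z = z := by
    intro z hz
    rw [hM, IntermediateField.mem_fixedField_iff] at hz
    exact hz σ (Subgroup.mem_zpowers σ)
  have hNF : NumberField M := NumberField.of_module_finite F M
  have hζM : IsPrimitiveRoot (algebraMap F M ζ) k := hζ.map_of_injective (algebraMap F M).injective
  have hζE : IsPrimitiveRoot (algebraMap F E ζ) k := hζ.map_of_injective (algebraMap F E).injective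
  obtain ⟨w, hw⟩ : ∃ w, w = θ 2 := ⟨_, rfl⟩
  obtain ⟨z, hz⟩ : ∃ z, z = algebraMap F E ζ := ⟨_, rfl⟩
  rw [← hz] at hζE
  have hzk : z ^ k = 1 := hζE.pow_eq_one
  have hwk : w ^ k = 2 := by rw [hw, hθ 2 h2]; norm_num
  have hσw : σ w = z ^ e * w := by
    rw [hw, hσ 2 h2, hβ, mul_one, map_pow, hz]
  have hσz : σ z = z := by rw [hz]; exact σ.commutes ζ
  have hw0 : w ≠ 0 := by
    rintro rfl
    rw [zero_pow hk0] at hwk
    exact two_ne_zero hwk.symm
  have hkk : e * (k / e) = k := Nat.mul_div_cancel' hek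
  -- the element `x`
  have hxmem : w ^ (k / e) ∈ M := by
    apply hmem
    rw [map_pow, hσw, mul_pow, ← pow_mul, hkk, hzk, one_mul]
  obtain ⟨xM, hxM⟩ : ∃ xM : M, xM = ⟨w ^ (k / e), hxmem⟩ := ⟨_, rfl⟩
  have hxMc : (xM : E) = w ^ (k / e) := by rw [hxM]
  have hxe : xM ^ e = 2 := by
    apply Subtype.ext
    have h1 : ((xM ^ e : M) : E) = (xM : E) ^ e := rfl
    have h3 : ((2 : M) : E) = 2 := rfl
    rw [h1, h3, hxMc, ← pow_mul, mul_comm, hkk, hwk]
  have hxint : IsIntegral ℤ xM := by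
    apply IsIntegral.of_pow he0
    rw [hxe]
    exact isIntegral_algebraMap (R := ℤ) (A := M) (x := 2) |> fun h => by simpa using h
  obtain ⟨X, hX⟩ : ∃ X : 𝓞 M, algebraMap (𝓞 M) M X = xM := ⟨⟨xM, hxint⟩, rfl⟩
  have hinjM : Function.Injective (algebraMap (𝓞 M) M) := RingOfIntegers.coe_injective
  refine ⟨M, inferInstance, hNF, hζM.toInteger, X, hζM.toInteger_isPrimitiveRoot, ?_, ?_, ?_⟩
  · apply hinjM
    rw [map_pow, hX, hxe, map_ofNat]
  · intro q hq hqk c hc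
    have hc1 : c ^ q = xM := by rw [hc, ← hX]
    have hc2 : (c : E) ^ q = w ^ (k / e) := by
      have := congrArg (Subtype.val) hc1
      rw [hxMc] at this
      exact this
    obtain ⟨r, hr⟩ := hqk
    have hkr : k = e * (q * r) := by rw [← hr, hkk]
    have hr0 : 0 < r := by
      rcases Nat.eq_zero_or_pos r with h | h
      · rw [h] at hkr
        simp at hkr
        omega
      · exact h
    have hσc : σ (c : E) = c := hfix _ c.2
    have hwr : w ^ r ≠ 0 := pow_ne_zero _ hw0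
    obtain ⟨ω, hω⟩ : ∃ ω, ω = (c : E) / w ^ r := ⟨_, rfl⟩
    have hcω : (c : E) = ω * w ^ r := by rw [hω]; field_simp
    have hωq : ω ^ q = 1 := by
      have h1 : w ^ (q * r) ≠ 0 := pow_ne_zero _ hw0
      rw [hω, div_pow, hc2, hr, ← pow_mul, mul_comm r q]
      exact div_self h1
    have hωk : ω ^ k = 1 := by
      have : k = q * (e * r) := by rw [hkr]; ring
      rw [this, pow_mul, hωq, one_pow]
    obtain ⟨i, -, hi⟩ := hζE.eq_pow_of_pow_eq_one hωk
    have hσω : σ ω = ω := by rw [← hi, map_pow, hσz]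
    have h2 : ω * w ^ r = ω * (z ^ (e * r) * w ^ r) := by
      have h3 := hσc
      rw [hcω, map_mul, hσω, map_pow, hσw, mul_pow, ← pow_mul] at h3
      exact h3.symm
    have hω0 : ω ≠ 0 := by
      rintro rfl
      rw [zero_pow hq.ne_zero] at hωq
      exact zero_ne_one hωq
    have h4 : z ^ (e * r) = 1 := by
      have h5 := mul_left_cancel₀ hω0 h2
      have h6 : (1 : E) * w ^ r = z ^ (e * r) * w ^ r := by rw [one_mul]; exact h5
      exact (mul_right_cancel₀ hwr h6).symm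
    have h7 : k ∣ e * r := hζE.dvd_of_pow_eq_one _ h4
    have h8 : k ≤ e * r := Nat.le_of_dvd (Nat.mul_pos he0 hr0) h7
    have h9 : e * r < k := by
      rw [hkr]
      have := hq.two_le
      nlinarith [Nat.mul_pos he0 hr0]
    omega
  · intro p hp
    have hymem : θ p * w ^ ((k - 1) * β p) ∈ M := by
      apply hmem
      rw [map_mul, map_pow, hσw, hσ p hp, map_pow, ← hz, mul_pow, ← pow_mul]
      have h1 : z ^ (e * β p) * θ p * (z ^ (e * ((k - 1) * β p)) * w ^ ((k - 1) * β p))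
          = z ^ (e * β p + e * ((k - 1) * β p)) * (θ p * w ^ ((k - 1) * β p)) := by
        rw [pow_add]; ring
      rw [h1]
      have h2 : e * β p + e * ((k - 1) * β p) = k * (e * β p) := by
        obtain ⟨j, rfl⟩ : ∃ j, k = j + 1 := ⟨k - 1, by omega⟩
        simp only [Nat.add_sub_cancel]
        ring
      rw [h2, pow_mul, hzk, one_pow, one_mul]
    obtain ⟨yM, hyM⟩ : ∃ yM : M, yM = ⟨θ p * w ^ ((k - 1) * β p), hymem⟩ := ⟨_, rfl⟩
    have hyMc : (yM : E) = θ p * w ^ ((k - 1) * β p) := by rw [hyM]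
    have hyk : yM ^ k = (p : M) * 2 ^ ((k - 1) * β p) := by
      apply Subtype.ext
      have h1 : ((yM ^ k : M) : E) = (yM : E) ^ k := rfl
      have h3 : (((p : M) * 2 ^ ((k - 1) * β p) : M) : E) = (p : E) * 2 ^ ((k - 1) * β p) := by
        push_cast
        rfl
      rw [h1, h3, hyMc, mul_pow, hθ p hp, ← pow_mul, mul_comm ((k - 1) * β p) k, pow_mul, hwk]
    have hyint : IsIntegral ℤ yM := by
      apply IsIntegral.of_pow (Nat.pos_of_ne_zero hk0)
      rw [hyk]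
      have h1 : (p : M) * 2 ^ ((k - 1) * β p) = algebraMap ℤ M ((p : ℤ) * 2 ^ ((k - 1) * β p)) := by
        simp
      rw [h1]
      exact isIntegral_algebraMap
    obtain ⟨Y, hY⟩ : ∃ Y : 𝓞 M, algebraMap (𝓞 M) M Y = yM := ⟨⟨yM, hyint⟩, rfl⟩
    refine ⟨Y, ?_⟩
    apply hinjM
    rw [map_pow, hY, hyk, map_mul, map_pow, map_natCast, map_ofNat]

theorem exists_field_aux (k e : ℕ) (hk : 2 ≤ k) (he : e = 1 ∧ Odd k ∨ e = 2 ∧ Even k)
    (F : Type) [Field F] [Algebra ℚ F] [IsCyclotomicExtension {k} ℚ F]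
    (Ps : Finset ℕ) (hPs : ∀ p ∈ Ps, p.Prime) (h2 : 2 ∈ Ps) (β : ℕ → ℕ) (hβ : β 2 = 1) :
    ∃ (M : Type) (_ : Field M) (_ : NumberField M) (ζ x : 𝓞 M), IsPrimitiveRoot ζ k ∧
      x ^ e = 2 ∧ (∀ q : ℕ, q.Prime → q ∣ k / e → ∀ c : M, c ^ q ≠ (x : M)) ∧
      ∀ p ∈ Ps, ∃ y : 𝓞 M, y ^ k = (p : 𝓞 M) * 2 ^ ((k - 1) * β p) := by
  have hk0 : NeZero k := ⟨by omega⟩
  have hchar : CharZero F := charZero_of_injective_algebraMap (algebraMap ℚ F).injective
  obtain ⟨E, iE, iA, hfin, hgal, θ, hθ⟩ := exists_galois F k (by omega) Ps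
  have hζ := IsCyclotomicExtension.zeta_spec k ℚ F
  obtain ⟨σ, hσ⟩ := exists_sigma k e he (IsCyclotomicExtension.zeta k ℚ F) hζ Ps hPs θ hθ β
  have hNF : NumberField F := IsCyclotomicExtension.numberField {k} ℚ F
  exact exists_field_of_sigma k e hk he _ hζ Ps h2 θ hθ β hβ σ hσ

/-- the number field `M` -/
theorem exists_field (k e : ℕ) (hk : 2 ≤ k) (he : e = 1 ∧ Odd k ∨ e = 2 ∧ Even k)
    (Ps : Finset ℕ) (hPs : ∀ p ∈ Ps, p.Prime) (h2 : 2 ∈ Ps) (β : ℕ → ℕ) (hβ : β 2 = 1) :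
    ∃ (M : Type) (_ : Field M) (_ : NumberField M) (ζ x : 𝓞 M), IsPrimitiveRoot ζ k ∧
      x ^ e = 2 ∧ (∀ q : ℕ, q.Prime → q ∣ k / e → ∀ c : M, c ^ q ≠ (x : M)) ∧
      ∀ p ∈ Ps, ∃ y : 𝓞 M, y ^ k = (p : 𝓞 M) * 2 ^ ((k - 1) * β p) := by
  have hk0 : NeZero k := ⟨by omega⟩
  have hk1 : NeZero ((k : ℕ) : ℚ) := ⟨by exact_mod_cast (by omega : k ≠ 0)⟩
  exact @exists_field_aux k e hk he (CyclotomicField k ℚ) _ (CyclotomicField.algebra k ℚ)
    (CyclotomicField.isCyclotomicExtension k ℚ) Ps hPs h2 β hβ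

end Pool.Agent.Lib.MP_fed790_nt
end

section

/-! D11: simultaneous non-powers -/

namespace Pool.Agent.Lib.MP_fed790_nt

open NumberField Filter Topology Ideal Pool.Agent.Lib.MP_176ace_nt

theorem hasDens_Good (R : Finset ℕ) (hR : ∀ r ∈ R, r.Prime) :
    ∀ (L : Type) [Field L] [NumberField L] (y : 𝓞 L),
      (∀ r ∈ R, ∃ ξ : 𝓞 L, IsPrimitiveRoot ξ r) → (∀ r ∈ R, ∀ c : L, c ^ r ≠ (y : L)) →
      HasDens (Good y R) (∏ r ∈ R, (1 - 1 / (r : ℝ))) := by
  classical
  induction R using Finset.induction_on with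
  | empty =>
    intro L _ _ y _ _
    have : Good y ∅ = P1 L := by
      ext P; simp [Good]
    rw [this, Finset.prod_empty]
    exact hasDens_P1 L
  | insert q R hqR ih =>
    intro L _ _ y h1 h2
    obtain ⟨ζ, hζ⟩ := h1 q (Finset.mem_insert_self _ _)
    have h3 := hasDens_Good_insert (hR q (Finset.mem_insert_self _ _))
      (fun r hr => hR r (Finset.mem_insert_of_mem hr)) hqR hζ y
      (h2 q (Finset.mem_insert_self _ _)) (fun r hr => h2 r (Finset.mem_insert_of_mem hr))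
      (fun r hr => h1 r (Finset.mem_insert_of_mem hr)) (∏ r ∈ R, (1 - 1 / (r : ℝ)))
      (ih (fun r hr => hR r (Finset.mem_insert_of_mem hr)))
    rw [Finset.prod_insert hqR, mul_comm]
    exact h3

/-- simultaneous non-powers modulo a prime of prime norm outside a finite set -/
theorem exists_prime_simultaneous {M : Type} [Field M] [NumberField M] (R : Finset ℕ)
    (hR : ∀ r ∈ R, r.Prime) (x : 𝓞 M) (h1 : ∀ r ∈ R, ∃ ξ : 𝓞 M, IsPrimitiveRoot ξ r)
    (h2 : ∀ r ∈ R, ∀ c : M, c ^ r ≠ (x : M)) (B : Finset (Ideal (𝓞 M))) :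
    ∃ P : Ideal (𝓞 M), Prime P ∧ (absNorm P).Prime ∧ P ∉ B ∧
      ∀ r ∈ R, ∀ t : 𝓞 M, t ^ r - x ∉ P := by
  have h3 := hasDens_Good R hR M x h1 h2
  have hpos : 0 < ∏ r ∈ R, (1 - 1 / (r : ℝ)) := by
    refine Finset.prod_pos fun r hr => ?_
    have h4 : (2 : ℝ) ≤ r := by exact_mod_cast (hR r hr).two_le
    have h5 : 1 / (r : ℝ) ≤ 1 / 2 := one_div_le_one_div_of_le (by norm_num) h4
    linarith
  obtain ⟨P, hP, hPB⟩ := h3.exists_notMem hpos B
  exact ⟨P, hP.1.1, hP.1.2, hPB, hP.2⟩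

end Pool.Agent.Lib.MP_fed790_nt
end

section

/-! Job K5c -/

namespace Pool.Agent.Lib.MP_fed790_nt

open NumberField Ideal

private theorem k5_finite {M : Type} [Field M] [NumberField M] (z : 𝓞 M) (hz : z ≠ 0) :
    {P : Ideal (𝓞 M) | z ∈ P}.Finite := by
  have h1 : Ideal.span {z} ≠ 0 := by
    rw [Ne, Ideal.zero_eq_bot, Ideal.span_singleton_eq_bot]
    exact hz
  have h2 : Fintype {x : Ideal (𝓞 M) // x ∣ Ideal.span {z}} :=
    UniqueFactorizationMonoid.fintypeSubtypeDvd _ h1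
  have h4 : Finite {x : Ideal (𝓞 M) // x ∣ Ideal.span {z}} := @Finite.of_fintype _ h2
  have h3 : {P : Ideal (𝓞 M) | P ∣ Ideal.span {z}}.Finite := Set.finite_coe_iff.1 h4
  refine h3.subset fun P hP => ?_
  exact Ideal.dvd_iff_le.2 ((Ideal.span_singleton_le_iff_mem _).2 hP)

private theorem k5_mem {M : Type} [Field M] [NumberField M] {P : Ideal (𝓞 M)} (hP : P ≠ ⊤)
    {l : ℕ} (hl : l.Prime) (hlP : (l : 𝓞 M) ∈ P) (n : ℕ) : (n : 𝓞 M) ∈ P ↔ l ∣ n := by
  constructor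
  · intro hn
    by_contra hdvd
    have hc : Nat.Coprime l n := (Nat.Prime.coprime_iff_not_dvd hl).2 hdvd
    obtain ⟨a, b, hab⟩ := Nat.isCoprime_iff_coprime.2 hc
    apply hP
    rw [Ideal.eq_top_iff_one]
    have h1 : (1 : 𝓞 M) = (a : 𝓞 M) * (l : 𝓞 M) + (b : 𝓞 M) * (n : 𝓞 M) := by
      have := congrArg (fun t : ℤ => (t : 𝓞 M)) hab
      push_cast at this
      exact this.symm
    rw [h1]
    exact P.add_mem (P.mul_mem_left _ hlP) (P.mul_mem_left _ hn)
  · rintro ⟨c, rfl⟩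
    push_cast
    exact P.mul_mem_right _ hlP

/-- (Job K5c) Arbitrarily large primes `ℓ` such that `n` can be a `k`-th power residue modulo `ℓ`
only if `k/e ∣ wt β n`.
Proof. Take `M, ζ, x` from `exists_field`.  Apply `exists_prime_simultaneous` with
`R = (k/e).primeFactors` (for `r ∈ R`, `ζ^(k/r)` is a primitive `r`-th root of unity:
`IsPrimitiveRoot.pow`; `r ∣ k/e ∣ k`) and `B` = the finite set of prime ideals containing
`(2 * k * B₀! : 𝓞 M) ≠ 0` (`finite_primes_mem`).  We get `P` with `absNorm P = ℓ` a prime number, and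
`2, k, B₀! ∉ P`.  `(ℓ : 𝓞 M) ∈ P` (`Ideal.absNorm_mem`), so `ℓ > B₀` (otherwise `ℓ ∣ B₀!`).  Let
`κ = 𝓞 M ⧸ P`, a finite field (`Ideal.Quotient.field`, `P` maximal).  The image of `ζ` is a primitive
`k`-th root of unity, since `k ≠ 0` in `κ` (`Polynomial.isRoot_cyclotomic_iff` with
`NeZero (k : κ)`: `ζ` is a root of `cyclotomic k` in `𝓞 M`, hence its image is a root in `κ`).  A
natural number `n` is zero in `κ` iff `ℓ ∣ n` (`(ℓ : κ) = 0`, and if `ℓ ∤ n` Bezout would give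
`1 ∈ P`).  If `a^k ≡ n [MOD ℓ]`, then
`(a : κ)^k = n`.  Take `y` from `exists_pow_eq` (in `𝓞 M`) and conclude by `dvd_of_residue`
(the hypothesis `hxq`: a `t : κ` with `t^q = x` lifts to `t' : 𝓞 M` with `t'^q - x ∈ P`). -/
theorem exists_prime_char (k e : ℕ) (hk : 2 ≤ k) (he : e = 1 ∧ Odd k ∨ e = 2 ∧ Even k)
    (Ps : Finset ℕ) (hPs : ∀ p ∈ Ps, p.Prime) (h2 : 2 ∈ Ps) (β : ℕ → ℕ) (hβ : β 2 = 1) (B₀ : ℕ) :
    ∃ ℓ : ℕ, ℓ.Prime ∧ B₀ < ℓ ∧ ∀ n : ℕ, n ≠ 0 → (∀ p, p.Prime → p ∣ n → p ∈ Ps) →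
      ¬ ℓ ∣ n → (∃ a : ℕ, a ^ k ≡ n [MOD ℓ]) → k / e ∣ wt β n := by
  obtain ⟨M, iF, iN, ζ, x, hζ, hx, hxM, hy⟩ := exists_field k e hk he Ps hPs h2 β hβ
  have hk0 : k ≠ 0 := by omega
  have hke : k / e ≠ 0 ∧ k / e ∣ k := by
    rcases he with ⟨rfl, _⟩ | ⟨rfl, h⟩
    · rw [Nat.div_one]
      exact ⟨hk0, dvd_rfl⟩
    · obtain ⟨m, hm⟩ := h
      have h3 : k / 2 = m := by omega
      rw [h3]
      exact ⟨by omega, ⟨2, by omega⟩⟩
  set z : 𝓞 M := ((2 * k * B₀.factorial : ℕ) : 𝓞 M) with hz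
  have hz0 : z ≠ 0 := by
    rw [hz]
    exact Nat.cast_ne_zero.2 (by positivity)
  have hfin := k5_finite z hz0
  obtain ⟨P, hPp, hPn, hPB, hPq⟩ := exists_prime_simultaneous (k / e).primeFactors
    (fun r hr => (Nat.mem_primeFactors.1 hr).1) x
    (by
      intro r hr
      obtain ⟨_, hr2, _⟩ := Nat.mem_primeFactors.1 hr
      obtain ⟨m, hm⟩ := hr2.trans hke.2
      refine ⟨ζ ^ m, hζ.pow (by omega) ?_⟩
      rw [hm, mul_comm])
    (by
      intro r hr c
      obtain ⟨hr1, hr2, _⟩ := Nat.mem_primeFactors.1 hr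
      exact hxM r hr1 hr2 c)
    hfin.toFinset
  have hzP : z ∉ P := by
    intro h
    apply hPB
    rw [Set.Finite.mem_toFinset]
    exact h
  set l := absNorm P with hl
  have hPrime : P.IsPrime := Ideal.isPrime_of_prime hPp
  have hPtop : P ≠ ⊤ := hPrime.ne_top
  have hPbot : P ≠ ⊥ := hPp.ne_zero
  have hlP : (l : 𝓞 M) ∈ P := Ideal.absNorm_mem P
  have hmem := k5_mem hPtop hPn hlP
  have hl2 : ¬ l ∣ 2 * k * B₀.factorial := fun h => hzP ((hmem _).2 h)
  refine ⟨l, hPn, ?_, ?_⟩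
  · by_contra hcon
    push Not at hcon
    exact hl2 (Dvd.dvd.mul_left (Nat.dvd_factorial hPn.pos hcon) _)
  · intro n hn hnPs hln hres
    obtain ⟨a, ha⟩ := hres
    obtain ⟨y, hyk⟩ := exists_pow_eq k Ps β hy n hn hnPs
    have hmax : P.IsMaximal := hPrime.isMaximal hPbot
    let _ : Field (𝓞 M ⧸ P) := Ideal.Quotient.field P
    have hfinκ : Finite (𝓞 M ⧸ P) := (Ideal.absNorm_ne_zero_iff P).1 hPn.ne_zero
    have hk0' : NeZero k := ⟨hk0⟩
    have hcop : (absNorm P).Coprime k := by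
      rw [← hl, Nat.Prime.coprime_iff_not_dvd hPn]
      intro h
      exact hl2 ((h.mul_left 2).mul_right _)
    have hζκ : IsPrimitiveRoot (Ideal.Quotient.mk P ζ) k :=
      hζ.idealQuotient_mk (by rw [← hl]; exact hPn.ne_one) hcop
    have h2κ : (2 : 𝓞 M ⧸ P) ≠ 0 := by
      intro h
      have h3 : Ideal.Quotient.mk P ((2 : ℕ) : 𝓞 M) = 0 := by
        rw [map_natCast]
        exact_mod_cast h
      rw [Ideal.Quotient.eq_zero_iff_mem, hmem] at h3
      exact hl2 ((h3.mul_right k).mul_right _)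
    have hnκ : ((n : ℕ) : 𝓞 M ⧸ P) ≠ 0 := by
      intro h
      have h3 : Ideal.Quotient.mk P ((n : ℕ) : 𝓞 M) = 0 := by
        rw [map_natCast]
        exact h
      rw [Ideal.Quotient.eq_zero_iff_mem, hmem] at h3
      exact hln h3
    apply dvd_of_residue hk he hζκ (x := Ideal.Quotient.mk P x) _ h2κ _ (wt β n)
      (Ideal.Quotient.mk P y) (a : 𝓞 M ⧸ P) (n : 𝓞 M ⧸ P) _ _ hnκ
    · rw [← map_pow, hx]
      exact map_ofNat _ 2
    · intro q hq hqk t ht
      obtain ⟨t', rfl⟩ := Ideal.Quotient.mk_surjective t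
      rw [← map_pow, Ideal.Quotient.eq] at ht
      exact hPq q (Nat.mem_primeFactors.2 ⟨hq, hqk, hke.1⟩) t' ht
    · rw [← map_pow, hyk, map_mul, map_pow, map_natCast]
      congr 2
    · have h3 : Ideal.Quotient.mk P ((a : 𝓞 M) ^ k) = Ideal.Quotient.mk P (n : 𝓞 M) := by
        rw [Ideal.Quotient.eq]
        obtain ⟨c, hc⟩ := (Nat.modEq_iff_dvd.1 ha.symm)
        have h4 : (a : 𝓞 M) ^ k - (n : 𝓞 M) = (l : 𝓞 M) * (c : 𝓞 M) := by
          have := congrArg (fun t : ℤ => (t : 𝓞 M)) hc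
          push_cast at this
          exact this
        rw [h4]
        exact P.mul_mem_right _ hlP
      rw [map_pow, map_natCast, map_natCast] at h3
      exact h3

end Pool.Agent.Lib.MP_fed790_nt
end
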