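import Pool.Agent.Lib.MP_fed790_nt.C8
import Pool.Agent.Lib.MP_fed790_nt.K5

/-! K6: final assembly -/

namespace Pool.Agent.Lib.MP_fed790_nt

open Finset

/-- `n` is a nonzero `k`th power residue modulo `p`. -/
def IsPowRes (k p n : ℕ) : Prop := ¬ p ∣ n ∧ ∃ x : ℕ, x ^ k ≡ n [MOD p]

/-- `r k m p` is the least positive `a` such that `a, a+1, …, a+m-1` are all nonzero `k`th power
residues modulo `p`, and `⊤ = ∞` if there is none. -/
noncomputable def r (k m p : ℕ) : ℕ∞ :=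
  sInf {a : ℕ∞ | ∃ n : ℕ, a = n ∧ 1 ≤ n ∧ ∀ i < m, IsPowRes k p (n + i)}

/-- `Λ(k,m) = limsup_{p → ∞, p prime} r(k,m,p)`, an element of `ℕ ∪ {∞}`. -/
noncomputable def Lam (k m : ℕ) : ℕ∞ :=
  Filter.limsup (fun p : ℕ => r k m p) (Filter.atTop ⊓ Filter.principal {p : ℕ | p.Prime})

theorem le_Lam_of (k e m : ℕ) (hk : 2 ≤ k) (he : e = 1 ∧ Odd k ∨ e = 2 ∧ Even k) (N : ℕ)
    (β : ℕ → ℕ) (hβ : β 2 = 1)
    (h : ∀ n : ℕ, 1 ≤ n → n < N → ∃ i < m, ¬ k / e ∣ wt β (n + i)) : (N : ℕ∞) ≤ Lam k m := by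
  have hfreq : ∃ᶠ p : ℕ in Filter.atTop ⊓ Filter.principal {p : ℕ | p.Prime},
      (N : ℕ∞) ≤ r k m p := by
    rw [Filter.frequently_iff]
    intro U hU
    rw [Filter.mem_inf_principal, Filter.mem_atTop_sets] at hU
    obtain ⟨B, hB⟩ := hU
    obtain ⟨ℓ, hℓ, hBℓ, hchar⟩ := exists_prime_char k e hk he
      (insert 2 (PS (N + m))) (by
        intro p hp
        rcases Finset.mem_insert.mp hp with rfl | hp
        · exact Nat.prime_two
        · exact (mem_PS.mp hp).2) (Finset.mem_insert_self _ _) β hβ B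
    refine ⟨ℓ, hB ℓ hBℓ.le hℓ, ?_⟩
    refine le_sInf ?_
    rintro a ⟨n, rfl, hn1, hn⟩
    by_contra hlt
    push Not at hlt
    have hnN : n < N := by exact_mod_cast hlt
    obtain ⟨i, him, hi⟩ := h n hn1 hnN
    apply hi
    obtain ⟨h1, h2⟩ := hn i him
    refine hchar (n + i) (by omega) ?_ h1 h2
    intro p hp hpd
    refine Finset.mem_insert_of_mem (mem_PS.mpr ⟨?_, hp⟩)
    have := Nat.le_of_dvd (by omega) hpd
    omega
  unfold Lam
  exact Filter.le_limsup_of_frequently_le' hfreq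

end Pool.Agent.Lib.MP_fed790_nt
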