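import Mathlib
import Pool.Agent.Lib.MP_fed790_nt.Basic

section

/-! Størmer's theorem: the largest prime factor of `n(n+1)` tends to infinity. -/

namespace Pool.Agent.Lib.MP_fed790_nt

open Pell

/-- powers of a solution modulo the square of its `y`-coordinate -/
theorem pell_pow_expand {d : ℤ} (a : Solution₁ d) (t : ℕ) : ∃ A B : ℤ,
    (a ^ t).x = a.x ^ t + a.y ^ 2 * A ∧ (a ^ t).y = a.y * (t * a.x ^ (t - 1) + a.y ^ 2 * B) := by
  induction t with
  | zero => exact ⟨0, 0, by simp, by simp⟩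
  | succ t ih =>
    obtain ⟨A, B, hA, hB⟩ := ih
    have h0 : (t : ℤ) * a.x ^ (t - 1) * a.x = t * a.x ^ t := by
      rcases Nat.eq_zero_or_pos t with rfl | ht
      · simp
      · obtain ⟨u, rfl⟩ : ∃ u, t = u + 1 := ⟨t - 1, by omega⟩
        simp only [Nat.add_sub_cancel]
        ring
    refine ⟨A * a.x + d * (t * a.x ^ (t - 1) + a.y ^ 2 * B), A + B * a.x, ?_, ?_⟩
    · rw [pow_succ, Solution₁.x_mul, hA, hB]
      ring
    · rw [pow_succ, Solution₁.y_mul, hA, hB]
      simp only [Nat.add_sub_cancel]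
      push_cast
      linear_combination a.y * h0

theorem y_dvd_y_pow {d : ℤ} (a : Solution₁ d) (t : ℕ) : a.y ∣ (a ^ t).y := by
  obtain ⟨A, B, -, hB⟩ := pell_pow_expand a t
  exact ⟨_, hB⟩

theorem not_dvd_x {d : ℤ} (a : Solution₁ d) {p : ℕ} (hp : p.Prime) (h : (p : ℤ) ∣ a.y) :
    ¬ (p : ℤ) ∣ a.x := by
  intro hx
  have h1 : (p : ℤ) ∣ 1 := by
    rw [← a.prop]
    exact dvd_sub (dvd_pow hx two_ne_zero) ((dvd_pow h two_ne_zero).mul_left _)
  have h2 : p ∣ 1 := by exact_mod_cast h1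
  exact hp.one_lt.ne' (Nat.dvd_one.mp h2)

/-- lifting the exponent -/
theorem pow_dvd_mul {d : ℤ} {p : ℕ} (hp : p.Prime) : ∀ t : ℕ, 0 < t → ∀ b : Solution₁ d,
    (p : ℤ) ∣ b.y → ∀ j : ℕ, (p : ℤ) ^ j ∣ (b ^ t).y → (p : ℤ) ^ j ∣ b.y * t := by
  intro t
  induction t using Nat.strong_induction_on with
  | _ t ih =>
    intro ht b hb j hj
    have hpi : Prime (p : ℤ) := Nat.prime_iff_prime_int.mp hp
    have hx := not_dvd_x b hp hb
    by_cases hpt : p ∣ t
    · obtain ⟨u, rfl⟩ := hpt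
      have hu : 0 < u := Nat.pos_of_mul_pos_left ht
      have hut : u < p * u := by
        have := hp.one_lt
        nlinarith
      obtain ⟨A, B, -, hB⟩ := pell_pow_expand b p
      obtain ⟨z, hz⟩ := hb
      have h1 : (b ^ p).y = b.y * (p * (b.x ^ (p - 1) + p * (z ^ 2 * B))) := by
        rw [hB, hz]
        ring
      have h2 : (p : ℤ) ∣ (b ^ p).y := by
        rw [h1, hz]
        exact ⟨z * (p * (b.x ^ (p - 1) + p * (z ^ 2 * B))), by ring⟩
      have h3 := ih u hut hu (b ^ p) h2 j (by rwa [← pow_mul])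
      have h4 : IsCoprime ((p : ℤ) ^ j) (b.x ^ (p - 1) + p * (z ^ 2 * B)) := by
        refine IsCoprime.pow_left ?_
        rw [Prime.coprime_iff_not_dvd hpi]
        intro h
        apply hx
        have h5 : (p : ℤ) ∣ b.x ^ (p - 1) := by
          have := dvd_sub h (Dvd.intro (z ^ 2 * B) rfl : (p : ℤ) ∣ p * (z ^ 2 * B))
          simpa using this
        exact hpi.dvd_of_dvd_pow h5
      refine h4.dvd_of_dvd_mul_right ?_
      rw [h1] at h3
      have h6 : b.y * ((p * u : ℕ) : ℤ) * (b.x ^ (p - 1) + p * (z ^ 2 * B)) =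
          b.y * (p * (b.x ^ (p - 1) + p * (z ^ 2 * B))) * u := by
        push_cast
        ring
      rw [h6]
      exact h3
    · obtain ⟨A, B, -, hB⟩ := pell_pow_expand b t
      rw [hB] at hj
      have h4 : IsCoprime ((p : ℤ) ^ j) (t * b.x ^ (t - 1) + b.y ^ 2 * B) := by
        refine IsCoprime.pow_left ?_
        rw [Prime.coprime_iff_not_dvd hpi]
        intro h
        have h5 : (p : ℤ) ∣ t * b.x ^ (t - 1) := by
          have := dvd_sub h (((dvd_pow hb two_ne_zero).mul_right B) : (p : ℤ) ∣ b.y ^ 2 * B)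
          simpa using this
        rcases hpi.dvd_or_dvd h5 with h6 | h6
        · exact hpt (by exact_mod_cast h6)
        · exact hx (hpi.dvd_of_dvd_pow h6)
      exact (h4.dvd_of_dvd_mul_right hj).mul_right _

/-- every prime divides some `y`-coordinate -/
theorem exists_dvd_y {d : ℤ} (a : Solution₁ d) {p : ℕ} (hp : p.Prime) :
    ∃ L : ℕ, 0 < L ∧ (p : ℤ) ∣ (a ^ L).y := by
  have hne : NeZero p := ⟨hp.ne_zero⟩
  obtain ⟨i, j, hij, h⟩ := Finite.exists_ne_map_eq_of_infinite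
    (fun j : ℕ => (((a ^ j).x : ZMod p), ((a ^ j).y : ZMod p)))
  wlog hlt : i < j generalizing i j
  · exact this j i hij.symm h.symm (lt_of_le_of_ne (not_lt.mp hlt) hij.symm)
  obtain ⟨k, rfl⟩ := Nat.exists_eq_add_of_lt hlt
  simp only [Prod.mk.injEq] at h
  obtain ⟨h1, h2⟩ := h
  refine ⟨k + 1, by omega, ?_⟩
  have h3 : a ^ (k + 1) = a ^ (i + k + 1) * (a ^ i)⁻¹ := by
    have h4 : a ^ (i + k + 1) = a ^ (k + 1) * a ^ i := by
      rw [← pow_add]
      congr 1
      omega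
    rw [h4, mul_inv_cancel_right]
  rw [← ZMod.intCast_zmod_eq_zero_iff_dvd, h3, Solution₁.y_mul, Solution₁.x_inv, Solution₁.y_inv]
  push_cast
  rw [← h1, ← h2]
  ring

/-- exponential growth -/
theorem le_y_pow {d : ℤ} (a : Solution₁ d) (hx : 1 < a.x) (hy : 0 < a.y) (j : ℕ) :
    (2 : ℤ) ^ j - 1 ≤ (a ^ j).y := by
  induction j with
  | zero => simp
  | succ j ih =>
    rw [pow_succ a, Solution₁.y_mul]
    have h1 : 0 < (a ^ j).x := Solution₁.x_pow_pos (by linarith) j
    have h2 : (1 : ℤ) ≤ (2 : ℤ) ^ j := one_le_pow₀ (by norm_num)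
    have h3 : 0 ≤ (a ^ j).y := by linarith
    have h4 : 1 ≤ (a ^ j).x * a.y := by nlinarith
    have h5 : (a ^ j).y * 2 ≤ (a ^ j).y * a.x := mul_le_mul_of_nonneg_left (by linarith) h3
    rw [pow_succ]
    linarith

theorem exists_bound_exp (C : ℕ) : ∃ J : ℕ, ∀ j : ℕ, 2 ^ j ≤ C * j + 1 → j ≤ J := by
  refine ⟨4 * (C + 1), fun j hj => ?_⟩
  by_contra hlt
  push Not at hlt
  have h1 : ∀ n : ℕ, n < 2 ^ n := fun n => Nat.lt_two_pow_self
  have h2 : j / 2 + j / 2 ≤ j := by omega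
  have h3 : 2 ^ (j / 2) * 2 ^ (j / 2) ≤ 2 ^ j := by
    rw [← pow_add]
    exact Nat.pow_le_pow_right (by norm_num) h2
  have h4 : j / 2 + 1 ≤ 2 ^ (j / 2) := h1 _
  have h5 : (j / 2 + 1) * (j / 2 + 1) ≤ 2 ^ j := (Nat.mul_le_mul h4 h4).trans h3
  have h6 : j ≤ 2 * (j / 2) + 1 := by omega
  have h7 : 2 * (C + 1) ≤ j / 2 := by omega
  nlinarith

/-- finitely many smooth `y` for a given `d` -/
theorem exists_bound_y {d : ℤ} (hd : 0 < d) (hsq : ¬ IsSquare d) (Q : ℕ) :
    ∃ Y : ℤ, ∀ x y : ℤ, 0 < x → 0 < y → x ^ 2 - d * y ^ 2 = 1 →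
      (∀ p : ℕ, p.Prime → (p : ℤ) ∣ y → p ≤ Q) → y ≤ Y := by
  obtain ⟨a, ha⟩ := IsFundamental.exists_of_not_isSquare hd hsq
  -- common index
  have hL : ∃ L : ℕ, 0 < L ∧ ∀ p : ℕ, p.Prime → p ≤ Q → (p : ℤ) ∣ (a ^ L).y := by
    have hch : ∀ p : ℕ, ∃ L : ℕ, 0 < L ∧ (p.Prime → (p : ℤ) ∣ (a ^ L).y) := by
      intro p
      by_cases hp : p.Prime
      · obtain ⟨L, h1, h2⟩ := exists_dvd_y a hp
        exact ⟨L, h1, fun _ => h2⟩
      · exact ⟨1, one_pos, fun h => absurd h hp⟩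
    choose L hL1 hL2 using hch
    refine ⟨∏ p ∈ Finset.range (Q + 1), L p, Finset.prod_pos fun p _ => hL1 p, ?_⟩
    intro p hp hpQ
    obtain ⟨c, hc⟩ : L p ∣ ∏ p ∈ Finset.range (Q + 1), L p :=
      Finset.dvd_prod_of_mem _ (Finset.mem_range.mpr (by omega))
    rw [hc, pow_mul]
    exact (hL2 p hp).trans (y_dvd_y_pow _ _)
  obtain ⟨L, hL0, hL⟩ := hL
  have hyL : 0 < (a ^ L).y := by
    obtain ⟨u, rfl⟩ : ∃ u, L = u + 1 := ⟨L - 1, by omega⟩
    exact Solution₁.y_pow_succ_pos ha.x_pos ha.2.1 u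
  obtain ⟨J, hJ⟩ := exists_bound_exp ((a ^ L).y.toNat)
  refine ⟨(a ^ L).y * J, fun x y hx hy hxy hsm => ?_⟩
  obtain ⟨j, hj⟩ := ha.eq_pow_of_nonneg (a := Solution₁.mk x y hxy) (by simpa using hx)
    (by simpa using hy.le)
  have hyj : y = (a ^ j).y := by rw [← hj]; simp
  have hj0 : 0 < j := by
    rcases Nat.eq_zero_or_pos j with rfl | h
    · rw [hyj] at hy; simp at hy
    · exact h
  -- divisibility
  have hdvd : y ∣ (a ^ L).y * j := by
    have h1 : y.natAbs ∣ ((a ^ L).y * j).natAbs := by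
      rw [Nat.dvd_iff_prime_pow_dvd_dvd]
      intro p k hp hpk
      rcases Nat.eq_zero_or_pos k with rfl | hk
      · simp
      have h2 : (p : ℤ) ^ k ∣ y := by
        rw [← Int.natAbs_dvd_natAbs, Int.natAbs_pow, Int.natAbs_natCast]
        exact hpk
      have h3 : p ≤ Q := hsm p hp ((dvd_pow_self _ hk.ne').trans h2)
      have h4 : (p : ℤ) ^ k ∣ ((a ^ L) ^ j).y := by
        rw [← pow_mul, mul_comm, pow_mul]
        rw [hyj] at h2
        exact h2.trans (y_dvd_y_pow _ _)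
      have h5 := pow_dvd_mul hp j hj0 (a ^ L) (hL p hp h3) k h4
      rw [← Int.natAbs_dvd_natAbs, Int.natAbs_pow, Int.natAbs_natCast] at h5
      exact h5
    exact Int.natAbs_dvd_natAbs.mp h1
  have hle : y ≤ (a ^ L).y * j := Int.le_of_dvd (by positivity) hdvd
  have hjJ : j ≤ J := by
    apply hJ
    have h6 := le_y_pow a ha.1 ha.2.1 j
    have h7 : ((2 ^ j : ℕ) : ℤ) ≤ (((a ^ L).y.toNat * j + 1 : ℕ) : ℤ) := by
      push_cast
      rw [Int.toNat_of_nonneg hyL.le]
      linarith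
    exact_mod_cast h7
  refine hle.trans (mul_le_mul_of_nonneg_left (by exact_mod_cast hjJ) hyL.le)

/-- Størmer: the largest prime factor of `n(n+1)` tends to infinity. -/
theorem stormer (Q : ℕ) : ∃ B : ℕ, ∀ n ≥ B, ∃ p, p.Prime ∧ Q < p ∧ p ∣ n * (n + 1) := by
  classical
  -- bound for each `d`
  have hch : ∀ d : ℕ, ∃ Y : ℤ, 0 < d → ¬ IsSquare (d : ℤ) → ∀ x y : ℤ, 0 < x → 0 < y →
      x ^ 2 - d * y ^ 2 = 1 → (∀ p : ℕ, p.Prime → (p : ℤ) ∣ y → p ≤ max Q 2) → y ≤ Y := by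
    intro d
    by_cases h : 0 < d ∧ ¬ IsSquare (d : ℤ)
    · obtain ⟨Y, hY⟩ := exists_bound_y (d := d) (by exact_mod_cast h.1) h.2 (max Q 2)
      exact ⟨Y, fun _ _ => hY⟩
    · exact ⟨0, fun h1 h2 => absurd ⟨h1, h2⟩ h⟩
  choose Y hY using hch
  set D := primorial Q with hD
  set S : ℤ := ∑ d ∈ Finset.range (D + 1), (d : ℤ) * (Y d) ^ 2 with hS
  refine ⟨S.toNat + 1, fun n hn => ?_⟩
  by_contra hcon
  push Not at hcon
  have hn1 : 1 ≤ n := by omega
  have hsm : ∀ p : ℕ, p.Prime → p ∣ n * (n + 1) → p ≤ Q := by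
    intro p hp hpd
    by_contra h
    exact hcon p hp (by omega) hpd
  obtain ⟨d, z, hdz, hdsq⟩ := Nat.sq_mul_squarefree (n * (n + 1))
  have hpos : 0 < n * (n + 1) := by positivity
  have hd0 : 0 < d := Nat.pos_of_ne_zero (by rintro rfl; simp at hdz; omega)
  have hz0 : 0 < z := Nat.pos_of_ne_zero (by rintro rfl; simp at hdz; omega)
  have hdD : d ∣ D := by
    rw [← Nat.prod_primeFactors_of_squarefree hdsq, hD, primorial]
    refine Finset.prod_dvd_prod_of_subset _ _ _ ?_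
    intro p hp
    rw [Nat.mem_primeFactors] at hp
    rw [Finset.mem_filter, Finset.mem_range]
    refine ⟨?_, hp.1⟩
    have := hsm p hp.1 (hp.2.1.trans (Dvd.intro_left _ hdz))
    omega
  have hnsq : ¬ IsSquare (d : ℤ) := by
    intro h
    have h1 : IsSquare d := by
      obtain ⟨r, hr⟩ := h
      refine ⟨r.natAbs, ?_⟩
      have := congrArg Int.natAbs hr
      rw [Int.natAbs_natCast, Int.natAbs_mul] at this
      exact this
    obtain ⟨r, hr⟩ := h1
    have h2 : d = 1 := by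
      have h3 := hdsq r ⟨1, by rw [mul_one]; exact hr⟩
      rw [Nat.isUnit_iff] at h3
      rw [hr, h3]
    rw [h2, mul_one] at hdz
    have h4 : n < z := by nlinarith
    have h5 : z < n + 1 := by nlinarith
    omega
  have hpell : ((2 * n + 1 : ℕ) : ℤ) ^ 2 - d * ((2 * z : ℕ) : ℤ) ^ 2 = 1 := by
    have : ((z ^ 2 * d : ℕ) : ℤ) = ((n * (n + 1) : ℕ) : ℤ) := by rw [hdz]
    push_cast at this ⊢
    linear_combination -4 * this
  have h6 : ((2 * z : ℕ) : ℤ) ≤ Y d := by
    refine hY d hd0 hnsq _ _ (by positivity) (by positivity) hpell ?_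
    intro p hp hpd
    have h7 : p ∣ 2 * z := by exact_mod_cast hpd
    rcases (Nat.Prime.dvd_mul hp).mp h7 with h8 | h8
    · have := Nat.le_of_dvd (by norm_num) h8
      omega
    · have := hsm p hp (h8.trans ⟨z * d, by rw [← hdz]; ring⟩)
      omega
  have hdmem : d ∈ Finset.range (D + 1) := by
    rw [Finset.mem_range]
    have := Nat.le_of_dvd (primorial_pos Q) hdD
    omega
  have h9 : (d : ℤ) * (Y d) ^ 2 ≤ S := by
    rw [hS]
    exact Finset.single_le_sum (f := fun d : ℕ => (d : ℤ) * (Y d) ^ 2)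
      (fun i _ => by positivity) hdmem
  have h10 : ((n * (n + 1) : ℕ) : ℤ) ≤ S := by
    refine le_trans ?_ h9
    rw [← hdz]
    push_cast at h6 ⊢
    have h11 : (z : ℤ) ^ 2 ≤ (Y d) ^ 2 := by
      have hz1 : (0 : ℤ) ≤ z := by positivity
      nlinarith
    have hdnn : (0 : ℤ) ≤ d := by positivity
    nlinarith
  have h12 : (n : ℤ) ≤ S := by
    refine le_trans ?_ h10
    have : n ≤ n * (n + 1) := Nat.le_mul_of_pos_right _ (by omega)
    exact_mod_cast this
  have h13 : n ≤ S.toNat := by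
    rw [← Int.toNat_natCast n]
    exact Int.toNat_le_toNat h12
  omega

end Pool.Agent.Lib.MP_fed790_nt
end

section

/-! Job C2 -/

namespace Pool.Agent.Lib.MP_fed790_nt

open Finset

/-- (Job C2) Weight bound.
Proof. `wt β n = ∑ p ∈ n.primeFactors, v_p(n) β(p)` (`wt_eq_sum`).  Split the prime factors into
`p ≤ P`, `P < p ≤ Q` and `p > Q`.
* primes `p ≤ P` contribute at most `∑ v_p(n) ≤ OmS P n` (as `β p ≤ 1`; the primes `p ≤ P` that do
  not divide `n` have `n.factorization p = 0`);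
* primes `P < p ≤ Q` contribute at most `A := ∑_{P < p} v_p(n)` and
  `A * log P ≤ ∑_{P<p} v_p(n) log p ≤ log n`, because `log n = ∑_p v_p(n) log p`
  (`Nat.factorization_prod_pow_eq_self`, or `Real.log` of the product);
* primes `p > Q` contribute at most `(N+1) * ∑_{Q < p} v_p(n)` and
  `(∑_{Q<p} v_p(n)) * log Q ≤ log n`.
Note `log P > 0`, `log Q > 0` as `2 ≤ P ≤ Q`. -/
theorem wt_le (β : ℕ → ℕ) (P Q N : ℕ) (hP : 2 ≤ P) (hPQ : P ≤ Q) (h1 : ∀ p ≤ Q, β p ≤ 1)
    (h2 : ∀ p, β p ≤ N + 1) (n : ℕ) (hn : n ≠ 0) :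
    (wt β n : ℝ) ≤ OmS P n + Real.log n / Real.log P + (N + 1) * (Real.log n / Real.log Q) := by
  have hP' : (2 : ℝ) ≤ P := by exact_mod_cast hP
  have hQ' : (2 : ℝ) ≤ Q := by exact_mod_cast hP.trans hPQ
  have hlP : 0 < Real.log P := Real.log_pos (by linarith)
  have hlQ : 0 < Real.log Q := Real.log_pos (by linarith)
  have hlog : Real.log n = ∑ p ∈ n.primeFactors, (n.factorization p : ℝ) * Real.log p := by
    conv_lhs => rw [← Nat.prod_factorization_pow_eq_self hn]
    rw [Finsupp.prod, Nat.support_factorization, Nat.cast_prod, Real.log_prod]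
    · refine Finset.sum_congr rfl fun p _ => ?_
      rw [Nat.cast_pow, Real.log_pow]
    · intro p hp
      have hp' := Nat.prime_of_mem_primeFactors hp
      rw [Nat.cast_pow]
      exact pow_ne_zero _ (by exact_mod_cast hp'.ne_zero)
  have hOm : (∑ p ∈ n.primeFactors, (if p ≤ P then (n.factorization p : ℝ) else 0)) ≤ (OmS P n : ℝ) := by
    unfold OmS
    rw [← Finset.sum_filter, Nat.cast_sum]
    refine Finset.sum_le_sum_of_subset_of_nonneg ?_ (fun _ _ _ => Nat.cast_nonneg _)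
    intro p hp
    rw [Finset.mem_filter] at hp
    exact mem_PS.2 ⟨hp.2, Nat.prime_of_mem_primeFactors hp.1⟩
  have hpt : ∀ p ∈ n.primeFactors, ((n.factorization p * β p : ℕ) : ℝ) ≤
      (if p ≤ P then (n.factorization p : ℝ) else 0) +
      ((n.factorization p : ℝ) * Real.log p) / Real.log P +
      (N + 1) * (((n.factorization p : ℝ) * Real.log p) / Real.log Q) := by
    intro p hp
    have hp' := Nat.prime_of_mem_primeFactors hp
    have hp1 : (1 : ℝ) ≤ p := by exact_mod_cast hp'.one_lt.le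
    have hlp : 0 ≤ Real.log p := Real.log_nonneg hp1
    have hv : (0 : ℝ) ≤ (n.factorization p : ℝ) := Nat.cast_nonneg _
    have hN : (0 : ℝ) ≤ (N : ℝ) + 1 := by positivity
    have t1 : 0 ≤ ((n.factorization p : ℝ) * Real.log p) / Real.log P :=
      div_nonneg (mul_nonneg hv hlp) hlP.le
    have t2 : 0 ≤ ((N : ℝ) + 1) * (((n.factorization p : ℝ) * Real.log p) / Real.log Q) :=
      mul_nonneg hN (div_nonneg (mul_nonneg hv hlp) hlQ.le)
    rw [Nat.cast_mul]
    by_cases hpP : p ≤ P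
    · rw [if_pos hpP]
      have hb : (β p : ℝ) ≤ 1 := by exact_mod_cast h1 p (hpP.trans hPQ)
      have : (n.factorization p : ℝ) * β p ≤ (n.factorization p : ℝ) * 1 :=
        mul_le_mul_of_nonneg_left hb hv
      linarith
    · rw [if_neg hpP]
      push Not at hpP
      by_cases hpQ : p ≤ Q
      · have hb : (β p : ℝ) ≤ 1 := by exact_mod_cast h1 p hpQ
        have e1 : (n.factorization p : ℝ) * β p ≤ (n.factorization p : ℝ) * 1 :=
          mul_le_mul_of_nonneg_left hb hv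
        have hlPp : Real.log P ≤ Real.log p :=
          Real.log_le_log (by linarith) (by exact_mod_cast hpP.le)
        have e2 : (n.factorization p : ℝ) ≤ ((n.factorization p : ℝ) * Real.log p) / Real.log P := by
          rw [le_div_iff₀ hlP]
          exact mul_le_mul_of_nonneg_left hlPp hv
        linarith
      · push Not at hpQ
        have hb : (β p : ℝ) ≤ (N : ℝ) + 1 := by exact_mod_cast h2 p
        have e1 : (n.factorization p : ℝ) * β p ≤ (n.factorization p : ℝ) * ((N : ℝ) + 1) :=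
          mul_le_mul_of_nonneg_left hb hv
        have hlQp : Real.log Q ≤ Real.log p :=
          Real.log_le_log (by linarith) (by exact_mod_cast hpQ.le)
        have e2 : (n.factorization p : ℝ) ≤ ((n.factorization p : ℝ) * Real.log p) / Real.log Q := by
          rw [le_div_iff₀ hlQ]
          exact mul_le_mul_of_nonneg_left hlQp hv
        have e3 : ((N : ℝ) + 1) * (n.factorization p : ℝ) ≤
            ((N : ℝ) + 1) * (((n.factorization p : ℝ) * Real.log p) / Real.log Q) :=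
          mul_le_mul_of_nonneg_left e2 hN
        linarith
  rw [wt_eq_sum, Nat.cast_sum]
  calc ∑ p ∈ n.primeFactors, ((n.factorization p * β p : ℕ) : ℝ)
      ≤ ∑ p ∈ n.primeFactors, ((if p ≤ P then (n.factorization p : ℝ) else 0) +
        ((n.factorization p : ℝ) * Real.log p) / Real.log P +
        (N + 1) * (((n.factorization p : ℝ) * Real.log p) / Real.log Q)) := Finset.sum_le_sum hpt
    _ = (∑ p ∈ n.primeFactors, (if p ≤ P then (n.factorization p : ℝ) else 0)) +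
        Real.log n / Real.log P + (N + 1) * (Real.log n / Real.log Q) := by
      rw [Finset.sum_add_distrib, Finset.sum_add_distrib, ← Finset.sum_div, ← Finset.mul_sum,
        ← Finset.sum_div, ← hlog]
    _ ≤ _ := by linarith

end Pool.Agent.Lib.MP_fed790_nt
end

section

/-! Job C3 -/

namespace Pool.Agent.Lib.MP_fed790_nt

open Finset

/-- (Job C3) `2 ^ OmS P n ≤ n`.
Proof. `∏ p ∈ PS P, p ^ v_p(n)` divides `n` (it is a sub-product of
`Nat.factorization_prod_pow_eq_self`, or use coprimality), and it is at least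
`∏ 2 ^ v_p(n) = 2 ^ OmS P n`. -/
theorem two_pow_OmS_le (P n : ℕ) (hn : n ≠ 0) : 2 ^ OmS P n ≤ n := by
  have h1 : OmS P n ≤ ∑ p ∈ n.primeFactors, n.factorization p := by
    unfold OmS
    calc ∑ p ∈ PS P, n.factorization p
        = ∑ p ∈ (PS P).filter (fun p => p ∈ n.primeFactors), n.factorization p := by
          rw [Finset.sum_filter]
          refine Finset.sum_congr rfl fun p _ => ?_
          split_ifs with h
          · rfl
          · exact Finsupp.notMem_support_iff.1 (by rwa [Nat.support_factorization])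
      _ ≤ ∑ p ∈ n.primeFactors, n.factorization p :=
          Finset.sum_le_sum_of_subset fun p hp => (Finset.mem_filter.1 hp).2
  calc 2 ^ OmS P n ≤ 2 ^ ∑ p ∈ n.primeFactors, n.factorization p :=
        Nat.pow_le_pow_right (by norm_num) h1
    _ = ∏ p ∈ n.primeFactors, 2 ^ n.factorization p := (Finset.prod_pow_eq_pow_sum _ _ _).symm
    _ ≤ ∏ p ∈ n.primeFactors, p ^ n.factorization p :=
        Finset.prod_le_prod' fun p hp =>
          Nat.pow_le_pow_left (Nat.prime_of_mem_primeFactors hp).two_le _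
    _ = n := Nat.prod_factorization_pow_eq_self hn

end Pool.Agent.Lib.MP_fed790_nt
end

section

/-! Job C4a -/

namespace Pool.Agent.Lib.MP_fed790_nt

open Finset

/-- (Job C4a) If `v_p(n+i) ≤ v_p(n+j)` with `i ≠ j`, `i, j < m`, then `v_p(n+i) < m`.
Proof. `p ^ v_p(n+i)` divides `n+i` and (as `v_p(n+i) ≤ v_p(n+j)`) also `n+j`, hence it divides the
difference, which is nonzero of absolute value `< m`; so `p ^ v ≤ m - 1 < m` and
`v < 2 ^ v ≤ p ^ v` (`Nat.lt_two_pow_self`). -/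
theorem factorization_lt_of_le {m n i j p : ℕ} (hn : 1 ≤ n) (hi : i < m) (hj : j < m) (hij : i ≠ j)
    (hp : p.Prime) (h : (n + i).factorization p ≤ (n + j).factorization p) :
    (n + i).factorization p < m := by
  have _ := hn
  set v := (n + i).factorization p with hv
  have h1 : p ^ v ∣ n + i := Nat.ordProj_dvd (n + i) p
  have h2 : p ^ v ∣ n + j := (pow_dvd_pow p h).trans (Nat.ordProj_dvd (n + j) p)
  have hlt : v < 2 ^ v := Nat.lt_two_pow_self
  have hle : 2 ^ v ≤ p ^ v := Nat.pow_le_pow_left hp.two_le v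
  rcases Nat.lt_or_ge i j with hlt' | hge
  · have h3 : p ^ v ∣ (n + j) - (n + i) := Nat.dvd_sub h2 h1
    have h4 : (n + j) - (n + i) = j - i := by omega
    rw [h4] at h3
    have h5 := Nat.le_of_dvd (by omega) h3
    omega
  · have h3 : p ^ v ∣ (n + i) - (n + j) := Nat.dvd_sub h1 h2
    have h4 : (n + i) - (n + j) = i - j := by omega
    rw [h4] at h3
    have h5 := Nat.le_of_dvd (by omega) h3
    omega

end Pool.Agent.Lib.MP_fed790_nt
end

section

/-! Job C4b -/

namespace Pool.Agent.Lib.MP_fed790_nt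

open Finset

private theorem sum_log_aux (A : Finset ℕ) (hA : ∀ a ∈ A, a.Prime) :
    ∑ i ∈ range A.card, Real.log (Nat.nth Nat.Prime i : ℝ) ≤ ∑ a ∈ A, Real.log (a : ℝ) := by
  induction A using Finset.induction_on_max with
  | empty => simp
  | insert a A hmax ih =>
    have ha : a ∉ A := fun h => lt_irrefl _ (hmax a h)
    rw [card_insert_of_notMem ha, sum_range_succ, sum_insert ha, add_comm]
    have hap : a.Prime := hA a (mem_insert_self a A)
    refine add_le_add ?_ (ih fun x hx => hA x (mem_insert_of_mem hx))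
    have h1 : A.card ≤ Nat.count Nat.Prime a := by
      rw [Nat.count_eq_card_filter_range]
      refine card_le_card fun x hx => ?_
      rw [mem_filter, mem_range]
      exact ⟨hmax x hx, hA x (mem_insert_of_mem hx)⟩
    have h2 : Nat.nth Nat.Prime A.card ≤ a := by
      have h3 := Nat.nth_monotone Nat.infinite_setOfPred_prime h1
      rwa [Nat.nth_count hap] at h3
    have h4 : 0 < Nat.nth Nat.Prime A.card := (Nat.prime_nth_prime _).pos
    exact Real.log_le_log (by exact_mod_cast h4) (by exact_mod_cast h2)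

/-- (Job C4b) Distinct primes: the sum of the logarithms of `m` distinct primes is at least the sum
of the logarithms of the first `m` primes.
Proof. Induction on `m`, or: the image `s '' range m` is a set of `m` primes; sort it
increasingly `a_0 < a_1 < ... < a_{m-1}`; then `a_i ≥ Nat.nth Nat.Prime i` (a strictly increasing
sequence of primes dominates the sequence of primes). One convenient way: prove by induction on `m`
for every finset `A` of primes with `A.card = m`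
`∑ i ∈ range m, log (nth Prime i) ≤ ∑ a ∈ A, log a`, removing the maximum `a` of `A`:
`A` is contained in the set of primes `≤ a`, so `m ≤ Nat.primeCounting a`, i.e.
`Nat.nth Nat.Prime (m-1) ≤ a` (`Nat.nth_le_of_lt_count`-type lemmas / `Nat.count`, `Nat.nth_count`,
`Nat.count_nth`). -/
theorem sum_log_nth_prime_le (m : ℕ) (s : ℕ → ℕ) (hs : ∀ i < m, (s i).Prime)
    (hinj : ∀ i < m, ∀ j < m, s i = s j → i = j) :
    ∑ i ∈ range m, Real.log (Nat.nth Nat.Prime i : ℝ) ≤ ∑ i ∈ range m, Real.log (s i : ℝ) := by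
  have h1 := sum_log_aux ((range m).image s) (by
    intro a ha
    obtain ⟨i, hi, rfl⟩ := mem_image.1 ha
    exact hs i (mem_range.1 hi))
  have hinj' : Set.InjOn s (range m : Set ℕ) := by
    intro i hi j hj h
    exact hinj i (mem_range.1 (mem_coe.1 hi)) j (mem_range.1 (mem_coe.1 hj)) h
  rw [card_image_of_injOn hinj', card_range, sum_image hinj'] at h1
  exact h1

end Pool.Agent.Lib.MP_fed790_nt
end

section

/-! Job C7 -/

namespace Pool.Agent.Lib.MP_fed790_nt

open Finset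

private theorem c7aux_bad_card (k N a m : ℕ) (hm : 0 < m) (hmk : m * N < k) :
    ((Icc 1 (N + 1)).filter (fun x => k ∣ a + m * x)).card ≤ 1 := by
  rw [Finset.card_le_one]
  intro x hx y hy
  rw [mem_filter, mem_Icc] at hx hy
  by_contra hne
  wlog hlt : x < y generalizing x y with H
  · exact H y hy x hx (Ne.symm hne) (lt_of_le_of_ne (not_lt.mp hlt) (Ne.symm hne))
  have h1 : k ∣ m * (y - x) := by
    have h0 := (Nat.dvd_sub hy.2 hx.2)
    have h2 : a + m * y - (a + m * x) = m * (y - x) := by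
      rw [Nat.mul_sub]; omega
    rwa [h2] at h0
  have h3 : 0 < m * (y - x) := Nat.mul_pos hm (by omega)
  have h4 : k ≤ m * (y - x) := Nat.le_of_dvd h3 h1
  have h5 : m * (y - x) ≤ m * N := Nat.mul_le_mul_left _ (by omega)
  omega

/-- (Job C7a) One step: changing `β` only at `q`.  If `A` are natural numbers attached to the
elements of `D` (`D.card ≤ N`) and `0 < μ n`, `μ n * N < k`, there is `x ∈ {1, …, N+1}` with
`¬ k ∣ A n + μ n * x` for all `n ∈ D`.
Proof. For each `n ∈ D` at most one `x ∈ Icc 1 (N+1)` satisfies `k ∣ A n + μ n * x`: for two such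
`x < x'`, `k ∣ μ n * (x' - x)` and `0 < μ n * (x' - x) ≤ μ n * N < k`.  So at most
`D.card ≤ N < N + 1` values of `x` are forbidden. -/
theorem exists_value (k N : ℕ) (D : Finset ℕ) (hD : D.card ≤ N) (A μ : ℕ → ℕ)
    (hμ : ∀ n ∈ D, 0 < μ n) (hμk : ∀ n ∈ D, μ n * N < k) :
    ∃ x, 1 ≤ x ∧ x ≤ N + 1 ∧ ∀ n ∈ D, ¬ k ∣ A n + μ n * x := by
  classical
  by_contra hcon
  push Not at hcon
  have hsub : Icc 1 (N + 1) ⊆
      D.biUnion (fun n => (Icc 1 (N + 1)).filter (fun x => k ∣ A n + μ n * x)) := by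
    intro x hx
    rw [mem_Icc] at hx
    obtain ⟨n, hn, hk⟩ := hcon x hx.1 hx.2
    rw [mem_biUnion]
    exact ⟨n, hn, by rw [mem_filter, mem_Icc]; exact ⟨hx, hk⟩⟩
  have h1 := card_le_card hsub
  rw [Nat.card_Icc] at h1
  have h2 := card_biUnion_le (s := D)
    (t := fun n => (Icc 1 (N + 1)).filter (fun x => k ∣ A n + μ n * x))
  have h3 : ∑ n ∈ D, ((Icc 1 (N + 1)).filter (fun x => k ∣ A n + μ n * x)).card ≤ ∑ n ∈ D, 1 :=
    sum_le_sum fun n hn => c7aux_bad_card k N (A n) (μ n) (hμ n hn) (hμk n hn)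
  rw [sum_const, smul_eq_mul, mul_one] at h3
  omega

/-- (Job C7b) Greedy choice of the values at the large primes.
Proof. Prove by induction on `B : ℕ`: there is `β` with `1 ≤ β p ≤ N+1` for all `p`, `β p = 1` for
all `p` not of the form `q n` (`n ∈ D`), and `¬ k ∣ wt β (w n)` for all `n ∈ D` with `q n < B`.
`B = 0`: `β = 1`.  Step `B → B+1`: take `β` from the induction hypothesis; let
`D' = D.filter (q · = B)`; if `D'` is empty keep `β`.  Otherwise apply `exists_value` to `D'` with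
`A n = ∑_{p ∈ (w n).primeFactors, p ≠ B} v_p(w n) β(p)`, `μ n = v_B(w n)` and let
`β' = Function.update β B x`.  For `n ∈ D'`: `wt β' (w n) = A n + μ n * x` (`wt_eq_sum`), fine.  For
`n ∈ D` with `q n < B`: all prime factors of `w n` are `≤ q n < B`, so
`wt β' (w n) = wt β (w n)`.  Finally take `B` larger than all `q n`. -/
theorem greedy (k N : ℕ) (D : Finset ℕ) (hD : D.card ≤ N) (q w : ℕ → ℕ)
    (hq : ∀ n ∈ D, (q n).Prime) (hw : ∀ n ∈ D, w n ≠ 0) (hdvd : ∀ n ∈ D, q n ∣ w n)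
    (hmax : ∀ n ∈ D, ∀ p, p.Prime → p ∣ w n → p ≤ q n)
    (hsmall : ∀ n ∈ D, (w n).factorization (q n) * N < k) :
    ∃ β : ℕ → ℕ, (∀ p, 1 ≤ β p ∧ β p ≤ N + 1) ∧ (∀ p, (∀ n ∈ D, p ≠ q n) → β p = 1) ∧
      ∀ n ∈ D, ¬ k ∣ wt β (w n) := by
  classical
  have key : ∀ B : ℕ, ∃ β : ℕ → ℕ, (∀ p, 1 ≤ β p ∧ β p ≤ N + 1) ∧
      (∀ p, (∀ n ∈ D, p ≠ q n) → β p = 1) ∧ ∀ n ∈ D, q n < B → ¬ k ∣ wt β (w n) := by
    intro B
    induction B with
    | zero =>
      exact ⟨fun _ => 1, fun _ => ⟨le_rfl, Nat.succ_le_succ (Nat.zero_le N)⟩, fun _ _ => rfl,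
        fun n _ h => absurd h (Nat.not_lt_zero _)⟩
    | succ B ih =>
      obtain ⟨β, hβ1, hβ2, hβ3⟩ := ih
      by_cases hB : ∃ n ∈ D, q n = B
      · obtain ⟨n0, hn0, hqn0⟩ := hB
        have hpos : ∀ n ∈ D.filter (fun n => q n = B), 0 < (w n).factorization B := by
          intro n hn
          rw [mem_filter] at hn
          have hp : B.Prime := hn.2 ▸ hq n hn.1
          have hd : B ∣ w n := by
            have := hdvd n hn.1
            rwa [hn.2] at this
          exact hp.factorization_pos_of_dvd (hw n hn.1) hd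
        obtain ⟨x, hx1, hx2, hx3⟩ := exists_value k N (D.filter (fun n => q n = B))
          (le_trans (card_filter_le _ _) hD)
          (fun n => ∑ p ∈ (w n).primeFactors.erase B, (w n).factorization p * β p)
          (fun n => (w n).factorization B) hpos
          (by
            intro n hn
            rw [mem_filter] at hn
            have := hsmall n hn.1
            rw [hn.2] at this
            exact this)
        refine ⟨Function.update β B x, ?_, ?_, ?_⟩
        · intro p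
          by_cases hp : p = B
          · rw [hp, Function.update_self]; exact ⟨hx1, hx2⟩
          · rw [Function.update_of_ne hp]; exact hβ1 p
        · intro p hp
          have hpB : p ≠ B := by
            intro h
            exact hp n0 hn0 (by rw [h, hqn0])
          rw [Function.update_of_ne hpB]
          exact hβ2 p hp
        · intro n hn hlt
          rcases Nat.lt_succ_iff_lt_or_eq.mp hlt with hlt' | heq
          · have hsame : wt (Function.update β B x) (w n) = wt β (w n) := by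
              rw [wt_eq_sum, wt_eq_sum]
              refine sum_congr rfl ?_
              intro p hp
              have hp1 : p.Prime := Nat.prime_of_mem_primeFactors hp
              have hp2 : p ∣ w n := Nat.dvd_of_mem_primeFactors hp
              have hp3 := hmax n hn p hp1 hp2
              have hpB : p ≠ B := by omega
              rw [Function.update_of_ne hpB]
            rw [hsame]
            exact hβ3 n hn hlt'
          · have hmem : n ∈ D.filter (fun n => q n = B) := mem_filter.mpr ⟨hn, heq⟩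
            have hBmem : B ∈ (w n).primeFactors := by
              rw [Nat.mem_primeFactors]
              refine ⟨heq ▸ hq n hn, ?_, hw n hn⟩
              have := hdvd n hn
              rwa [heq] at this
            have hval : wt (Function.update β B x) (w n) =
                ∑ p ∈ (w n).primeFactors.erase B, (w n).factorization p * β p
                  + (w n).factorization B * x := by
              rw [wt_eq_sum, ← sum_erase_add _ _ hBmem, Function.update_self]
              congr 1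
              refine sum_congr rfl ?_
              intro p hp
              rw [Function.update_of_ne (ne_of_mem_erase hp)]
            rw [hval]
            exact hx3 n hmem
      · refine ⟨β, hβ1, hβ2, ?_⟩
        intro n hn hlt
        have hne : q n ≠ B := fun h => hB ⟨n, hn, h⟩
        exact hβ3 n hn (by omega)
  obtain ⟨β, h1, h2, h3⟩ := key (∑ n ∈ D, (q n + 1))
  refine ⟨β, h1, h2, ?_⟩
  intro n hn
  refine h3 n hn ?_
  have : q n + 1 ≤ ∑ n ∈ D, (q n + 1) :=
    single_le_sum (f := fun n => q n + 1) (fun i _ => Nat.zero_le _) hn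
  omega

end Pool.Agent.Lib.MP_fed790_nt
end

section

/-! Job C4 -/

namespace Pool.Agent.Lib.MP_fed790_nt

open Finset

/-- (Job C4) The gap principle.  Let `1 ≤ n < n'`, and suppose that each of `n, …, n+m-1` has at
least `K + m * π(P)` prime factors `≤ P` (with multiplicity), `K > 0`, and that
`v_p(n+i) ≤ v_p(n'+i) + H` for all `p ≤ P`, `i < m`.  Then `n' - n` is large.

Proof. Write `v(p,i) = (n+i).factorization p`, `v'(p,i) = (n'+i).factorization p`.  For
`p ∈ PS P` choose `I p < m` maximising `v(p, ·)` on `range m` (`Finset.exists_max_image`).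
1. For `i < m`, `i ≠ I p`: `v(p,i) < m` by `factorization_lt_of_le`.  Hence for every `i < m`
   `K + m * (PS P).card ≤ ∑_{p ∈ PS P} v(p,i) ≤ ∑_{p ∈ PS P, I p = i} v(p,i) + m * (PS P).card`,
   so `K ≤ ∑_{p ∈ PS P, I p = i} v(p,i)`.  As `K > 0` the set `S_i = {p ∈ PS P, I p = i}` is
   nonempty; let `s i` be its minimum.  The `S_i` are pairwise disjoint, so the `s i` are distinct
   primes, and `∑_{p ∈ S_i} v(p,i) log p ≥ log (s i) * K`.
2. Summing over `i < m` (the `S_i` partition `PS P`: `Finset.sum_fiberwise_of_maps_to`) and using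
   `sum_log_nth_prime_le`:
   `∑_{p ∈ PS P} v(p, I p) log p ≥ K * ∑_{i<m} log (nth Prime i)`.
3. For `p ∈ PS P` let `u p = min (v(p, I p)) (v'(p, I p))`.  Then `p ^ u p` divides `n + I p` and
   `n' + I p`, so it divides `n' - n`.  By coprimality `∏_{p ∈ PS P} p ^ u p ∣ n' - n`
   (`Finset.prod_primes_dvd`-like / `Nat.Coprime`-products: `Finset.prod_dvd_of_coprime`), hence
   `∑_{p ∈ PS P} u p * log p ≤ log (n' - n)`.
4. `u p ≥ v(p, I p) - H`, so `∑ u p log p ≥ ∑ v(p, I p) log p - H * ∑ log p`. -/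
theorem gap_core (m P : ℕ) (n n' : ℕ) (hn : 1 ≤ n) (hnn' : n < n') (K H : ℝ)
    (hK : 0 < K) (hH : 0 ≤ H)
    (hOm : ∀ i < m, K + m * (PS P).card ≤ OmS P (n + i))
    (hclose : ∀ i < m, ∀ p ∈ PS P,
      ((n + i).factorization p : ℝ) ≤ (n' + i).factorization p + H) :
    K * (∑ i ∈ range m, Real.log (Nat.nth Nat.Prime i : ℝ)) - H * (∑ p ∈ PS P, Real.log (p : ℝ))
      ≤ Real.log ((n' : ℝ) - n) := by
  classical
  have hd1 : (1 : ℝ) ≤ (n' : ℝ) - n := by
    have : (n : ℝ) + 1 ≤ n' := by exact_mod_cast hnn'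
    linarith
  have hlogp : ∀ p ∈ PS P, 0 ≤ Real.log (p : ℝ) := fun p _ => Real.log_natCast_nonneg p
  rcases Nat.eq_zero_or_pos m with rfl | hm
  · simp only [Finset.range_zero, Finset.sum_empty, mul_zero, zero_sub]
    have h1 : 0 ≤ H * ∑ p ∈ PS P, Real.log (p : ℝ) := mul_nonneg hH (Finset.sum_nonneg hlogp)
    have h2 := Real.log_nonneg hd1
    linarith
  -- choose maximisers
  have hI : ∀ p : ℕ, ∃ i ∈ range m, ∀ j ∈ range m,
      (n + j).factorization p ≤ (n + i).factorization p := fun p =>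
    Finset.exists_max_image (range m) (fun i => (n + i).factorization p)
      ⟨0, Finset.mem_range.2 hm⟩
  choose I hIm hImax using hI
  let v : ℕ → ℕ → ℕ := fun p i => (n + i).factorization p
  let S : ℕ → Finset ℕ := fun i => (PS P).filter (fun p => I p = i)
  -- step 1
  have h1 : ∀ i < m, K ≤ ∑ p ∈ S i, (v p i : ℝ) := by
    intro i hi
    have hlt : ∀ p ∈ PS P, I p ≠ i → v p i ≤ m := by
      intro p hp hne
      exact (factorization_lt_of_le hn hi (Finset.mem_range.1 (hIm p)) (Ne.symm hne)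
        (mem_PS.1 hp).2 (hImax p i (Finset.mem_range.2 hi))).le
    have h2 := hOm i hi
    have h3 : (OmS P (n + i) : ℝ) = ∑ p ∈ PS P, (v p i : ℝ) := by
      simp only [OmS, v]; push_cast; rfl
    have h4 : ∑ p ∈ PS P, (v p i : ℝ) = ∑ p ∈ S i, (v p i : ℝ)
        + ∑ p ∈ (PS P).filter (fun p => ¬ I p = i), (v p i : ℝ) :=
      (Finset.sum_filter_add_sum_filter_not _ _ _).symm
    have h5 : ∑ p ∈ (PS P).filter (fun p => ¬ I p = i), (v p i : ℝ) ≤ m * (PS P).card := by
      calc ∑ p ∈ (PS P).filter (fun p => ¬ I p = i), (v p i : ℝ)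
          ≤ ∑ p ∈ (PS P).filter (fun p => ¬ I p = i), (m : ℝ) :=
            Finset.sum_le_sum fun p hp => by
              rw [Finset.mem_filter] at hp
              exact_mod_cast hlt p hp.1 hp.2
        _ = ((PS P).filter (fun p => ¬ I p = i)).card * (m : ℝ) := by
            rw [Finset.sum_const, nsmul_eq_mul]
        _ ≤ (PS P).card * (m : ℝ) := by
            refine mul_le_mul_of_nonneg_right ?_ (Nat.cast_nonneg m)
            exact_mod_cast Finset.card_filter_le _ _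
        _ = _ := mul_comm _ _
    linarith
  have hne : ∀ i < m, (S i).Nonempty := by
    intro i hi
    by_contra hc
    rw [Finset.not_nonempty_iff_eq_empty] at hc
    have h2 := h1 i hi
    rw [hc, Finset.sum_empty] at h2
    linarith
  let s : ℕ → ℕ := fun i => if h : (S i).Nonempty then (S i).min' h else 0
  have hs : ∀ i < m, s i ∈ S i := by
    intro i hi
    simp only [s, dif_pos (hne i hi)]
    exact Finset.min'_mem _ _
  have hsmin : ∀ i < m, ∀ p ∈ S i, s i ≤ p := by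
    intro i hi p hp
    simp only [s, dif_pos (hne i hi)]
    exact Finset.min'_le _ _ hp
  have hsP : ∀ i < m, s i ∈ PS P := fun i hi => (Finset.mem_filter.1 (hs i hi)).1
  have hsp : ∀ i < m, (s i).Prime := fun i hi => (mem_PS.1 (hsP i hi)).2
  have hsinj : ∀ i < m, ∀ j < m, s i = s j → i = j := by
    intro i hi j hj h
    have a : I (s i) = i := (Finset.mem_filter.1 (hs i hi)).2
    have b : I (s j) = j := (Finset.mem_filter.1 (hs j hj)).2
    rw [h, b] at a
    exact a.symm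
  -- step 2
  have h6 : ∀ i ∈ range m, K * Real.log (s i : ℝ) ≤ ∑ p ∈ S i, (v p i : ℝ) * Real.log p := by
    intro i hi
    have hi' := Finset.mem_range.1 hi
    have hl : 0 ≤ Real.log (s i : ℝ) := Real.log_natCast_nonneg _
    calc K * Real.log (s i : ℝ) ≤ (∑ p ∈ S i, (v p i : ℝ)) * Real.log (s i : ℝ) :=
          mul_le_mul_of_nonneg_right (h1 i hi') hl
      _ = ∑ p ∈ S i, (v p i : ℝ) * Real.log (s i : ℝ) := Finset.sum_mul _ _ _
      _ ≤ ∑ p ∈ S i, (v p i : ℝ) * Real.log p := by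
          refine Finset.sum_le_sum fun p hp => mul_le_mul_of_nonneg_left ?_ (Nat.cast_nonneg _)
          refine Real.log_le_log ?_ ?_
          · exact_mod_cast (hsp i hi').pos
          · exact_mod_cast hsmin i hi' p hp
  have h7 : K * ∑ i ∈ range m, Real.log (Nat.nth Nat.Prime i : ℝ) ≤
      ∑ p ∈ PS P, (v p (I p) : ℝ) * Real.log p := by
    calc K * ∑ i ∈ range m, Real.log (Nat.nth Nat.Prime i : ℝ)
        ≤ K * ∑ i ∈ range m, Real.log (s i : ℝ) :=
          mul_le_mul_of_nonneg_left (sum_log_nth_prime_le m s hsp hsinj) hK.le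
      _ = ∑ i ∈ range m, K * Real.log (s i : ℝ) := Finset.mul_sum _ _ _
      _ ≤ ∑ i ∈ range m, ∑ p ∈ S i, (v p i : ℝ) * Real.log p := Finset.sum_le_sum h6
      _ = ∑ i ∈ range m, ∑ p ∈ S i, (v p (I p) : ℝ) * Real.log p := by
          refine Finset.sum_congr rfl fun i _ => Finset.sum_congr rfl fun p hp => ?_
          rw [(Finset.mem_filter.1 hp).2]
      _ = ∑ p ∈ PS P, (v p (I p) : ℝ) * Real.log p :=
          Finset.sum_fiberwise_of_maps_to (fun p _ => hIm p) _
  -- step 3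
  let u : ℕ → ℕ := fun p => min (v p (I p)) ((n' + I p).factorization p)
  have hdiv : ∀ p ∈ PS P, p ^ u p ∣ n' - n := by
    intro p _
    have a1 : p ^ u p ∣ n + I p :=
      (pow_dvd_pow p (min_le_left _ _)).trans (Nat.ordProj_dvd (n + I p) p)
    have a2 : p ^ u p ∣ n' + I p :=
      (pow_dvd_pow p (min_le_right _ _)).trans (Nat.ordProj_dvd (n' + I p) p)
    have a3 : n' - n = (n' + I p) - (n + I p) := by omega
    rw [a3]
    exact Nat.dvd_sub a2 a1
  have h8 : ∏ p ∈ PS P, p ^ u p ∣ n' - n := by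
    refine Finset.prod_dvd_of_isRelPrime ?_ hdiv
    intro p hp q hq hpq
    have hp' := (mem_PS.1 (Finset.mem_coe.1 hp)).2
    have hq' := (mem_PS.1 (Finset.mem_coe.1 hq)).2
    have hc : Nat.Coprime (p ^ u p) (q ^ u q) :=
      Nat.Coprime.pow _ _ ((Nat.coprime_primes hp' hq').2 hpq)
    exact Nat.coprime_iff_isRelPrime.1 hc
  have hpos : 0 < n' - n := by omega
  have h9 : ∑ p ∈ PS P, (u p : ℝ) * Real.log p ≤ Real.log ((n' : ℝ) - n) := by
    have hle := Nat.le_of_dvd hpos h8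
    have e1 : Real.log ((∏ p ∈ PS P, p ^ u p : ℕ) : ℝ) = ∑ p ∈ PS P, (u p : ℝ) * Real.log p := by
      push_cast
      rw [Real.log_prod (fun p hp => ?_)]
      · exact Finset.sum_congr rfl fun p _ => Real.log_pow _ _
      · exact pow_ne_zero _ (by exact_mod_cast (mem_PS.1 hp).2.ne_zero)
    rw [← e1]
    have e2 : ((n' - n : ℕ) : ℝ) = (n' : ℝ) - n := by
      rw [Nat.cast_sub hnn'.le]
    rw [← e2]
    refine Real.log_le_log ?_ (by exact_mod_cast hle)
    have : 0 < ∏ p ∈ PS P, p ^ u p :=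
      Finset.prod_pos fun p hp => pow_pos (mem_PS.1 hp).2.pos _
    exact_mod_cast this
  -- step 4
  have h10 : ∑ p ∈ PS P, (v p (I p) : ℝ) * Real.log p - H * ∑ p ∈ PS P, Real.log (p : ℝ)
      ≤ ∑ p ∈ PS P, (u p : ℝ) * Real.log p := by
    rw [Finset.mul_sum, ← Finset.sum_sub_distrib]
    refine Finset.sum_le_sum fun p hp => ?_
    rw [← sub_mul]
    refine mul_le_mul_of_nonneg_right ?_ (hlogp p hp)
    have a1 := hclose (I p) (Finset.mem_range.1 (hIm p)) p hp
    have a2 : ((u p : ℕ) : ℝ) = min (v p (I p) : ℝ) ((n' + I p).factorization p : ℝ) := by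
      simp only [u]; push_cast; rfl
    rw [a2, le_min_iff]
    constructor
    · linarith
    · simp only [v]; linarith
  linarith

end Pool.Agent.Lib.MP_fed790_nt
end

section

/-! Job C5 -/

namespace Pool.Agent.Lib.MP_fed790_nt

open Finset

/-- (Job C5) Bounded number of exceptional `n`.
Proof. Let `Γ = ∑_{i<m} log (nth Prime i)`, `θ = ∑_{p ∈ PS P} log p ≥ 0`.  Note `δ < 1`
(as `γ ≥ 0` and `Γ ≥ 0`).  Put `Δ = (1-δ)Γ - γ > 0`
and choose `η > 0` with `η θ ≤ Δ/3`, `η ≤ 1` (e.g. `η = min 1 (Δ / (3 (θ + 1)))`).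
Every `n ∈ D` has `v_p(n+i) ≤ log (n+i)/log 2` and `n + i ≤ exp(γ k) + m ≤ (m+1) exp (γ k)`, so for
`k ≥ log (m+1)` we have `v_p(n+i) ≤ (γ+1) k / log 2`.  Let
`f n : range m × PS P → ℕ`, `f n (i,p) = ⌊v_p(n+i) / (η k)⌋₊`; its values are
`≤ L := ⌊(γ+1)/(η log 2)⌋₊`, so `f` takes at most `N := (L+1) ^ (m * (PS P).card)` values
(`Finset.card_le_card_of_injOn` into `Fintype.piFinset`/`Fin m × PS P → Fin (L+1)`).
`f` is injective on `D` when `k` is large: let `n < n'` in `D` with `f n = f n'`.  Then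
`|v_p(n+i) - v_p(n'+i)| ≤ η k =: H` for all `i < m`, `p ∈ PS P`.  Apply `gap_core` with
`K = (1-δ) k - m * (PS P).card`, positive for large `k`:
`K Γ - η k θ ≤ log (n' - n) < γ k` (as `n' - n < exp(γ k)`; `n' - n ≥ 1`), i.e.
`k ((1-δ)Γ - ηθ - γ) < m (PS P).card Γ`, i.e. `k * (2Δ/3) < m (PS P).card Γ`, false for large `k`. -/
theorem gap (m : ℕ) (γ δ : ℝ) (hδ : 0 < δ) (hγ : 0 ≤ γ)
    (h : γ < (1 - δ) * ∑ i ∈ range m, Real.log (Nat.nth Nat.Prime i : ℝ)) (P : ℕ) :
    ∃ N k0 : ℕ, ∀ k ≥ k0, ∀ D : Finset ℕ,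
      (∀ n ∈ D, 1 ≤ n ∧ (n : ℝ) < Real.exp (γ * k) ∧ ∀ i < m, (1 - δ) * k ≤ OmS P (n + i)) →
      D.card ≤ N := by
  classical
  have hΓ : 0 ≤ ∑ i ∈ range m, Real.log (Nat.nth Nat.Prime i : ℝ) :=
    Finset.sum_nonneg fun i _ => Real.log_natCast_nonneg _
  have hθ : 0 ≤ ∑ p ∈ PS P, Real.log (p : ℝ) :=
    Finset.sum_nonneg fun i _ => Real.log_natCast_nonneg _
  have hgc := gap_core m P
  generalize (∑ i ∈ range m, Real.log (Nat.nth Nat.Prime i : ℝ)) = Γ at h hΓ hgc
  generalize (∑ p ∈ PS P, Real.log (p : ℝ)) = θ at hθ hgc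
  have h1δ : 0 < 1 - δ := by
    by_contra hcon
    push Not at hcon
    have := mul_nonneg (neg_nonneg.2 hcon) hΓ
    nlinarith
  have hlog2 : 0 < Real.log 2 := Real.log_pos (by norm_num)
  obtain ⟨Δ, hΔdef⟩ : ∃ Δ : ℝ, Δ = (1 - δ) * Γ - γ := ⟨_, rfl⟩
  have hΔ : 0 < Δ := by rw [hΔdef]; linarith
  obtain ⟨η, hηdef⟩ : ∃ η : ℝ, η = Δ / (3 * (θ + 1)) := ⟨_, rfl⟩
  have hη : 0 < η := by rw [hηdef]; positivity
  have hηθ : η * θ ≤ Δ / 3 := by
    have h1 : η * (θ + 1) = Δ / 3 := by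
      rw [hηdef]
      field_simp
    nlinarith
  obtain ⟨Q, hQ⟩ : ∃ Q : ℕ, Q = (PS P).card := ⟨_, rfl⟩
  rw [← hQ] at hgc
  refine ⟨(⌊(γ + 1) / (η * Real.log 2)⌋₊ + 1) ^ (m * Q),
    ⌈Real.log (m + 1)⌉₊ + ⌈(m * Q : ℝ) / (1 - δ)⌉₊ + ⌈(m * Q * Γ : ℝ) / (2 * Δ / 3)⌉₊ + 1, ?_⟩
  intro k hk D hD
  have hkr : ((⌈Real.log (m + 1)⌉₊ + ⌈(m * Q : ℝ) / (1 - δ)⌉₊ + ⌈(m * Q * Γ : ℝ) / (2 * Δ / 3)⌉₊ + 1 : ℕ) : ℝ)
      ≤ k := by exact_mod_cast hk
  push_cast at hkr
  have hc1 : Real.log (m + 1) ≤ (⌈Real.log (m + 1)⌉₊ : ℝ) := Nat.le_ceil _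
  have hc2 : (m * Q : ℝ) / (1 - δ) ≤ (⌈(m * Q : ℝ) / (1 - δ)⌉₊ : ℝ) := Nat.le_ceil _
  have hc3 : (m * Q * Γ : ℝ) / (2 * Δ / 3) ≤ (⌈(m * Q * Γ : ℝ) / (2 * Δ / 3)⌉₊ : ℝ) := Nat.le_ceil _
  have hn1 : (0 : ℝ) ≤ (⌈Real.log (m + 1)⌉₊ : ℝ) := Nat.cast_nonneg _
  have hn2 : (0 : ℝ) ≤ (⌈(m * Q : ℝ) / (1 - δ)⌉₊ : ℝ) := Nat.cast_nonneg _
  have hn3 : (0 : ℝ) ≤ (⌈(m * Q * Γ : ℝ) / (2 * Δ / 3)⌉₊ : ℝ) := Nat.cast_nonneg _
  have hklog : Real.log (m + 1) ≤ k := by linarith
  have hk2 : (m * Q : ℝ) < (1 - δ) * k := by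
    have h1 : (m * Q : ℝ) / (1 - δ) < k := by linarith
    rw [div_lt_iff₀ h1δ] at h1
    linarith
  have hk3 : (m * Q * Γ : ℝ) < k * (2 * Δ / 3) := by
    have h1 : (m * Q * Γ : ℝ) / (2 * Δ / 3) < k := by linarith
    rwa [div_lt_iff₀ (by positivity)] at h1
  have hk0 : (0 : ℝ) < k := by linarith
  have hηk : 0 < η * k := by positivity
  let f : ℕ → (Fin m × {p // p ∈ PS P}) → ℕ := fun n x =>
    ⌊((n + (x.1 : ℕ)).factorization (x.2 : ℕ) : ℝ) / (η * k)⌋₊
  have hmaps : ∀ n ∈ D, f n ∈ Fintype.piFinset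
      (fun _ : Fin m × {p // p ∈ PS P} => range (⌊(γ + 1) / (η * Real.log 2)⌋₊ + 1)) := by
    intro n hn
    obtain ⟨h1, h2, _⟩ := hD n hn
    rw [Fintype.mem_piFinset]
    intro x
    rw [mem_range, Nat.lt_succ_iff]
    apply Nat.floor_le_floor
    rw [div_le_div_iff₀ hηk (by positivity)]
    have hv : ((n + (x.1 : ℕ)).factorization (x.2 : ℕ) : ℝ) * Real.log 2 ≤ (γ + 1) * k := by
      have h3 : (n + (x.1 : ℕ)).factorization (x.2 : ℕ) ≤ OmS P (n + x.1) := by
        unfold OmS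
        exact Finset.single_le_sum (f := fun p => (n + (x.1 : ℕ)).factorization p)
          (fun _ _ => Nat.zero_le _) x.2.2
      have h4 : 2 ^ (n + (x.1 : ℕ)).factorization (x.2 : ℕ) ≤ n + (x.1 : ℕ) :=
        le_trans (Nat.pow_le_pow_right (by norm_num) h3) (two_pow_OmS_le P _ (by omega))
      have h5 : (2 : ℝ) ^ (n + (x.1 : ℕ)).factorization (x.2 : ℕ) ≤ (n : ℝ) + (x.1 : ℕ) := by
        exact_mod_cast h4
      have h6 : ((n + (x.1 : ℕ)).factorization (x.2 : ℕ) : ℝ) * Real.log 2 ≤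
          Real.log ((n : ℝ) + (x.1 : ℕ)) := by
        rw [← Real.log_pow]
        exact Real.log_le_log (by positivity) h5
      have h7 : ((x.1 : ℕ) : ℝ) ≤ m := by exact_mod_cast x.1.2.le
      have h8 : (1 : ℝ) ≤ Real.exp (γ * k) := Real.one_le_exp (by positivity)
      have hm0 : (0 : ℝ) ≤ m := Nat.cast_nonneg m
      have h9 : (n : ℝ) + (x.1 : ℕ) ≤ (m + 1) * Real.exp (γ * k) := by nlinarith
      have h10 : Real.log ((n : ℝ) + (x.1 : ℕ)) ≤ Real.log (m + 1) + γ * k := by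
        have h11 : (0 : ℝ) < (n : ℝ) + (x.1 : ℕ) := by
          have : (1 : ℝ) ≤ n := by exact_mod_cast h1
          have : (0 : ℝ) ≤ (x.1 : ℕ) := Nat.cast_nonneg _
          linarith
        refine le_trans (Real.log_le_log h11 h9) ?_
        rw [Real.log_mul (by positivity) (Real.exp_pos _).ne', Real.log_exp]
      linarith
    calc ((n + (x.1 : ℕ)).factorization (x.2 : ℕ) : ℝ) * (η * Real.log 2)
        = η * (((n + (x.1 : ℕ)).factorization (x.2 : ℕ) : ℝ) * Real.log 2) := by ring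
      _ ≤ η * ((γ + 1) * k) := mul_le_mul_of_nonneg_left hv hη.le
      _ = (γ + 1) * (η * k) := by ring
  have key : ∀ n ∈ D, ∀ n' ∈ D, n < n' → f n = f n' → False := by
    intro n hn n' hn' hlt hf
    obtain ⟨h1, h2, h3⟩ := hD n hn
    obtain ⟨h1', h2', h3'⟩ := hD n' hn'
    have hcl : ∀ i < m, ∀ p ∈ PS P,
        ((n + i).factorization p : ℝ) ≤ (n' + i).factorization p + η * k := by
      intro i hi p hp
      have h4 : ⌊((n + i).factorization p : ℝ) / (η * k)⌋₊ =
          ⌊((n' + i).factorization p : ℝ) / (η * k)⌋₊ := congrFun hf (⟨i, hi⟩, ⟨p, hp⟩)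
      have h5 := Nat.lt_floor_add_one (((n + i).factorization p : ℝ) / (η * k))
      have h6 : ((⌊((n' + i).factorization p : ℝ) / (η * k)⌋₊ : ℕ) : ℝ) ≤
          ((n' + i).factorization p : ℝ) / (η * k) := Nat.floor_le (by positivity)
      rw [h4] at h5
      have h7 : ((n + i).factorization p : ℝ) / (η * k) <
          ((n' + i).factorization p : ℝ) / (η * k) + 1 := by linarith
      rw [div_add_one hηk.ne', div_lt_div_iff_of_pos_right hηk] at h7
      exact h7.le
    have h4 := hgc n n' h1 hlt ((1 - δ) * k - m * Q) (η * k) (by linarith) hηk.le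
      (fun i hi => by linarith [h3 i hi]) hcl
    have h5 : (0 : ℝ) < (n' : ℝ) - n := by
      have : (n : ℝ) < n' := by exact_mod_cast hlt
      linarith
    have h6 : Real.log ((n' : ℝ) - n) ≤ γ * k := by
      rw [← Real.log_exp (γ * k)]
      refine Real.log_le_log h5 ?_
      have : (0 : ℝ) ≤ n := Nat.cast_nonneg n
      linarith
    have h7 : k * (η * θ) ≤ k * (Δ / 3) := mul_le_mul_of_nonneg_left hηθ hk0.le
    have h8 : (k : ℝ) * Δ = k * ((1 - δ) * Γ - γ) := by rw [hΔdef]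
    nlinarith
  have hinj : Set.InjOn f (D : Set ℕ) := by
    intro n hn n' hn' hf
    rcases lt_trichotomy n n' with hlt | heq | hlt
    · exact (key n (Finset.mem_coe.1 hn) n' (Finset.mem_coe.1 hn') hlt hf).elim
    · exact heq
    · exact (key n' (Finset.mem_coe.1 hn') n (Finset.mem_coe.1 hn) hlt hf.symm).elim
  refine (Finset.card_le_card_of_injOn f hmaps hinj).trans ?_
  rw [Fintype.card_piFinset]
  simp [hQ]

end Pool.Agent.Lib.MP_fed790_nt
end

section

/-! Job C8 -/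

namespace Pool.Agent.Lib.MP_fed790_nt

open Finset

/-- (Job C8) The combinatorial theorem: for large `k` there is a completely additive function
`wt β` with `β 2 = 1` such that no `n < c^k` has all of `wt β n, …, wt β (n+m-1)` divisible by `k`.

Proof. Let `Γ = ∑_{i<m} log (nth Prime i) = log ∏`, `γ = log c`, `0 ≤ γ < Γ`.  Choose `δ ∈ (0,1)`
with `γ < (1-δ) Γ` (e.g. `δ = (Γ-γ)/(2Γ)`), then `P ≥ 2` with `(γ+1)/log P ≤ δ/2`.
Let `N, k1` come from `gap` (for `m, γ, δ, P`).  Choose `Q ≥ max P m` with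
`(N+1)(γ+1)/log Q ≤ δ/2` and `N (γ+1)/log Q < 1` (automatic if `δ/2 < 1`).  Let `B` come from
`stormer Q`.  Let `k ≥ k0` be large: `k ≥ k1`, `k ≥ 2`, `log (m+1) ≤ k`, and
`B + m ≤ 2 ^ ((1-δ)k)` (real power), `k ≥ 3`.
Let `D` be the finset of all `n ∈ [1, c^k)` with `(1-δ) k ≤ OmS P (n+i)` for all `i < m`
(finite: `n ≤ ⌈c^k⌉`; note `c^k = exp(γ k)`), so `D.card ≤ N`.
For `n ∈ D`: `n + i ≥ 2^{OmS P (n+i)} ≥ 2^{(1-δ)k} ≥ B` (`two_pow_OmS_le`, `i = 0`), so there is a
prime `> Q` dividing `n(n+1)`.  Let `q n` be the largest prime factor of `∏_{i<m} (n+i)`; since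
`m ≥ 2`, `q n > Q ≥ m`.  Choose `I n < m` with `q n ∣ n + I n`, `w n = n + I n`; then all primes
dividing `w n` are `≤ q n`, and `v := (w n).factorization (q n)` satisfies
`v log Q ≤ v log (q n) ≤ log (w n) ≤ log (c^k + m) ≤ γ k + log(m+1) ≤ (γ+1) k`, so
`v N ≤ N (γ+1) k/log Q < k`.
Take `β` from `greedy k N D …`.  All `q n > Q`, so `β p = 1` for `p ≤ Q`; in particular `β 2 = 1`.
Now let `1 ≤ n < c^k` and suppose `k ∣ wt β (n+i)` for all `i < m`.  If `n = 1`:
`wt β (1+1) = β 2 = 1`, contradiction to `k ≥ 2` (`m ≥ 2`, `i = 1`).  Otherwise `n + i ≥ 2`, so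
`wt β (n+i) ≥ 1` (it has a prime factor and `β ≥ 1`), hence `wt β (n+i) ≥ k`.  By `wt_le`
(with `log (n+i) ≤ (γ+1) k`), `k ≤ OmS P (n+i) + (δ/2) k + (δ/2) k`, so
`(1-δ) k ≤ OmS P (n+i)` for all `i < m`, i.e. `n ∈ D`; but `¬ k ∣ wt β (w n)`, contradiction. -/
theorem exists_beta (m : ℕ) (hm : 2 ≤ m) (c : ℝ) (hc1 : 1 ≤ c)
    (hc : c < ∏ i ∈ range m, (Nat.nth Nat.Prime i : ℝ)) :
    ∃ k0 : ℕ, ∀ k ≥ k0, ∃ β : ℕ → ℕ, β 2 = 1 ∧
      ∀ n : ℕ, 1 ≤ n → (n : ℝ) < c ^ k → ∃ i < m, ¬ k ∣ wt β (n + i) := by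
  classical
  have hnth : ∀ i ∈ range m, (Nat.nth Nat.Prime i : ℝ) ≠ 0 := by
    intro i _
    exact_mod_cast (Nat.prime_nth_prime i).ne_zero
  obtain ⟨Γ, hΓdef⟩ : ∃ Γ : ℝ, Γ = ∑ i ∈ range m, Real.log (Nat.nth Nat.Prime i : ℝ) := ⟨_, rfl⟩
  have hΓlog : Γ = Real.log (∏ i ∈ range m, (Nat.nth Nat.Prime i : ℝ)) := by
    rw [hΓdef, Real.log_prod hnth]
  obtain ⟨γ, hγdef⟩ : ∃ γ : ℝ, γ = Real.log c := ⟨_, rfl⟩
  have hc0 : 0 < c := by linarith
  have hγ0 : 0 ≤ γ := by rw [hγdef]; exact Real.log_nonneg hc1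
  have hγΓ : γ < Γ := by
    rw [hγdef, hΓlog]
    exact Real.log_lt_log hc0 hc
  have hΓ0 : 0 < Γ := by linarith
  obtain ⟨δ, hδdef⟩ : ∃ δ : ℝ, δ = (Γ - γ) / (2 * Γ) := ⟨_, rfl⟩
  have hδ0 : 0 < δ := by
    rw [hδdef]
    exact div_pos (by linarith) (by linarith)
  have hδΓ : δ * Γ = (Γ - γ) / 2 := by
    rw [hδdef]
    field_simp
  have hδ1 : δ ≤ 1 / 2 := by
    rw [hδdef, div_le_iff₀ (by linarith)]
    linarith
  have hgap0 : γ < (1 - δ) * ∑ i ∈ range m, Real.log (Nat.nth Nat.Prime i : ℝ) := by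
    rw [← hΓdef]
    nlinarith
  -- choice of P
  obtain ⟨P, hP2, hPlog⟩ : ∃ P : ℕ, 2 ≤ P ∧ γ + 1 ≤ δ / 2 * Real.log P := by
    refine ⟨⌈Real.exp (2 * (γ + 1) / δ)⌉₊ + 2, by omega, ?_⟩
    have h1 : Real.exp (2 * (γ + 1) / δ) ≤ ((⌈Real.exp (2 * (γ + 1) / δ)⌉₊ + 2 : ℕ) : ℝ) := by
      push_cast
      linarith [Nat.le_ceil (Real.exp (2 * (γ + 1) / δ))]
    have h2 : 2 * (γ + 1) / δ ≤ Real.log ((⌈Real.exp (2 * (γ + 1) / δ)⌉₊ + 2 : ℕ) : ℝ) := by
      rw [← Real.log_exp (2 * (γ + 1) / δ)]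
      exact Real.log_le_log (Real.exp_pos _) (by rwa [Real.log_exp])
    rw [div_le_iff₀ hδ0] at h2
    linarith
  obtain ⟨N, k1, hgap⟩ := gap m γ δ hδ0 hγ0 hgap0 P
  -- choice of Q
  obtain ⟨Q, hQP, hQm, hQlog⟩ : ∃ Q : ℕ, P ≤ Q ∧ m ≤ Q ∧ (N + 1) * (γ + 1) ≤ δ / 2 * Real.log Q := by
    refine ⟨⌈Real.exp (2 * ((N + 1) * (γ + 1)) / δ)⌉₊ + P + m, by omega, by omega, ?_⟩
    have h1 : Real.exp (2 * ((N + 1) * (γ + 1)) / δ) ≤
        ((⌈Real.exp (2 * ((N + 1) * (γ + 1)) / δ)⌉₊ + P + m : ℕ) : ℝ) := by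
      push_cast
      have h2 := Nat.le_ceil (Real.exp (2 * ((N + 1) * (γ + 1)) / δ))
      have h3 : (0 : ℝ) ≤ P := Nat.cast_nonneg _
      have h4 : (0 : ℝ) ≤ m := Nat.cast_nonneg _
      linarith
    have h2 : 2 * ((N + 1) * (γ + 1)) / δ ≤
        Real.log ((⌈Real.exp (2 * ((N + 1) * (γ + 1)) / δ)⌉₊ + P + m : ℕ) : ℝ) := by
      rw [← Real.log_exp (2 * ((N + 1) * (γ + 1)) / δ)]
      exact Real.log_le_log (Real.exp_pos _) (by rwa [Real.log_exp])
    rw [div_le_iff₀ hδ0] at h2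
    linarith
  have hQ2 : 2 ≤ Q := hP2.trans hQP
  have hlQ : 0 < Real.log Q := Real.log_pos (by exact_mod_cast hQ2)
  have hlP : 0 < Real.log P := Real.log_pos (by exact_mod_cast hP2)
  have hNQ : N * (γ + 1) < Real.log Q := by
    have h1 : δ / 2 * Real.log Q < Real.log Q := by nlinarith
    nlinarith
  obtain ⟨B, hB⟩ := stormer Q
  have h1δ : 0 < 1 - δ := by linarith
  refine ⟨k1 + 3 + ⌈Real.log (m + 1)⌉₊ + ⌈(B : ℝ) / (1 - δ)⌉₊, fun k hk => ?_⟩
  have hk1 : k1 ≤ k := by omega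
  have hk3 : 3 ≤ k := by omega
  have hkm : Real.log (m + 1) ≤ k := by
    refine (Nat.le_ceil _).trans ?_
    exact_mod_cast (by omega : ⌈Real.log (m + 1)⌉₊ ≤ k)
  have hkB : (B : ℝ) ≤ (1 - δ) * k := by
    have h1 : (B : ℝ) / (1 - δ) ≤ k := by
      refine (Nat.le_ceil _).trans ?_
      exact_mod_cast (by omega : ⌈(B : ℝ) / (1 - δ)⌉₊ ≤ k)
    rw [div_le_iff₀ h1δ] at h1
    linarith
  have hk0 : (0 : ℝ) < k := by
    have : 0 < k := by omega
    exact_mod_cast this
  have hck : c ^ k = Real.exp (γ * k) := by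
    rw [mul_comm, Real.exp_nat_mul, hγdef, Real.exp_log hc0]
  have hck1 : 1 ≤ c ^ k := one_le_pow₀ hc1
  -- the logarithm
  have hlogb : ∀ n : ℕ, 1 ≤ n → (n : ℝ) < c ^ k → ∀ i < m, Real.log ((n + i : ℕ) : ℝ) ≤ (γ + 1) * k := by
    intro n hn1 hnc i hi
    have h1 : ((n + i : ℕ) : ℝ) ≤ (m + 1) * c ^ k := by
      push_cast
      have h2 : (i : ℝ) ≤ m := by exact_mod_cast hi.le
      have h3 : (0 : ℝ) ≤ m := Nat.cast_nonneg _
      nlinarith
    have h2 : (0 : ℝ) < ((n + i : ℕ) : ℝ) := by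
      have : 0 < n + i := by omega
      exact_mod_cast this
    have h3 := Real.log_le_log h2 h1
    rw [Real.log_mul (by positivity) (by positivity), hck, Real.log_exp] at h3
    linarith
  let D : Finset ℕ := (range ⌈c ^ k⌉₊).filter fun n =>
    1 ≤ n ∧ (n : ℝ) < c ^ k ∧ ∀ i < m, (1 - δ) * k ≤ (OmS P (n + i) : ℝ)
  have hDmem : ∀ n, n ∈ D ↔ 1 ≤ n ∧ (n : ℝ) < c ^ k ∧ ∀ i < m, (1 - δ) * k ≤ (OmS P (n + i) : ℝ) := by
    intro n
    simp only [D, mem_filter, mem_range]
    constructor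
    · exact fun h => h.2
    · exact fun h => ⟨Nat.lt_ceil.2 h.2.1, h⟩
  have hDcard : D.card ≤ N := by
    refine hgap k hk1 D fun n hn => ?_
    obtain ⟨h1, h2, h3⟩ := (hDmem n).1 hn
    exact ⟨h1, hck ▸ h2, h3⟩
  have hex : ∀ n ∈ D, ∃ q I : ℕ, q.Prime ∧ I < m ∧ q ∣ n + I ∧ Q < q ∧
      ∀ p, p.Prime → p ∣ n + I → p ≤ q := by
    intro n hn
    obtain ⟨hn1, hnc, hnO⟩ := (hDmem n).1 hn
    have hnB : B ≤ n := by
      have h1 := hnO 0 (by omega)
      rw [add_zero] at h1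
      have h2 : B ≤ OmS P n := by exact_mod_cast hkB.trans h1
      have h3 := two_pow_OmS_le P n (by omega)
      have h4 : OmS P n < 2 ^ OmS P n := Nat.lt_two_pow_self
      omega
    obtain ⟨p, hp, hQp, hpd⟩ := hB n hnB
    let S : Finset ℕ := (range m).biUnion fun i => (n + i).primeFactors
    have hSm : ∀ r, r ∈ S ↔ ∃ i < m, r.Prime ∧ r ∣ n + i := by
      intro r
      simp only [S, mem_biUnion, mem_range, Nat.mem_primeFactors]
      constructor
      · rintro ⟨i, hi, h1, h2, _⟩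
        exact ⟨i, hi, h1, h2⟩
      · rintro ⟨i, hi, h1, h2⟩
        exact ⟨i, hi, h1, h2, by omega⟩
    have hpS : p ∈ S := by
      rw [hSm]
      rcases (Nat.Prime.dvd_mul hp).1 hpd with h | h
      · exact ⟨0, by omega, hp, by simpa using h⟩
      · exact ⟨1, by omega, hp, h⟩
    have hne : S.Nonempty := ⟨p, hpS⟩
    obtain ⟨I, hI, hq, hqd⟩ := (hSm _).1 (S.max'_mem hne)
    refine ⟨S.max' hne, I, hq, hI, hqd, lt_of_lt_of_le hQp (S.le_max' p hpS), ?_⟩
    intro r hr hrd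
    exact S.le_max' r ((hSm r).2 ⟨I, hI, hr, hrd⟩)
  choose! q I hqI using hex
  obtain ⟨β, hβ1, hβ2, hβ3⟩ := greedy k N D hDcard q (fun n => n + I n)
    (fun n hn => (hqI n hn).1)
    (fun n hn => by
      have := ((hDmem n).1 hn).1
      show n + I n ≠ 0
      omega)
    (fun n hn => (hqI n hn).2.2.1)
    (fun n hn p hp hpd => (hqI n hn).2.2.2.2 p hp hpd)
    (by
      intro n hn
      obtain ⟨hn1, hnc, hnO⟩ := (hDmem n).1 hn
      obtain ⟨hq, hIm, hqd, hQq, hmax⟩ := hqI n hn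
      show (n + I n).factorization (q n) * N < k
      obtain ⟨v, hv⟩ : ∃ v : ℕ, v = (n + I n).factorization (q n) := ⟨_, rfl⟩
      rw [← hv]
      have hne : n + I n ≠ 0 := by omega
      have h1 : q n ^ v ≤ n + I n := by
        rw [hv]
        exact Nat.le_of_dvd (by omega) (Nat.ordProj_dvd _ _)
      have h2 : (v : ℝ) * Real.log (q n) ≤ (γ + 1) * k := by
        refine le_trans ?_ (hlogb n hn1 hnc (I n) hIm)
        rw [← Real.log_pow]
        refine Real.log_le_log ?_ (by exact_mod_cast h1)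
        have : 0 < q n := hq.pos
        positivity
      have h3 : Real.log Q ≤ Real.log (q n) := by
        refine Real.log_le_log ?_ (by exact_mod_cast hQq.le)
        have : 0 < Q := by omega
        exact_mod_cast this
      have h4 : (v : ℝ) * Real.log Q ≤ (γ + 1) * k :=
        le_trans (mul_le_mul_of_nonneg_left h3 (Nat.cast_nonneg _)) h2
      have h5 : ((v * N : ℕ) : ℝ) * Real.log Q < k * Real.log Q := by
        push_cast
        calc (v : ℝ) * N * Real.log Q = N * (v * Real.log Q) := by ring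
          _ ≤ N * ((γ + 1) * k) := mul_le_mul_of_nonneg_left h4 (Nat.cast_nonneg _)
          _ = (N * (γ + 1)) * k := by ring
          _ < Real.log Q * k := mul_lt_mul_of_pos_right hNQ hk0
          _ = k * Real.log Q := by ring
      have h6 : ((v * N : ℕ) : ℝ) < k := lt_of_mul_lt_mul_right h5 hlQ.le
      exact_mod_cast h6)
  have hβQ : ∀ p ≤ Q, β p = 1 := by
    intro p hp
    refine hβ2 p fun n hn he => ?_
    have := (hqI n hn).2.2.2.1
    omega
  refine ⟨β, hβQ 2 hQ2, fun n hn1 hnc => ?_⟩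
  by_contra hcon
  push Not at hcon
  rcases Nat.lt_or_ge n 2 with hlt | hge
  · have h1 : n = 1 := by omega
    subst h1
    have h2 := hcon 1 (by omega)
    rw [show 1 + 1 = 2 from rfl, wt_prime β Nat.prime_two, hβQ 2 hQ2] at h2
    have := Nat.le_of_dvd (by norm_num) h2
    omega
  · have hnO : ∀ i < m, (1 - δ) * k ≤ (OmS P (n + i) : ℝ) := by
      intro i hi
      have hpos : 0 < wt β (n + i) := by
        obtain ⟨p, hp, hpd⟩ := Nat.exists_prime_and_dvd (n := n + i) (by omega)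
        rw [wt_eq_sum]
        refine Finset.sum_pos' (fun _ _ => Nat.zero_le _) ⟨p, ?_, ?_⟩
        · exact Nat.mem_primeFactors.2 ⟨hp, hpd, by omega⟩
        · exact Nat.mul_pos (hp.factorization_pos_of_dvd (by omega) hpd) (hβ1 p).1
      have hkle : k ≤ wt β (n + i) := Nat.le_of_dvd hpos (hcon i hi)
      have hkle' : (k : ℝ) ≤ (wt β (n + i) : ℝ) := by exact_mod_cast hkle
      have hw := wt_le β P Q N hP2 hQP (fun p hp => (hβQ p hp).le) (fun p => (hβ1 p).2) (n + i)
        (by omega)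
      have hl := hlogb n hn1 hnc i hi
      have e1 : Real.log ((n + i : ℕ) : ℝ) / Real.log P ≤ δ / 2 * k := by
        rw [div_le_iff₀ hlP]
        calc Real.log ((n + i : ℕ) : ℝ) ≤ (γ + 1) * k := hl
          _ ≤ (δ / 2 * Real.log P) * k := mul_le_mul_of_nonneg_right hPlog hk0.le
          _ = δ / 2 * k * Real.log P := by ring
      have e2 : ((N : ℝ) + 1) * (Real.log ((n + i : ℕ) : ℝ) / Real.log Q) ≤ δ / 2 * k := by
        rw [← mul_div_assoc, div_le_iff₀ hlQ]
        calc ((N : ℝ) + 1) * Real.log ((n + i : ℕ) : ℝ) ≤ ((N : ℝ) + 1) * ((γ + 1) * k) :=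
              mul_le_mul_of_nonneg_left hl (by positivity)
          _ = ((N + 1) * (γ + 1)) * k := by ring
          _ ≤ (δ / 2 * Real.log Q) * k := mul_le_mul_of_nonneg_right hQlog hk0.le
          _ = δ / 2 * k * Real.log Q := by ring
      linarith
    have hnD : n ∈ D := (hDmem n).2 ⟨hn1, hnc, hnO⟩
    exact hβ3 n hnD (hcon (I n) (hqI n hnD).2.1)

end Pool.Agent.Lib.MP_fed790_nt
end
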