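import Mathlib

/-! S1: square roots in cyclotomic fields -/

namespace Pool.Agent.Lib.MP_fed790_nt

open Polynomial

/-- If `k ∣ ℓ - 1`, then `ZMod ℓ` contains a primitive `k`-th root of unity. -/
theorem exists_isPrimitiveRoot_zmod (k ℓ : ℕ) [Fact ℓ.Prime] (h : k ∣ ℓ - 1) :
    ∃ z : ZMod ℓ, IsPrimitiveRoot z k := by
  obtain ⟨m, hm⟩ := h
  have hℓ := (Fact.out : ℓ.Prime).one_lt
  obtain ⟨g, hg⟩ := IsCyclic.exists_ofOrder_eq_natCard (α := (ZMod ℓ)ˣ)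
  rw [Nat.card_eq_fintype_card, ZMod.card_units ℓ] at hg
  have h1 : IsPrimitiveRoot g (ℓ - 1) := by
    rw [← hg]; exact IsPrimitiveRoot.orderOf g
  have h2 : IsPrimitiveRoot (g ^ m) k := h1.pow (by omega) (by rw [hm, mul_comm])
  exact ⟨((g ^ m : (ZMod ℓ)ˣ) : ZMod ℓ), (IsPrimitiveRoot.coe_units_iff).2 h2⟩

/-- If `√B ∈ ℚ(ζ_k)`, then `B` is a square modulo all primes `ℓ ≡ 1 (mod k)` outside a finite set. -/
theorem isSquare_of_cyclotomic (k : ℕ) [NeZero k] (F : Type*) [Field F] [Algebra ℚ F]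
    [IsCyclotomicExtension {k} ℚ F] (δ : F) (B : ℕ) (hδ : δ ^ 2 = (B : F)) :
    ∃ D : ℕ, D ≠ 0 ∧ ∀ ℓ : ℕ, ℓ.Prime → ℓ ≡ 1 [MOD k] → ¬ ℓ ∣ D →
      IsSquare ((B : ℕ) : ZMod ℓ) := by
  have hk : 0 < k := Nat.pos_of_ne_zero (NeZero.ne k)
  have hchar : CharZero F := charZero_of_injective_algebraMap (algebraMap ℚ F).injective
  have hζ := IsCyclotomicExtension.zeta_spec k ℚ F
  set ζ := IsCyclotomicExtension.zeta k ℚ F
  have htop : Algebra.adjoin ℚ {ζ} = ⊤ :=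
    IsCyclotomicExtension.adjoin_primitive_root_eq_top hζ
  have hδmem : δ ∈ Algebra.adjoin ℚ {ζ} := by rw [htop]; exact Algebra.mem_top
  rw [Algebra.adjoin_singleton_eq_range_aeval] at hδmem
  obtain ⟨g, hg⟩ := hδmem
  obtain ⟨D, hDmem, hD⟩ := IsLocalization.integerNormalization_spec (nonZeroDivisors ℤ) g
  set G : ℤ[X] := IsLocalization.integerNormalization (nonZeroDivisors ℤ) g
  have hD0 : (D : ℤ) ≠ 0 := nonZeroDivisors.ne_zero hDmem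
  have hGζ : aeval ζ G = (D : ℤ) * δ := by
    have h1 : aeval ζ (G.map (algebraMap ℤ ℚ)) = aeval ζ G := by
      rw [aeval_map_algebraMap]
    rw [← h1, hD, map_zsmul, ← hg]
    simp
  refine ⟨(D : ℤ).natAbs, Int.natAbs_ne_zero.2 hD0, fun ℓ hℓ hmod hdvd => ?_⟩
  have : Fact ℓ.Prime := ⟨hℓ⟩
  have hkℓ : k ∣ ℓ - 1 := (Nat.modEq_iff_dvd' hℓ.one_lt.le).1 hmod.symm
  obtain ⟨z, hz⟩ := exists_isPrimitiveRoot_zmod k ℓ hkℓ
  have hcop : ¬ ℓ ∣ k := by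
    intro h
    have h1 := h.trans hkℓ
    have h2 := Nat.le_of_dvd (by have := hℓ.one_lt; omega) h1
    have := hℓ.one_lt
    omega
  have hne : NeZero (k : ZMod ℓ) := ⟨by
    rw [Ne, ZMod.natCast_eq_zero_iff]
    exact hcop⟩
  have hdiv : cyclotomic k ℤ ∣ G ^ 2 - C ((D : ℤ) ^ 2 * (B : ℤ)) := by
    rw [cyclotomic_eq_minpoly hζ hk]
    refine minpoly.isIntegrallyClosed_dvd (hζ.isIntegral hk) ?_
    rw [map_sub, map_pow, hGζ, aeval_C]
    simp only [algebraMap_int_eq, eq_intCast]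
    push_cast
    rw [mul_pow, hδ]
    ring
  have hroot : (cyclotomic k (ZMod ℓ)).IsRoot z := isRoot_cyclotomic_iff.2 hz
  obtain ⟨Q, hQ⟩ := hdiv
  have h3 := congrArg (fun f : ℤ[X] => eval z (f.map (Int.castRingHom (ZMod ℓ)))) hQ
  simp only [Polynomial.map_mul, map_cyclotomic, eval_mul, hroot.eq_zero, zero_mul,
    Polynomial.map_sub, Polynomial.map_pow, eval_sub, eval_pow, map_C, eval_C] at h3
  have hDℓ : ((D : ℤ) : ZMod ℓ) ≠ 0 := by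
    rw [Ne, ZMod.intCast_zmod_eq_zero_iff_dvd]
    intro h
    exact hdvd (Int.natCast_dvd.1 h)
  refine ⟨eval z (G.map (Int.castRingHom (ZMod ℓ))) / ((D : ℤ) : ZMod ℓ), ?_⟩
  have h4 : (eval z (G.map (Int.castRingHom (ZMod ℓ)))) ^ 2 =
      ((D : ℤ) : ZMod ℓ) ^ 2 * ((B : ℕ) : ZMod ℓ) := by
    have h5 := sub_eq_zero.1 h3
    rw [h5]
    simp
  field_simp
  rw [h4]
  ring

end Pool.Agent.Lib.MP_fed790_nt
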