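import Pool.Agent.Lib.MP_fed790_nt.W.Defs

/-! S2: primes with prescribed quadratic characters -/

namespace Pool.Agent.Lib.MP_fed790_nt

open Finset

private theorem s2_nonres (p : ℕ) (hp : p.Prime) (h2 : p ≠ 2) :
    ∃ n : ℕ, n.Coprime p ∧ ¬ IsSquare ((n : ℕ) : ZMod p) := by
  have : Fact p.Prime := ⟨hp⟩
  obtain ⟨x, hx⟩ := FiniteField.exists_nonsquare (F := ZMod p) (by
    rw [ZMod.ringChar_zmod_n]
    exact h2)
  refine ⟨x.val, ?_, by rwa [ZMod.natCast_zmod_val]⟩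
  rw [Nat.coprime_comm, Nat.Prime.coprime_iff_not_dvd hp]
  intro h
  apply hx
  have h3 : x = 0 := by
    rw [← ZMod.natCast_zmod_val x, ZMod.natCast_eq_zero_iff]
    exact h
  rw [h3]
  exact ⟨0, by simp⟩

private theorem s2_congr {p ℓ n : ℕ} (h : ℓ ≡ n [MOD p]) :
    IsSquare ((ℓ : ℕ) : ZMod p) ↔ IsSquare ((n : ℕ) : ZMod p) := by
  rw [(ZMod.natCast_eq_natCast_iff ℓ n p).2 h]

/-- the residue modulo `8 k` -/
private theorem s2_base (k : ℕ) (hk : Even k) : ∃ a₀ : ℕ, a₀ ≡ 1 [MOD k] ∧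
    a₀.Coprime (8 * k) ∧ (8 ∣ k → a₀ % 8 = 1) ∧ (4 ∣ k → ¬ 8 ∣ k → a₀ % 8 = 5) ∧
    (¬ 4 ∣ k → a₀ % 8 = 3) := by
  obtain ⟨c, hc⟩ : ∃ c : ℕ, (8 ∣ k → (1 + c * k) % 8 = 1) ∧ (4 ∣ k → ¬ 8 ∣ k → (1 + c * k) % 8 = 5) ∧
      (¬ 4 ∣ k → (1 + c * k) % 8 = 3) := by
    obtain ⟨m, hm⟩ := hk
    by_cases h8 : 8 ∣ k
    · exact ⟨0, fun _ => by simp, fun _ h => absurd h8 h, fun h => absurd (Dvd.dvd.trans (by norm_num) h8) h⟩
    · by_cases h4 : 4 ∣ k
      · exact ⟨1, fun h => absurd h h8, fun _ _ => by omega, fun h => absurd h4 h⟩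
      · by_cases h6 : k % 8 = 2
        · exact ⟨1, fun h => absurd h h8, fun h => absurd h h4, fun _ => by omega⟩
        · exact ⟨3, fun h => absurd h h8, fun h => absurd h h4, fun _ => by omega⟩
  refine ⟨1 + c * k, ?_, ?_, hc⟩
  · have h1 : 1 ≡ 1 + c * k [MOD k] := (Nat.modEq_iff_dvd' (by omega)).2 ⟨c, by
      rw [Nat.add_sub_cancel_left, mul_comm]⟩
    exact h1.symm
  · have h1 : (1 + c * k).Coprime k := by
      rw [Nat.coprime_add_mul_right_left]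
      exact Nat.coprime_one_left k
    have h2 : (1 + c * k).Coprime 2 := by
      obtain ⟨m, hm⟩ := hk
      rw [Nat.coprime_two_right]
      refine ⟨c * m, ?_⟩
      rw [hm]
      ring
    have h8 : (1 + c * k).Coprime 8 := by
      have : (8 : ℕ) = 2 ^ 3 := by norm_num
      rw [this]
      exact Nat.Coprime.pow_right 3 h2
    exact Nat.Coprime.mul_right h8 h1

/-- Let `k` be even.  There are arbitrarily large primes `ℓ ≡ 1 (mod k)` such that a prime `p ∈ Ps` is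
a square modulo `ℓ` exactly if its square root lies in the `k`-th cyclotomic field (for `4 ∤ k` we take
`ℓ ≡ 3 (mod 8)`). -/
theorem exists_prime_symbols (k : ℕ) (hk0 : 0 < k) (hk : Even k) (Ps : Finset ℕ)
    (hPs : ∀ p ∈ Ps, p.Prime) (N : ℕ) :
    ∃ ℓ : ℕ, ℓ.Prime ∧ N < ℓ ∧ ℓ ≡ 1 [MOD k] ∧
      ∀ p ∈ Ps, (IsSquare ((p : ℕ) : ZMod ℓ) ↔
        ((p ≠ 2 ∧ p ∣ k ∧ (4 ∣ k ∨ p % 4 = 1)) ∨ (p = 2 ∧ 8 ∣ k))) := by
  classical
  obtain ⟨a₀, ha1, ha2, ha3, ha4, ha5⟩ := s2_base k hk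
  -- residues modulo the odd primes not dividing `k`
  have hres : ∀ p : ℕ, ∃ n : ℕ, p.Prime → p ≠ 2 → n.Coprime p ∧
      ((¬ 4 ∣ k ∧ p % 4 = 3) → IsSquare ((n : ℕ) : ZMod p)) ∧
      (¬ (¬ 4 ∣ k ∧ p % 4 = 3) → ¬ IsSquare ((n : ℕ) : ZMod p)) := by
    intro p
    by_cases hp : p.Prime ∧ p ≠ 2
    · by_cases h : ¬ 4 ∣ k ∧ p % 4 = 3
      · exact ⟨1, fun _ _ => ⟨Nat.coprime_one_left p, fun _ => ⟨1, by simp⟩, fun h' => absurd h h'⟩⟩
      · obtain ⟨n, hn1, hn2⟩ := s2_nonres p hp.1 hp.2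
        exact ⟨n, fun _ _ => ⟨hn1, fun h' => absurd h' h, fun _ => hn2⟩⟩
    · exact ⟨0, fun h1 h2 => absurd ⟨h1, h2⟩ hp⟩
  choose n hn using hres
  set P' : Finset ℕ := Ps.filter (fun p => p ≠ 2 ∧ ¬ p ∣ k) with hP'
  have hP'p : ∀ p ∈ P', p.Prime ∧ p ≠ 2 ∧ ¬ p ∣ k := by
    intro p hp
    rw [hP', Finset.mem_filter] at hp
    exact ⟨hPs p hp.1, hp.2.1, hp.2.2⟩
  have hco : Set.Pairwise (P' : Set ℕ) (Function.onFun Nat.Coprime id) := by
    intro p hp q hq hpq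
    exact (Nat.coprime_primes (hP'p p (Finset.mem_coe.1 hp)).1 (hP'p q (Finset.mem_coe.1 hq)).1).2 hpq
  obtain ⟨b, hb⟩ := Nat.chineseRemainderOfFinset n id P' (fun p hp => (hP'p p hp).1.ne_zero) hco
  simp only [id] at hb
  have hcoM : Nat.Coprime (8 * k) (∏ p ∈ P', p) := by
    refine Nat.Coprime.prod_right fun p hp => ?_
    obtain ⟨h1, h2, h3⟩ := hP'p p hp
    rw [Nat.coprime_comm, Nat.Prime.coprime_iff_not_dvd h1]
    intro h
    rcases (Nat.Prime.dvd_mul h1).1 h with h4 | h4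
    · have h5 : p ∣ 2 ^ 3 := by simpa using h4
      exact h2 ((Nat.prime_dvd_prime_iff_eq h1 Nat.prime_two).1 (h1.dvd_of_dvd_pow h5))
    · exact h3 h4
  obtain ⟨a, haM, haP⟩ := Nat.chineseRemainder hcoM a₀ b
  have haPp : ∀ p ∈ P', a ≡ n p [MOD p] := fun p hp =>
    (haP.of_dvd (Finset.dvd_prod_of_mem _ hp)).trans (hb p hp)
  have hacop : a.Coprime (8 * k * ∏ p ∈ P', p) := by
    refine Nat.Coprime.mul_right ?_ ?_
    · rw [Nat.Coprime, haM.gcd_eq]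
      exact ha2
    · refine Nat.Coprime.prod_right fun p hp => ?_
      rw [Nat.Coprime, (haPp p hp).gcd_eq]
      exact (hn p (hP'p p hp).1 (hP'p p hp).2.1).1
  have hM0 : 8 * k * ∏ p ∈ P', p ≠ 0 := by
    refine mul_ne_zero (by omega) (Finset.prod_ne_zero_iff.2 fun p hp => (hP'p p hp).1.ne_zero)
  obtain ⟨ℓ, hℓN, hℓ, hℓa⟩ :=
    Nat.forall_exists_prime_gt_and_modEq (N + 2 + ∑ p ∈ Ps, p) hM0 hacop
  have hℓ8k : ℓ ≡ a₀ [MOD 8 * k] := (hℓa.of_dvd (Dvd.intro _ rfl)).trans haM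
  have hℓ8 : ℓ % 8 = a₀ % 8 := hℓ8k.of_dvd (Dvd.intro _ rfl)
  have hℓk : ℓ ≡ 1 [MOD k] := (hℓ8k.of_dvd (Dvd.intro_left _ rfl)).trans ha1
  have hFℓ : Fact ℓ.Prime := ⟨hℓ⟩
  refine ⟨ℓ, hℓ, by omega, hℓk, fun p hp => ?_⟩
  have hpP := hPs p hp
  have hFp : Fact p.Prime := ⟨hpP⟩
  have hpℓ : p ≠ ℓ := by
    have h1 : p ≤ ∑ p ∈ Ps, p := Finset.single_le_sum (f := fun p => p) (fun _ _ => Nat.zero_le _) hp
    omega
  have hℓ2 : ℓ ≠ 2 := by omega
  have h84 : 8 ∣ k → 4 ∣ k := fun h => Dvd.dvd.trans (by norm_num) h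
  by_cases hp2 : p = 2
  · subst hp2
    have h1 : IsSquare (((2 : ℕ) : ℕ) : ZMod ℓ) ↔ IsSquare (2 : ZMod ℓ) := by norm_num
    rw [h1, ZMod.exists_sq_eq_two_iff hℓ2, hℓ8]
    constructor
    · intro h
      right
      refine ⟨rfl, ?_⟩
      by_contra h8
      by_cases h4 : 4 ∣ k
      · have := ha4 h4 h8
        omega
      · have := ha5 h4
        omega
    · rintro (⟨h, -⟩ | ⟨-, h⟩)
      · exact absurd rfl h
      · exact Or.inl (ha3 h)
  · -- odd primes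
    have hpodd : p % 2 = 1 := by
      rcases hpP.eq_two_or_odd with h | h
      · exact absurd h hp2
      · exact h
    have hprod : p ∣ k → IsSquare ((ℓ : ℕ) : ZMod p) := by
      intro h
      rw [s2_congr (hℓk.of_dvd h)]
      exact ⟨1, by simp⟩
    have hnd : ¬ p ∣ k → ((¬ 4 ∣ k ∧ p % 4 = 3) → IsSquare ((ℓ : ℕ) : ZMod p)) ∧
        (¬ (¬ 4 ∣ k ∧ p % 4 = 3) → ¬ IsSquare ((ℓ : ℕ) : ZMod p)) := by
      intro h
      have hpP' : p ∈ P' := by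
        rw [hP', Finset.mem_filter]
        exact ⟨hp, hp2, h⟩
      have h1 : ℓ ≡ n p [MOD p] :=
        (hℓa.of_dvd (Dvd.dvd.trans (Finset.dvd_prod_of_mem _ hpP') (Dvd.intro_left _ rfl))).trans
          (haPp p hpP')
      rw [s2_congr h1]
      exact (hn p hpP hp2).2
    have hrhs : ((p ≠ 2 ∧ p ∣ k ∧ (4 ∣ k ∨ p % 4 = 1)) ∨ (p = 2 ∧ 8 ∣ k)) ↔
        (p ∣ k ∧ (4 ∣ k ∨ p % 4 = 1)) := by
      constructor
      · rintro (⟨-, h⟩ | ⟨h, -⟩)
        · exact h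
        · exact absurd h hp2
      · intro h
        exact Or.inl ⟨hp2, h⟩
    rw [hrhs]
    by_cases h4 : 4 ∣ k
    · -- `ℓ ≡ 1 (mod 4)`
      have hℓ4 : ℓ % 4 = 1 := by
        by_cases h8 : 8 ∣ k
        · have := ha3 h8
          omega
        · have := ha4 h4 h8
          omega
      rw [ZMod.exists_sq_eq_prime_iff_of_mod_four_eq_one hℓ4 hp2]
      constructor
      · intro h
        refine ⟨?_, Or.inl h4⟩
        by_contra hd
        exact (hnd hd).2 (fun h' => h'.1 h4) h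
      · rintro ⟨h, -⟩
        exact hprod h
    · have hℓ4 : ℓ % 4 = 3 := by
        have := ha5 h4
        omega
      by_cases hp4 : p % 4 = 1
      · rw [← ZMod.exists_sq_eq_prime_iff_of_mod_four_eq_one hp4 hℓ2]
        constructor
        · intro h
          refine ⟨?_, Or.inr hp4⟩
          by_contra hd
          exact (hnd hd).2 (fun h' => by omega) h
        · rintro ⟨h, -⟩
          exact hprod h
      · have hp3 : p % 4 = 3 := by omega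
        rw [ZMod.exists_sq_eq_prime_iff_of_mod_four_eq_three hℓ4 hp3 hpℓ.symm]
        constructor
        · intro h
          exfalso
          apply h
          by_cases hd : p ∣ k
          · exact hprod hd
          · exact (hnd hd).1 ⟨h4, hp3⟩
        · rintro ⟨-, h | h⟩
          · exact absurd h h4
          · omega

/-- The same in terms of the weight `aK`. -/
theorem exists_prime_symbols_aK (k : ℕ) (hk0 : 0 < k) (hk : Even k) (Ps : Finset ℕ)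
    (hPs : ∀ p ∈ Ps, p.Prime) (N : ℕ) :
    ∃ ℓ : ℕ, ℓ.Prime ∧ N < ℓ ∧ ℓ ≡ 1 [MOD k] ∧
      ∀ p ∈ Ps, (IsSquare ((p : ℕ) : ZMod ℓ) ↔ Even (aK k p)) := by
  obtain ⟨ℓ, h1, h2, h3, h4⟩ := exists_prime_symbols k hk0 hk Ps hPs N
  refine ⟨ℓ, h1, h2, h3, fun p hp => ?_⟩
  rw [h4 p hp]
  unfold aK
  split_ifs with h
  · refine iff_of_true ?_ even_two
    rcases h with ⟨-, h⟩ | h
    · exact Or.inl h
    · exact Or.inr h
  · refine iff_of_false ?_ (by simp)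
    rintro (h' | h')
    · exact h (Or.inl ⟨hk, h'⟩)
    · exact h (Or.inr h')

end Pool.Agent.Lib.MP_fed790_nt
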